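import Mathlib

set_option autoImplicit false

/-!
# Poisson kernels and `∑ log |1 - y^k|`
-/

namespace Pool.MP_6f8877_nt.H8

open Complex

/-- The Poisson kernel `Re ((1+z)/(1-z))`. -/
noncomputable def P (z : ℂ) : ℝ := ((1 + z) / (1 - z)).re

lemma one_sub_ne_zero' {z : ℂ} (hz : ‖z‖ < 1) : (1 : ℂ) - z ≠ 0 := by
  intro h
  have : z = 1 := by
    have := sub_eq_zero.mp h
    exact this.symm
  rw [this] at hz
  simp at hz

lemma one_sub_norm_le (z : ℂ) : 1 - ‖z‖ ≤ ‖(1 : ℂ) - z‖ := by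
  have := norm_sub_norm_le (1 : ℂ) z
  simpa using this

lemma P_nonneg {z : ℂ} (hz : ‖z‖ < 1) : 0 ≤ P z := by
  unfold P
  rw [Complex.div_re]
  have h1 : ‖z‖ ^ 2 < 1 := by nlinarith [norm_nonneg z]
  rw [← Complex.normSq_eq_norm_sq, Complex.normSq_apply] at h1
  rw [← add_div]
  apply div_nonneg _ (Complex.normSq_nonneg _)
  simp
  nlinarith

lemma P_eq {z : ℂ} (hz : ‖z‖ < 1) : P z = 1 + 2 * (z / (1 - z)).re := by
  unfold P
  have h := one_sub_ne_zero' hz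
  have : (1 + z) / (1 - z) = 1 + 2 * (z / (1 - z)) := by
    field_simp
    ring
  rw [this]
  simp

lemma P_le_two_mul {z : ℂ} (hz : ‖z‖ < 1) : P z ≤ 2 * P (z ^ 2) := by
  have hz' : ‖-z‖ < 1 := by simpa using hz
  have h2 := P_nonneg hz'
  have h0 := one_sub_ne_zero' hz
  have h1 := one_sub_ne_zero' hz'
  have hz2 : ‖z ^ 2‖ < 1 := by
    rw [norm_pow]; nlinarith [norm_nonneg z]
  have h3 := one_sub_ne_zero' hz2
  have h4 : (1 : ℂ) + z ≠ 0 := by simpa using h1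
  have key : P z + P (-z) = 2 * P (z ^ 2) := by
    unfold P
    have : (1 + z) / (1 - z) + (1 + -z) / (1 - -z) = 2 * ((1 + z ^ 2) / (1 - z ^ 2)) := by
      have e : (1 : ℂ) - z ^ 2 = (1 - z) * (1 + z) := by ring
      rw [e, sub_neg_eq_add]
      field_simp
      ring
    rw [← Complex.add_re, this]
    simp
  linarith

lemma abs_one_sub_P_le {z : ℂ} (hz : ‖z‖ < 1) : |1 - P z| ≤ 2 * (‖z‖ / (1 - ‖z‖)) := by
  rw [P_eq hz]
  have h1 : |(z / (1 - z)).re| ≤ ‖z / (1 - z)‖ := Complex.abs_re_le_norm _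
  have h2 : ‖z / (1 - z)‖ ≤ ‖z‖ / (1 - ‖z‖) := by
    rw [norm_div]
    apply div_le_div_of_nonneg_left (norm_nonneg _) (by linarith) (one_sub_norm_le z)
  have : 1 - (1 + 2 * (z / (1 - z)).re) = - (2 * (z / (1 - z)).re) := by ring
  rw [this, abs_neg, abs_mul]
  norm_num
  linarith

lemma P_le {z : ℂ} (hz : ‖z‖ < 1) : P z ≤ 1 + 2 * (‖z‖ / (1 - ‖z‖)) := by
  have := abs_one_sub_P_le hz
  have := neg_abs_le (1 - P z)
  linarith

lemma hasSum_log_norm {w : ℂ} (hw : ‖w‖ < 1) :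
    HasSum (fun m : ℕ => -((w ^ (m + 1)).re / (m + 1))) (Real.log ‖1 - w‖) := by
  have h1 := Complex.hasSum_taylorSeries_neg_log' hw
  have h2 := (Complex.hasSum_re h1).neg
  have e : -(-Complex.log (1 - w)).re = Real.log ‖1 - w‖ := by
    rw [Complex.neg_re, neg_neg, Complex.log_re]
  rw [e] at h2
  have e2 : (fun m : ℕ => -((w ^ (m + 1)).re / ((m : ℝ) + 1)))
      = fun m : ℕ => -(w ^ (m + 1) / ((m : ℂ) + 1)).re := by
    funext m
    rw [show ((m : ℂ) + 1) = (((m : ℝ) + 1 : ℝ) : ℂ) by push_cast; ring, Complex.div_ofReal_re]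
  rw [e2]
  exact h2

lemma summable_pow_succ {r : ℝ} (h0 : 0 ≤ r) (h1 : r < 1) : Summable (fun m : ℕ => r ^ (m + 1)) := by
  have := (summable_geometric_of_lt_one h0 h1).mul_left r
  simpa [pow_succ, mul_comm] using this

lemma hasSum_pow_succ {r : ℝ} (h0 : 0 ≤ r) (h1 : r < 1) :
    HasSum (fun m : ℕ => r ^ (m + 1)) (r / (1 - r)) := by
  have := (hasSum_geometric_of_lt_one h0 h1).mul_left r
  simpa [pow_succ, mul_comm, div_eq_mul_inv] using this

lemma abs_log_norm_one_sub_le {w : ℂ} (hw : ‖w‖ < 1) :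
    |Real.log ‖1 - w‖| ≤ ‖w‖ / (1 - ‖w‖) := by
  have h := hasSum_log_norm hw
  have h2 := hasSum_pow_succ (norm_nonneg w) hw
  rw [← Real.norm_eq_abs]
  rw [← h.tsum_eq, ← h2.tsum_eq]
  apply tsum_of_norm_bounded h2.summable.hasSum
  intro m
  rw [Real.norm_eq_abs, abs_neg, abs_div]
  have h3 : |(w ^ (m + 1)).re| ≤ ‖w‖ ^ (m + 1) := by
    rw [← norm_pow]; exact Complex.abs_re_le_norm _
  have h4 : (1 : ℝ) ≤ |(m : ℝ) + 1| := by
    rw [abs_of_nonneg (by positivity)]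
    have : (0 : ℝ) ≤ m := Nat.cast_nonneg m
    linarith
  calc |(w ^ (m + 1)).re| / |(m : ℝ) + 1| ≤ |(w ^ (m + 1)).re| := div_le_self (abs_nonneg _) h4
    _ ≤ _ := h3

lemma pow_norm_lt_one {y : ℂ} (hy : ‖y‖ < 1) (k : ℕ) : ‖y ^ (k + 1)‖ < 1 := by
  rw [norm_pow]
  exact pow_lt_one₀ (norm_nonneg _) hy (by omega)

lemma pow_norm_le {y : ℂ} (hy : ‖y‖ < 1) (k : ℕ) : ‖y‖ ^ (k + 1) ≤ ‖y‖ := by
  have := pow_le_pow_of_le_one (norm_nonneg y) hy.le (show 1 ≤ k + 1 by omega)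
  simpa using this

lemma term_le {y : ℂ} (hy : ‖y‖ < 1) (k : ℕ) :
    |Real.log ‖1 - y ^ (k + 1)‖| ≤ ‖y‖ ^ (k + 1) / (1 - ‖y‖) := by
  have h1 := abs_log_norm_one_sub_le (pow_norm_lt_one hy k)
  rw [norm_pow] at h1
  refine h1.trans ?_
  apply div_le_div_of_nonneg_left (by positivity) (by linarith)
  have := pow_norm_le hy k
  linarith

lemma summable_log {y : ℂ} (hy : ‖y‖ < 1) :
    Summable (fun k : ℕ => Real.log ‖1 - y ^ (k + 1)‖) := by
  apply Summable.of_norm_bounded (g := fun k : ℕ => ‖y‖ ^ (k + 1) / (1 - ‖y‖))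
  · exact (summable_pow_succ (norm_nonneg y) hy).div_const _
  · intro k
    rw [Real.norm_eq_abs]
    exact term_le hy k

/-- `U y = ∑_{k ≥ 1} log |1 - y^k|`. -/
noncomputable def U (y : ℂ) : ℝ := ∑' k : ℕ, Real.log ‖1 - y ^ (k + 1)‖

lemma abs_U_le {y : ℂ} (hy : ‖y‖ < 1) : |U y| ≤ ‖y‖ / (1 - ‖y‖) ^ 2 := by
  unfold U
  rw [← Real.norm_eq_abs]
  have h := (hasSum_pow_succ (norm_nonneg y) hy).div_const (1 - ‖y‖)
  have e : ‖y‖ / (1 - ‖y‖) / (1 - ‖y‖) = ‖y‖ / (1 - ‖y‖) ^ 2 := by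
    rw [div_div, sq]
  rw [← e]
  apply tsum_of_norm_bounded h
  intro k
  rw [Real.norm_eq_abs]
  exact term_le hy k

/-- The tail of `U`. -/
lemma abs_U_sub_le {y : ℂ} (hy : ‖y‖ < 1) (N : ℕ) :
    |U y - ∑ k ∈ Finset.range N, Real.log ‖1 - y ^ (k + 1)‖| ≤ ‖y‖ ^ (N + 1) / (1 - ‖y‖) ^ 2 := by
  have h1 := (summable_log hy).sum_add_tsum_nat_add N
  have h2 : U y - ∑ k ∈ Finset.range N, Real.log ‖1 - y ^ (k + 1)‖
      = ∑' k : ℕ, Real.log ‖1 - y ^ (k + N + 1)‖ := by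
    unfold U
    rw [← h1]
    ring
  rw [h2, ← Real.norm_eq_abs]
  have h := ((hasSum_pow_succ (norm_nonneg y) hy).div_const (1 - ‖y‖)).mul_left (‖y‖ ^ N)
  have e : ‖y‖ ^ N * (‖y‖ / (1 - ‖y‖) / (1 - ‖y‖)) = ‖y‖ ^ (N + 1) / (1 - ‖y‖) ^ 2 := by
    rw [div_div, sq, pow_succ]; ring
  rw [← e]
  apply tsum_of_norm_bounded h
  intro k
  rw [Real.norm_eq_abs]
  have := term_le hy (k + N)
  refine this.trans (le_of_eq ?_)
  rw [show k + N + 1 = N + (k + 1) by ring, pow_add]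
  ring

/-- The expansion of `U` in Poisson kernels. -/
lemma hasSum_U {y : ℂ} (hy : ‖y‖ < 1) :
    HasSum (fun m : ℕ => (1 / (2 * ((m : ℝ) + 1))) * (1 - P (y ^ (m + 1)))) (U y) := by
  set f : ℕ × ℕ → ℝ := fun p => -(((y ^ (p.1 + 1)) ^ (p.2 + 1)).re / ((p.2 : ℝ) + 1)) with hf
  have hsum : Summable f := by
    apply Summable.of_norm_bounded (g := fun p : ℕ × ℕ => ‖y‖ ^ (p.1) * ‖y‖ ^ (p.2))
    · exact (summable_geometric_of_lt_one (norm_nonneg y) hy).mul_of_nonneg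
        (summable_geometric_of_lt_one (norm_nonneg y) hy) (fun _ => by positivity)
        (fun _ => by positivity)
    · rintro ⟨k, m⟩
      simp only [hf, Real.norm_eq_abs, abs_neg, abs_div]
      have h3 : |((y ^ (k + 1)) ^ (m + 1)).re| ≤ ‖y‖ ^ ((k + 1) * (m + 1)) := by
        rw [← pow_mul, ← norm_pow]; exact Complex.abs_re_le_norm _
      have h4 : (1 : ℝ) ≤ |(m : ℝ) + 1| := by
        rw [abs_of_nonneg (by positivity)]
        have : (0 : ℝ) ≤ m := Nat.cast_nonneg m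
        linarith
      calc |((y ^ (k + 1)) ^ (m + 1)).re| / |(m : ℝ) + 1|
          ≤ |((y ^ (k + 1)) ^ (m + 1)).re| := div_le_self (abs_nonneg _) h4
        _ ≤ ‖y‖ ^ ((k + 1) * (m + 1)) := h3
        _ ≤ ‖y‖ ^ (k + m) := by
            apply pow_le_pow_of_le_one (norm_nonneg y) hy.le
            nlinarith [Nat.zero_le (k * m)]
        _ = _ := by rw [pow_add]
  have hs := hsum.hasSum
  -- rows
  have hrow : HasSum (fun k : ℕ => Real.log ‖1 - y ^ (k + 1)‖) (∑' p, f p) := by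
    refine hs.prod_fiberwise (g := fun k : ℕ => Real.log ‖1 - y ^ (k + 1)‖) (fun k => ?_)
    have := hasSum_log_norm (pow_norm_lt_one hy k)
    simpa only [hf] using this
  have hU : U y = ∑' p, f p := hrow.tsum_eq
  rw [hU]
  have hs' : HasSum (fun p : ℕ × ℕ => f p.swap) (∑' p, f p) :=
    (Equiv.prodComm ℕ ℕ).hasSum_iff.mpr hs
  have := hs'.prod_fiberwise (g := fun m : ℕ =>
    (1 / (2 * ((m : ℝ) + 1))) * (1 - P (y ^ (m + 1)))) ?_
  · exact this
  · intro m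
    have hlt := pow_norm_lt_one hy m
    rw [P_eq hlt]
    have hg : HasSum (fun k : ℕ => (y ^ (m + 1)) ^ (k + 1)) (y ^ (m + 1) / (1 - y ^ (m + 1))) := by
      have := (hasSum_geometric_of_norm_lt_one hlt).mul_left (y ^ (m + 1))
      simpa only [← pow_succ', div_eq_mul_inv] using this
    have hg2 := ((Complex.hasSum_re hg).div_const ((m : ℝ) + 1)).neg
    have e : 1 / (2 * ((m : ℝ) + 1)) * (1 - (1 + 2 * (y ^ (m + 1) / (1 - y ^ (m + 1))).re))
        = -((y ^ (m + 1) / (1 - y ^ (m + 1))).re / ((m : ℝ) + 1)) := by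
      have : (m : ℝ) + 1 ≠ 0 := by positivity
      field_simp
      ring
    rw [e]
    have e2 : (fun k : ℕ => f (Prod.swap (m, k)))
        = fun k : ℕ => -(((y ^ (m + 1)) ^ (k + 1)).re / ((m : ℝ) + 1)) := by
      funext k
      simp only [hf, Prod.swap]
      rw [← pow_mul, ← pow_mul, mul_comm (k + 1) (m + 1)]
    rw [e2]
    exact hg2

/-- `Φ y = 2 U(y) - U(y²)` is a sum over odd indices. -/
lemma hasSum_Phi {y : ℂ} (hy : ‖y‖ < 1) :
    HasSum (fun m : ℕ => if Even m then (1 / ((m : ℝ) + 1)) * (1 - P (y ^ (m + 1))) else 0)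
      (2 * U y - U (y ^ 2)) := by
  have hy2 : ‖y ^ 2‖ < 1 := by
    rw [norm_pow]; nlinarith [norm_nonneg y]
  have h1 := (hasSum_U hy).mul_left 2
  have h2 := hasSum_U hy2
  set g : ℕ → ℝ := fun m => if Even m then 0 else (1 / ((m : ℝ) + 1)) * (1 - P (y ^ (m + 1)))
    with hg
  have h3 : HasSum g (U (y ^ 2)) := by
    have hinj : Function.Injective (fun m : ℕ => 2 * m + 1) := by
      intro a b h
      simp only at h
      omega
    rw [← hinj.hasSum_iff]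
    · have e2 : (g ∘ fun m : ℕ => 2 * m + 1)
          = fun m : ℕ => (1 / (2 * ((m : ℝ) + 1))) * (1 - P ((y ^ 2) ^ (m + 1))) := by
        funext m
        simp only [hg, Function.comp]
        rw [if_neg (by simp)]
        rw [← pow_mul, show 2 * (m + 1) = 2 * m + 1 + 1 by ring]
        push_cast
        rw [show (2 : ℝ) * m + 1 + 1 = 2 * (m + 1) by ring]
      rw [e2]
      exact h2
    · intro x hx
      simp only [hg]
      rw [if_pos]
      by_contra hodd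
      rw [Nat.not_even_iff_odd] at hodd
      obtain ⟨k, hk⟩ := hodd
      exact hx ⟨k, hk.symm⟩
  have h4 := h1.sub h3
  have e3 : (fun m : ℕ => if Even m then (1 / ((m : ℝ) + 1)) * (1 - P (y ^ (m + 1))) else 0)
      = fun m : ℕ => 2 * ((1 / (2 * ((m : ℝ) + 1))) * (1 - P (y ^ (m + 1)))) - g m := by
    funext m
    simp only [hg]
    have : (m : ℝ) + 1 ≠ 0 := by positivity
    split_ifs
    · field_simp
      ring
    · field_simp
      ring
  rw [e3]
  exact h4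

end Pool.MP_6f8877_nt.H8
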