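import Mathlib
import Pool.Agent.Work.MP_6f8877_nt.H8.Poisson

set_option autoImplicit false

/-!
# The combination of `U(x^(2^s))` and its upper bound
-/

namespace Pool.MP_6f8877_nt.H8

open Complex Finset

/-- The positions `0, 2, 6, 14, 30, …`. -/
def b (j : ℕ) : ℕ := 2 ^ (j + 1) - 2

lemma b_zero : b 0 = 0 := rfl

lemma b_succ (j : ℕ) : b (j + 1) = 2 * b j + 2 := by
  unfold b
  have h : 2 ≤ 2 ^ (j + 1) := by
    have := Nat.one_le_two_pow (n := j)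
    rw [pow_succ]; omega
  rw [pow_succ 2 (j + 1)]
  omega

lemma b_strictMono : StrictMono b := by
  apply strictMono_nat_of_lt_succ
  intro j
  rw [b_succ]; omega

lemma le_b (j : ℕ) : j ≤ b j := b_strictMono.le_apply

/-- The sum of the `W`-values over the positions `< I`. -/
noncomputable def comb (I : ℕ) (W : ℕ → ℝ) : ℝ := by
  classical
  exact ∑ s ∈ range I, if s ∈ Set.range b then W s else W (s + 1) - W s

lemma comb_eq (I : ℕ) (W : ℕ → ℝ) [DecidablePred (· ∈ Set.range b)] :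
    comb I W = W I - W 0 + ∑ s ∈ range I, if s ∈ Set.range b then 2 * W s - W (s + 1) else 0 := by
  unfold comb
  induction I with
  | zero => simp
  | succ I ih =>
    rw [sum_range_succ, sum_range_succ]
    by_cases h : I ∈ Set.range b
    · simp only [h, if_true] at ih ⊢
      linarith
    · simp only [h, if_false] at ih ⊢
      linarith

lemma sum_range_b (J : ℕ) (g : ℕ → ℝ) [DecidablePred (· ∈ Set.range b)] :
    (∑ s ∈ range (b J), if s ∈ Set.range b then g s else 0) = ∑ j ∈ range J, g (b j) := by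
  rw [← sum_filter]
  have : (range (b J)).filter (· ∈ Set.range b) = (range J).image b := by
    ext s
    simp only [mem_filter, mem_range, mem_image, Set.mem_range]
    constructor
    · rintro ⟨h1, j, rfl⟩
      exact ⟨j, b_strictMono.lt_iff_lt.mp h1, rfl⟩
    · rintro ⟨j, hj, rfl⟩
      exact ⟨b_strictMono hj, j, rfl⟩
  rw [this, sum_image]
  intro i _ j _ h
  exact b_strictMono.injective h

lemma comb_b (J : ℕ) (W : ℕ → ℝ) :
    comb (b J) W = W (b J) - W 0 + ∑ j ∈ range J, (2 * W (b j) - W (b j + 1)) := by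
  classical
  rw [comb_eq, sum_range_b J (fun s => 2 * W s - W (s + 1))]

lemma tele (I : ℕ) (W : ℕ → ℝ) :
    ∑ s ∈ range I, (1 / 2 : ℝ) ^ (s + 1) * (2 * W s - W (s + 1)) = W 0 - (1 / 2) ^ I * W I := by
  induction I with
  | zero => simp
  | succ I ih =>
    rw [sum_range_succ, ih]
    ring

lemma comb_b' (J : ℕ) (W : ℕ → ℝ) :
    comb (b J) W = (1 - (1 / 2) ^ (b J)) * W (b J) + (∑ j ∈ range J, (2 * W (b j) - W (b j + 1))
      - ∑ s ∈ range (b J), (1 / 2 : ℝ) ^ (s + 1) * (2 * W s - W (s + 1))) := by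
  rw [comb_b, tele]
  ring

lemma comb_le (I : ℕ) (W W' : ℕ → ℝ) (t : ℝ) (h : ∀ s, |W s - W' s| ≤ t) :
    comb I W' ≤ comb I W + 2 * I * t := by
  classical
  unfold comb
  induction I with
  | zero => simp
  | succ I ih =>
    have h1 := abs_le.mp (h I)
    have h2 := abs_le.mp (h (I + 1))
    have ht : 0 ≤ t := (abs_nonneg _).trans (h 0)
    rw [sum_range_succ, sum_range_succ]
    push_cast
    by_cases hI : I ∈ Set.range b
    · simp only [hI, if_true] at ih ⊢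
      linarith
    · simp only [hI, if_false] at ih ⊢
      linarith

/-! ### The bracket -/

lemma geom_quarter (a c : ℕ) (h : a ≤ c) :
    ∑ s ∈ Ico (a + 1) (c + 1), (1 / 4 : ℝ) ^ s = ((1 / 4) ^ a - (1 / 4) ^ c) / 3 := by
  induction c, h using Nat.le_induction with
  | base => simp
  | succ c hc ih =>
    rw [sum_Ico_succ_top (by omega), ih]
    ring

lemma geom_half (I : ℕ) : ∑ s ∈ range I, (1 / 2 : ℝ) ^ (s + 1) = 1 - (1 / 2) ^ I := by
  induction I with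
  | zero => simp
  | succ I ih =>
    rw [sum_range_succ, ih]
    ring

lemma p_le_pow {p : ℕ → ℝ} (h : ∀ s, p s ≤ 2 * p (s + 1)) (s d : ℕ) :
    p s ≤ 2 ^ d * p (s + d) := by
  induction d with
  | zero => simp
  | succ d ih =>
    have := h (s + d)
    have h2 : (0 : ℝ) < 2 ^ d := by positivity
    calc p s ≤ 2 ^ d * p (s + d) := ih
      _ ≤ 2 ^ d * (2 * p (s + d + 1)) := by
        exact mul_le_mul_of_nonneg_left this h2.le
      _ = _ := by rw [pow_succ]; ring_nf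

lemma seg_le {p : ℕ → ℝ} (h0 : ∀ s, 0 ≤ p s) (h : ∀ s, p s ≤ 2 * p (s + 1)) (a : ℕ) :
    ∑ s ∈ Ico (a + 1) (2 * a + 2 + 1), (1 / 2 : ℝ) ^ (s + 1) * p s ≤ p (2 * a + 2) := by
  have h1 : ∀ s ∈ Ico (a + 1) (2 * a + 2 + 1), (1 / 2 : ℝ) ^ (s + 1) * p s ≤
      (1 / 4) ^ s * (2 ^ (2 * a + 1) * p (2 * a + 2)) := by
    intro s hs
    rw [mem_Ico] at hs
    have := p_le_pow h s (2 * a + 2 - s)
    rw [show s + (2 * a + 2 - s) = 2 * a + 2 by omega] at this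
    have e : (1 / 2 : ℝ) ^ (s + 1) * 2 ^ (2 * a + 2 - s) = (1 / 4) ^ s * 2 ^ (2 * a + 1) := by
      have e1 : (2 : ℝ) ^ (2 * a + 2 - s) * 2 ^ s = 2 ^ (2 * a + 2) := by
        rw [← pow_add]; congr 1; omega
      have e2 : (1 / 4 : ℝ) ^ s = (1 / 2) ^ s * (1 / 2) ^ s := by
        rw [← mul_pow]; norm_num
      have e3 : (1 / 2 : ℝ) ^ s * 2 ^ s = 1 := by
        rw [← mul_pow]; norm_num
      calc (1 / 2 : ℝ) ^ (s + 1) * 2 ^ (2 * a + 2 - s)
          = (1 / 2 : ℝ) ^ (s + 1) * 2 ^ (2 * a + 2 - s) * ((1 / 2 : ℝ) ^ s * 2 ^ s) := by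
            rw [e3, mul_one]
        _ = (1 / 2 : ℝ) ^ (s + 1) * (1 / 2 : ℝ) ^ s * (2 ^ (2 * a + 2 - s) * 2 ^ s) := by ring
        _ = (1 / 2 : ℝ) ^ (s + 1) * (1 / 2 : ℝ) ^ s * 2 ^ (2 * a + 2) := by rw [e1]
        _ = _ := by rw [e2]; ring
    calc (1 / 2 : ℝ) ^ (s + 1) * p s
        ≤ (1 / 2 : ℝ) ^ (s + 1) * (2 ^ (2 * a + 2 - s) * p (2 * a + 2)) := by
          apply mul_le_mul_of_nonneg_left this (by positivity)
      _ = (1 / 4) ^ s * (2 ^ (2 * a + 1) * p (2 * a + 2)) := by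
          rw [← mul_assoc, e]; ring
  refine (sum_le_sum h1).trans ?_
  rw [← sum_mul, geom_quarter a (2 * a + 2) (by omega)]
  have h2 : (0 : ℝ) ≤ (1 / 4) ^ (2 * a + 2) := by positivity
  have h3 : (1 / 4 : ℝ) ^ a * 2 ^ (2 * a + 1) = 2 := by
    rw [pow_succ, pow_mul, ← mul_assoc, ← mul_pow]; norm_num
  have h4 : (0 : ℝ) ≤ 2 ^ (2 * a + 1) * p (2 * a + 2) := mul_nonneg (by positivity) (h0 _)
  calc ((1 / 4 : ℝ) ^ a - (1 / 4) ^ (2 * a + 2)) / 3 * (2 ^ (2 * a + 1) * p (2 * a + 2))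
      ≤ ((1 / 4 : ℝ) ^ a) / 3 * (2 ^ (2 * a + 1) * p (2 * a + 2)) := by
        apply mul_le_mul_of_nonneg_right _ h4
        linarith
    _ = ((1 / 4 : ℝ) ^ a * 2 ^ (2 * a + 1)) / 3 * p (2 * a + 2) := by ring
    _ = 2 / 3 * p (2 * a + 2) := by rw [h3]
    _ ≤ _ := by nlinarith [h0 (2 * a + 2)]

lemma A_le {p : ℕ → ℝ} (h0 : ∀ s, 0 ≤ p s) (h : ∀ s, p s ≤ 2 * p (s + 1)) (j : ℕ) :
    ∑ s ∈ range (b j + 1), (1 / 2 : ℝ) ^ (s + 1) * p s ≤ ∑ i ∈ range (j + 1), p (b i) := by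
  induction j with
  | zero =>
    simp only [b_zero, zero_add, sum_range_one]
    nlinarith [h0 0]
  | succ j ih =>
    rw [sum_range_succ _ (j + 1), b_succ]
    have h1 := seg_le h0 h (b j)
    rw [← sum_range_add_sum_Ico _ (show b j + 1 ≤ 2 * b j + 2 + 1 by omega)]
    linarith

lemma last_le {p : ℕ → ℝ} (n a : ℕ) (hn : n < 2 ^ (2 * a + 2))
    (hp : ∀ s, p s ≤ 1 + 2 * (n / 2 ^ s)) :
    ∑ s ∈ Ico (a + 1) (2 * a + 2), (1 / 2 : ℝ) ^ (s + 1) * p s ≤ 7 / 3 := by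
  have h1 : ∀ s ∈ Ico (a + 1) (2 * a + 2), (1 / 2 : ℝ) ^ (s + 1) * p s ≤
      (1 / 2) ^ (s + 1) + n * (1 / 4) ^ s := by
    intro s _
    have e : (1 / 2 : ℝ) ^ (s + 1) * (1 + 2 * (n / 2 ^ s)) = (1 / 2) ^ (s + 1) + n * (1 / 4) ^ s := by
      have e2 : (1 / 4 : ℝ) ^ s = (1 / 2) ^ s * (1 / 2) ^ s := by
        rw [← mul_pow]; norm_num
      rw [e2, div_eq_mul_inv (n : ℝ), ← inv_pow]
      ring
    rw [← e]
    exact mul_le_mul_of_nonneg_left (hp s) (by positivity)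
  refine (sum_le_sum h1).trans ?_
  rw [sum_add_distrib, ← mul_sum]
  have h2 : ∑ s ∈ Ico (a + 1) (2 * a + 2), (1 / 2 : ℝ) ^ (s + 1) ≤ 1 := by
    calc ∑ s ∈ Ico (a + 1) (2 * a + 2), (1 / 2 : ℝ) ^ (s + 1)
        ≤ ∑ s ∈ range (2 * a + 2), (1 / 2 : ℝ) ^ (s + 1) := by
          apply sum_le_sum_of_subset_of_nonneg
          · intro s hs
            rw [mem_Ico] at hs
            rw [mem_range]; omega
          · intros; positivity
      _ ≤ 1 := by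
          rw [geom_half]
          have : (0 : ℝ) ≤ (1 / 2) ^ (2 * a + 2) := by positivity
          linarith
  have h3 : ∑ s ∈ Ico (a + 1) (2 * a + 2), (1 / 4 : ℝ) ^ s ≤ (1 / 4) ^ a / 3 := by
    rw [show 2 * a + 2 = (2 * a + 1) + 1 by ring, geom_quarter a (2 * a + 1) (by omega)]
    have : (0 : ℝ) ≤ (1 / 4) ^ (2 * a + 1) := by positivity
    linarith
  have h4 : (n : ℝ) ≤ 4 * 4 ^ a := by
    have : (n : ℝ) < 2 ^ (2 * a + 2) := by exact_mod_cast hn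
    rw [pow_add, pow_mul] at this
    norm_num at this
    linarith
  have h5 : (4 : ℝ) ^ a * (1 / 4) ^ a = 1 := by
    rw [← mul_pow]; norm_num
  have h6 : (n : ℝ) * ∑ s ∈ Ico (a + 1) (2 * a + 2), (1 / 4 : ℝ) ^ s ≤ 4 / 3 := by
    calc (n : ℝ) * ∑ s ∈ Ico (a + 1) (2 * a + 2), (1 / 4 : ℝ) ^ s
        ≤ n * ((1 / 4) ^ a / 3) := mul_le_mul_of_nonneg_left h3 (by positivity)
      _ ≤ (4 * 4 ^ a) * ((1 / 4) ^ a / 3) := mul_le_mul_of_nonneg_right h4 (by positivity)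
      _ = 4 / 3 * (4 ^ a * (1 / 4) ^ a) := by ring
      _ = 4 / 3 := by rw [h5, mul_one]
  linarith

/-- The bracket. -/
noncomputable def Br (J : ℕ) (p : ℕ → ℝ) : ℝ :=
  ∑ j ∈ range J, (1 - p (b j)) - ∑ s ∈ range (b J), (1 / 2 : ℝ) ^ (s + 1) * (1 - p s)

lemma Br_le {p : ℕ → ℝ} (h0 : ∀ s, 0 ≤ p s) (h : ∀ s, p s ≤ 2 * p (s + 1)) (n J : ℕ)
    (hJ : 1 ≤ J) (hn : n < 2 ^ (b J)) (hp : ∀ s, p s ≤ 1 + 2 * (n / 2 ^ s)) :
    Br J p ≤ J + 2 := by
  obtain ⟨j, rfl⟩ : ∃ j, J = j + 1 := ⟨J - 1, by omega⟩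
  unfold Br
  have h1 := A_le h0 h j
  have h2 := last_le n (b j) (by rwa [b_succ] at hn) hp
  have h3 : ∑ s ∈ range (b (j + 1)), (1 / 2 : ℝ) ^ (s + 1) * p s
      ≤ ∑ i ∈ range (j + 1), p (b i) + 7 / 3 := by
    rw [b_succ, ← sum_range_add_sum_Ico _ (show b j + 1 ≤ 2 * b j + 2 by omega)]
    linarith
  have h4 : ∑ s ∈ range (b (j + 1)), (1 / 2 : ℝ) ^ (s + 1) * (1 - p s)
      = (1 - (1 / 2) ^ (b (j + 1))) - ∑ s ∈ range (b (j + 1)), (1 / 2 : ℝ) ^ (s + 1) * p s := by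
    rw [← geom_half, ← sum_sub_distrib]
    apply sum_congr rfl
    intro s _
    ring
  have h5 : (1 / 2 : ℝ) ^ (b (j + 1)) ≤ 1 / 2 := by
    have : 1 ≤ b (j + 1) := by rw [b_succ]; omega
    calc (1 / 2 : ℝ) ^ (b (j + 1)) ≤ (1 / 2) ^ 1 :=
          pow_le_pow_of_le_one (by norm_num) (by norm_num) this
      _ = 1 / 2 := by norm_num
  rw [h4, sum_sub_distrib]
  simp only [sum_const, card_range, nsmul_eq_mul, mul_one]
  push_cast
  linarith

lemma abs_Br_le {p : ℕ → ℝ} (c : ℝ) (hp : ∀ s, |1 - p s| ≤ c) (J : ℕ) :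
    |Br J p| ≤ (J + 1) * c := by
  have hc : 0 ≤ c := (abs_nonneg _).trans (hp 0)
  unfold Br
  have h1 : |∑ j ∈ range J, (1 - p (b j))| ≤ J * c := by
    refine (abs_sum_le_sum_abs _ _).trans ?_
    refine (sum_le_sum (fun j _ => hp (b j))).trans ?_
    simp
  have h2 : |∑ s ∈ range (b J), (1 / 2 : ℝ) ^ (s + 1) * (1 - p s)| ≤ c := by
    refine (abs_sum_le_sum_abs _ _).trans ?_
    have : ∀ s ∈ range (b J), |(1 / 2 : ℝ) ^ (s + 1) * (1 - p s)| ≤ (1 / 2) ^ (s + 1) * c := by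
      intro s _
      rw [abs_mul, abs_of_nonneg (by positivity : (0 : ℝ) ≤ (1 / 2) ^ (s + 1))]
      exact mul_le_mul_of_nonneg_left (hp s) (by positivity)
    refine (sum_le_sum this).trans ?_
    rw [← sum_mul, geom_half]
    have : (0 : ℝ) ≤ (1 / 2) ^ (b J) := by positivity
    nlinarith
  have h3 := abs_sub (∑ j ∈ range J, (1 - p (b j)))
    (∑ s ∈ range (b J), (1 / 2 : ℝ) ^ (s + 1) * (1 - p s))
  linarith

end Pool.MP_6f8877_nt.H8
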