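import Mathlib
import Pool.Agent.Work.MP_6f8877_nt.H8.Comb

set_option autoImplicit false

/-!
# The bound for the product on the circle `|x| = e^{-1/n}`
-/

namespace Pool.MP_6f8877_nt.H8

open Complex Finset

lemma t_div_le {t a : ℝ} (ha : 0 < a) (h : t ≤ Real.exp (-a)) : t / (1 - t) ≤ 1 / a := by
  have h1 : a + 1 ≤ Real.exp a := Real.add_one_le_exp a
  have h2 : Real.exp (-a) * Real.exp a = 1 := by rw [← Real.exp_add]; simp
  have h3 : Real.exp (-a) < 1 := by
    rw [Real.exp_lt_one_iff]; linarith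
  have h5 : 0 < Real.exp (-a) := Real.exp_pos _
  have h4 : Real.exp (-a) * (a + 1) ≤ 1 :=
    (mul_le_mul_of_nonneg_left h1 h5.le).trans h2.le
  rw [div_le_div_iff₀ (by linarith) ha]
  nlinarith

lemma norm_pow_two_pow {y : ℂ} (hy : ‖y‖ < 1) (s : ℕ) : ‖y ^ (2 ^ s)‖ < 1 := by
  rw [norm_pow]
  exact pow_lt_one₀ (norm_nonneg _) hy (by positivity)

/-- Bound (i) for the bracket. -/
lemma Br_P_le {y : ℂ} (n J : ℕ) (hn0 : 1 ≤ n) (hJ : 1 ≤ J) (hn : n < 2 ^ (b J))
    (hy : ‖y‖ ≤ Real.exp (-(1 / n))) :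
    Br J (fun s => P (y ^ (2 ^ s))) ≤ J + 2 := by
  have hn0' : (0 : ℝ) < n := by exact_mod_cast hn0
  have hy1 : ‖y‖ < 1 := by
    refine hy.trans_lt ?_
    rw [Real.exp_lt_one_iff]
    have : (0 : ℝ) < 1 / n := by positivity
    linarith
  refine Br_le ?_ ?_ n J hJ hn ?_
  rotate_left 2
  · intro s
    have h1 := P_le (norm_pow_two_pow hy1 s)
    refine h1.trans ?_
    have h2 : ‖y ^ (2 ^ s)‖ / (1 - ‖y ^ (2 ^ s)‖) ≤ 1 / (2 ^ s / n) := by
      apply t_div_le (by positivity)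
      rw [norm_pow]
      calc ‖y‖ ^ (2 ^ s) ≤ (Real.exp (-(1 / n))) ^ (2 ^ s) :=
            pow_le_pow_left₀ (norm_nonneg _) hy _
        _ = Real.exp (-(2 ^ s / n)) := by
            rw [← Real.exp_nat_mul]
            congr 1
            push_cast
            ring
    rw [one_div_div] at h2
    linarith
  · intro s
    exact P_nonneg (norm_pow_two_pow hy1 s)
  · intro s
    have h1 := P_le_two_mul (norm_pow_two_pow hy1 s)
    rw [← pow_mul, ← pow_succ] at h1
    exact h1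

/-- Bound (ii) for the bracket. -/
lemma abs_Br_P_le {y : ℂ} (hy : ‖y‖ < 1) (J : ℕ) :
    |Br J (fun s => P (y ^ (2 ^ s)))| ≤ (J + 1) * (2 * (‖y‖ / (1 - ‖y‖))) := by
  apply abs_Br_le
  intro s
  have h1 := abs_one_sub_P_le (norm_pow_two_pow hy s)
  refine h1.trans ?_
  apply mul_le_mul_of_nonneg_left _ (by norm_num)
  have h2 : ‖y ^ (2 ^ s)‖ ≤ ‖y‖ := by
    rw [norm_pow]
    have := pow_le_pow_of_le_one (norm_nonneg y) hy.le (Nat.one_le_two_pow (n := s))
    simpa using this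
  exact div_le_div₀ (norm_nonneg _) h2 (by linarith) (by linarith)

lemma hasSum_G {x : ℂ} (hx : ‖x‖ < 1) (J : ℕ) :
    HasSum (fun i : ℕ => if Even i then (1 / ((i : ℝ) + 1)) *
        Br J (fun s => P ((x ^ (i + 1)) ^ (2 ^ s))) else 0)
      (∑ j ∈ range J, (2 * U (x ^ (2 ^ (b j))) - U (x ^ (2 ^ (b j + 1))))
      - ∑ s ∈ range (b J), (1 / 2 : ℝ) ^ (s + 1) *
        (2 * U (x ^ (2 ^ s)) - U (x ^ (2 ^ (s + 1))))) := by
  have key : ∀ s : ℕ, HasSum (fun i : ℕ => if Even i then (1 / ((i : ℝ) + 1)) *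
      (1 - P ((x ^ (i + 1)) ^ (2 ^ s))) else 0)
      (2 * U (x ^ (2 ^ s)) - U (x ^ (2 ^ (s + 1)))) := by
    intro s
    have h := hasSum_Phi (norm_pow_two_pow hx s)
    rw [← pow_mul, ← pow_succ] at h
    have e : (fun i : ℕ => if Even i then (1 / ((i : ℝ) + 1)) *
        (1 - P ((x ^ (i + 1)) ^ (2 ^ s))) else 0)
        = (fun i : ℕ => if Even i then (1 / ((i : ℝ) + 1)) *
        (1 - P ((x ^ (2 ^ s)) ^ (i + 1))) else 0) := by
      funext i
      rw [← pow_mul, ← pow_mul, mul_comm (i + 1) (2 ^ s)]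
    rw [e]
    exact h
  have h1 := hasSum_sum (s := range J) (fun j _ => key (b j))
  have h2 := hasSum_sum (s := range (b J)) (fun s _ => (key s).mul_left ((1 / 2 : ℝ) ^ (s + 1)))
  have h3 := h1.sub h2
  have e : (fun i : ℕ => if Even i then (1 / ((i : ℝ) + 1)) *
        Br J (fun s => P ((x ^ (i + 1)) ^ (2 ^ s))) else 0)
      = (fun i : ℕ => (∑ j ∈ range J, if Even i then (1 / ((i : ℝ) + 1)) *
      (1 - P ((x ^ (i + 1)) ^ (2 ^ (b j)))) else 0) -
        ∑ s ∈ range (b J), (1 / 2 : ℝ) ^ (s + 1) * if Even i then (1 / ((i : ℝ) + 1)) *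
      (1 - P ((x ^ (i + 1)) ^ (2 ^ s))) else 0) := by
    funext i
    by_cases hi : Even i
    · simp only [hi, if_true]
      unfold Br
      rw [mul_sub, mul_sum, mul_sum]
      congr 1
      apply sum_congr rfl
      intro s _
      ring
    · simp only [hi, if_false]
      simp
  rw [e]
  exact h3

/-- The sum over the odd integers. -/
lemma odd_harmonic_le (n : ℕ) (hn : 1 ≤ n) :
    ∑ i ∈ range n, (if Even i then 1 / ((i : ℝ) + 1) else 0) ≤ 1 + Real.log n / 2 := by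
  have key : ∀ k : ℕ, ∑ i ∈ range (2 * k + 1), (if Even i then 1 / ((i : ℝ) + 1) else 0)
      ≤ (1 + (harmonic (2 * k + 1) : ℝ)) / 2 := by
    intro k
    induction k with
    | zero => simp [harmonic]
    | succ k ih =>
      rw [show 2 * (k + 1) + 1 = 2 * k + 1 + 1 + 1 by ring, sum_range_succ, sum_range_succ,
        harmonic_succ, harmonic_succ]
      have h1 : ¬ Even (2 * k + 1) := by simp
      have h2 : Even (2 * k + 1 + 1) := ⟨k + 1, by ring⟩
      rw [if_neg h1, if_pos h2]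
      push_cast
      have h3 : (1 : ℝ) / (2 * k + 2 + 1) ≤ (2 * k + 1 + 1 : ℝ)⁻¹ := by
        rw [← one_div]
        apply one_div_le_one_div_of_le (by positivity)
        linarith
      have h4 : (2 * k + 2 + 1 : ℝ)⁻¹ = 1 / (2 * k + 2 + 1 : ℝ) := by rw [one_div]
      rw [h4]
      linarith
  have h4 : (harmonic n : ℝ) ≤ 1 + Real.log n := harmonic_le_one_add_log n
  rcases Nat.even_or_odd' n with ⟨k, rfl | rfl⟩
  · obtain ⟨l, rfl⟩ : ∃ l, k = l + 1 := ⟨k - 1, by omega⟩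
    have h5 := key l
    rw [show 2 * (l + 1) = 2 * l + 1 + 1 by ring] at h4 ⊢
    rw [sum_range_succ, if_neg (by simp)]
    rw [harmonic_succ] at h4
    push_cast at h4 ⊢
    have h6 : (0 : ℝ) ≤ (2 * l + 1 + 1 : ℝ)⁻¹ := by positivity
    linarith
  · have h5 := key k
    linarith

lemma G_le {x : ℂ} (n J : ℕ) (hn0 : 1 ≤ n) (hJ : 1 ≤ J) (hn : n < 2 ^ (b J))
    (hx : ‖x‖ = Real.exp (-(1 / n))) :
    (∑ j ∈ range J, (2 * U (x ^ (2 ^ (b j))) - U (x ^ (2 ^ (b j + 1))))
      - ∑ s ∈ range (b J), (1 / 2 : ℝ) ^ (s + 1) *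
        (2 * U (x ^ (2 ^ s)) - U (x ^ (2 ^ (s + 1)))))
      ≤ (J + 2) * (1 + Real.log n / 2) + 4 * (J + 1) := by
  have hn0' : (0 : ℝ) < n := by exact_mod_cast hn0
  have hx1 : ‖x‖ < 1 := by
    rw [hx, Real.exp_lt_one_iff]
    have : (0 : ℝ) < 1 / n := by positivity
    linarith
  set r := ‖x‖ with hr
  -- upper bound series
  have hg1 : HasSum (fun i : ℕ => if i ∈ range n then ((J : ℝ) + 2) * (if Even i then 1 / ((i : ℝ) + 1) else 0) else 0)
      (∑ i ∈ range n, ((J : ℝ) + 2) * (if Even i then 1 / ((i : ℝ) + 1) else 0)) := by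
    have e : ∑ i ∈ range n, ((J : ℝ) + 2) * (if Even i then 1 / ((i : ℝ) + 1) else 0)
        = ∑ i ∈ range n, if i ∈ range n then ((J : ℝ) + 2) * (if Even i then 1 / ((i : ℝ) + 1) else 0) else 0 := by
      apply sum_congr rfl
      intro i hi
      simp only [hi, if_true]
    rw [e]
    apply hasSum_sum_of_ne_finset_zero
    intro i hi
    simp only [hi, if_false]
  have hg2 : HasSum (fun i : ℕ => ((J : ℝ) + 1) * (4 / n) * r ^ (i + 1))
      (((J : ℝ) + 1) * (4 / n) * (r / (1 - r))) :=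
    (hasSum_pow_succ (norm_nonneg x) hx1).mul_left _
  have hg := hg1.add hg2
  have hle := hasSum_le ?_ (hasSum_G hx1 J) hg
  · refine hle.trans ?_
    have h1 : r / (1 - r) ≤ n := by
      have := t_div_le (t := r) (a := 1 / n) (by positivity) hx.le
      simpa using this
    have h2 : ((J : ℝ) + 1) * (4 / n) * (r / (1 - r)) ≤ 4 * (J + 1) := by
      calc ((J : ℝ) + 1) * (4 / n) * (r / (1 - r)) ≤ ((J : ℝ) + 1) * (4 / n) * n :=
            mul_le_mul_of_nonneg_left h1 (by positivity)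
        _ = 4 * (J + 1) := by field_simp
    rw [← mul_sum]
    have := mul_le_mul_of_nonneg_left (odd_harmonic_le n hn0) (show (0 : ℝ) ≤ (J : ℝ) + 2 by positivity)
    linarith
  · intro i
    have hpos2 : (0 : ℝ) ≤ ((J : ℝ) + 1) * (4 / n) * r ^ (i + 1) := by positivity
    have hpos1 : (0 : ℝ) ≤ if i ∈ range n then ((J : ℝ) + 2) * (if Even i then 1 / ((i : ℝ) + 1) else 0) else 0 := by
      split_ifs <;> positivity
    by_cases hev : Even i
    · simp only [hev, if_true]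
      have hxi : ‖x ^ (i + 1)‖ < 1 := pow_norm_lt_one hx1 i
      by_cases hi : i ∈ range n
      · simp only [hi, if_true]
        have hb : Br J (fun s => P ((x ^ (i + 1)) ^ (2 ^ s))) ≤ J + 2 := by
          apply Br_P_le n J hn0 hJ hn
          rw [← hx, norm_pow]
          exact pow_norm_le hx1 i
        have : 1 / ((i : ℝ) + 1) * Br J (fun s => P ((x ^ (i + 1)) ^ (2 ^ s)))
            ≤ 1 / ((i : ℝ) + 1) * (J + 2) := mul_le_mul_of_nonneg_left hb (by positivity)
        have e : 1 / ((i : ℝ) + 1) * (J + 2) = ((J : ℝ) + 2) * (1 / ((i : ℝ) + 1)) := by ring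
        linarith
      · simp only [hi, if_false]
        rw [mem_range, not_lt] at hi
        have hi' : (n : ℝ) ≤ i := by exact_mod_cast hi
        have h1 := (abs_le.mp (abs_Br_P_le hxi J)).2
        have h2 : ‖x ^ (i + 1)‖ ≤ 1 / 2 := by
          rw [norm_pow, ← hr, hx, ← Real.exp_nat_mul]
          have h3 : ((i + 1 : ℕ) : ℝ) * -(1 / n) ≤ -1 := by
            push_cast
            have : (1 : ℝ) ≤ (i + 1) * (1 / n) := by
              rw [mul_one_div, le_div_iff₀ hn0']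
              linarith
            linarith
          calc Real.exp (((i + 1 : ℕ) : ℝ) * -(1 / n)) ≤ Real.exp (-1) := Real.exp_le_exp.mpr h3
            _ ≤ 1 / 2 := by
              have := Real.add_one_le_exp (1 : ℝ)
              rw [Real.exp_neg, inv_eq_one_div]
              apply one_div_le_one_div_of_le (by norm_num)
              linarith
        have h3 : ‖x ^ (i + 1)‖ / (1 - ‖x ^ (i + 1)‖) ≤ 2 * ‖x ^ (i + 1)‖ := by
          rw [div_le_iff₀ (by linarith)]
          nlinarith [norm_nonneg (x ^ (i + 1))]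
        have h4 : 1 / ((i : ℝ) + 1) ≤ 1 / n := by
          apply one_div_le_one_div_of_le hn0'
          linarith
        have h5 : (0 : ℝ) ≤ ‖x ^ (i + 1)‖ := norm_nonneg _
        have h6 : Br J (fun s => P ((x ^ (i + 1)) ^ (2 ^ s))) ≤ (J + 1) * (4 * ‖x ^ (i + 1)‖) := by
          refine h1.trans ?_
          apply mul_le_mul_of_nonneg_left _ (by positivity)
          linarith
        have h7 : 1 / ((i : ℝ) + 1) * Br J (fun s => P ((x ^ (i + 1)) ^ (2 ^ s)))
            ≤ 1 / ((i : ℝ) + 1) * ((J + 1) * (4 * ‖x ^ (i + 1)‖)) :=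
          mul_le_mul_of_nonneg_left h6 (by positivity)
        have h8 : 1 / ((i : ℝ) + 1) * ((J + 1) * (4 * ‖x ^ (i + 1)‖))
            ≤ 1 / n * ((J + 1) * (4 * ‖x ^ (i + 1)‖)) :=
          mul_le_mul_of_nonneg_right h4 (by positivity)
        have h9 : 1 / (n : ℝ) * ((J + 1) * (4 * ‖x ^ (i + 1)‖)) = (J + 1) * (4 / n) * r ^ (i + 1) := by
          rw [norm_pow, ← hr]
          ring
        linarith
    · simp only [hev, if_false] at hpos1 ⊢
      linarith

/-- The bound of the combination with the infinite sums. -/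
lemma comb_U_le {x : ℂ} (n J : ℕ) (hn0 : 1 ≤ n) (hJ : 1 ≤ J) (hn : n < 2 ^ (b J))
    (hx : ‖x‖ = Real.exp (-(1 / n))) :
    comb (b J) (fun s => U (x ^ (2 ^ s))) ≤ (J + 2) * (1 + Real.log n / 2) + 4 * (J + 1) + 2 := by
  have hn0' : (0 : ℝ) < n := by exact_mod_cast hn0
  rw [comb_b']
  have h1 := G_le n J hn0 hJ hn hx
  have hx1 : ‖x‖ < 1 := by
    rw [hx, Real.exp_lt_one_iff]
    have : (0 : ℝ) < 1 / n := by positivity
    linarith
  have h2 : ‖x ^ (2 ^ (b J))‖ ≤ 1 / 2 := by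
    rw [norm_pow, hx, ← Real.exp_nat_mul]
    have h3 : ((2 ^ (b J) : ℕ) : ℝ) * -(1 / n) ≤ -1 := by
      have : (1 : ℝ) ≤ ((2 ^ (b J) : ℕ) : ℝ) * (1 / n) := by
        rw [mul_one_div, le_div_iff₀ hn0', one_mul]
        exact_mod_cast hn.le
      linarith
    calc Real.exp (((2 ^ (b J) : ℕ) : ℝ) * -(1 / n)) ≤ Real.exp (-1) := Real.exp_le_exp.mpr h3
      _ ≤ 1 / 2 := by
        have := Real.add_one_le_exp (1 : ℝ)
        rw [Real.exp_neg, inv_eq_one_div]
        apply one_div_le_one_div_of_le (by norm_num)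
        linarith
  have h3 : |U (x ^ (2 ^ (b J)))| ≤ 2 := by
    refine (abs_U_le (norm_pow_two_pow hx1 _)).trans ?_
    have h5 : (0 : ℝ) ≤ ‖x ^ (2 ^ (b J))‖ := norm_nonneg _
    have h6 : 1 / 4 ≤ (1 - ‖x ^ (2 ^ (b J))‖) ^ 2 := by nlinarith
    rw [div_le_iff₀ (by linarith)]
    linarith
  have h4 : (1 - (1 / 2 : ℝ) ^ (b J)) * U (x ^ (2 ^ (b J))) ≤ 2 := by
    have h7 : (0 : ℝ) ≤ (1 / 2 : ℝ) ^ (b J) := by positivity
    have h8 : (1 / 2 : ℝ) ^ (b J) ≤ 1 := pow_le_one₀ (by norm_num) (by norm_num)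
    have h9 := abs_le.mp h3
    nlinarith
  linarith

end Pool.MP_6f8877_nt.H8
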