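import Mathlib
import Pool.Agent.Work.MP_6f8877_nt.H8.Comb

set_option autoImplicit false

/-!
# The signs and the finite product
-/

namespace Pool.MP_6f8877_nt.H8

open Finset

/-- The sign of `x^(j k)` (independent of `k`): minus one to the number of binary digits `1` of `j`
at the positions `0, 2, 6, 14, 30, …` (the numbers `2^(t+1) - 2`). -/
def eps (j : ℕ) : ℤ := (-1) ^ ((range j).filter (fun t => j.testBit (2 ^ (t + 1) - 2))).card

lemma eps_eq (j : ℕ) : eps j = 1 ∨ eps j = -1 := by
  unfold eps
  exact neg_one_pow_eq_or ℤ _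

/-- The sign of the position `s`. -/
noncomputable def del (s : ℕ) : ℤ := by
  classical
  exact if s ∈ Set.range b then -1 else 1

/-- The product over the digits. -/
noncomputable def epsB (B j : ℕ) : ℤ := ∏ s ∈ range B, if j.testBit s then del s else 1

lemma testBit_false {j B s : ℕ} (h : j < 2 ^ B) (hs : B ≤ s) : j.testBit s = false :=
  Nat.testBit_lt_two_pow (h.trans_le (Nat.pow_le_pow_right (by norm_num) hs))

lemma epsB_stable {j B B' : ℕ} (h : j < 2 ^ B) (hB : B ≤ B') : epsB B' j = epsB B j := by
  unfold epsB
  symm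
  apply prod_subset
  · intro s hs
    rw [mem_range] at *
    omega
  · intro s _ hs
    rw [mem_range, not_lt] at hs
    rw [testBit_false h hs]
    simp

lemma eps_eq_epsB {j B : ℕ} (h : j < 2 ^ B) : eps j = epsB B j := by
  classical
  have h1 : j < 2 ^ j := Nat.lt_two_pow_self
  have h2 : epsB B j = epsB (b (j + B)) j := by
    symm
    apply epsB_stable h
    have := le_b (j + B)
    omega
  rw [h2]
  unfold epsB del
  have h3 : ∀ s ∈ range (b (j + B)), (if j.testBit s then (if s ∈ Set.range b then (-1 : ℤ) else 1) else 1)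
      = if s ∈ Set.range b then (if j.testBit s then (-1 : ℤ) else 1) else 1 := by
    intro s _
    split_ifs <;> rfl
  rw [prod_congr rfl h3, ← prod_filter]
  have h4 : (range (b (j + B))).filter (· ∈ Set.range b) = (range (j + B)).image b := by
    ext s
    simp only [mem_filter, mem_range, mem_image, Set.mem_range]
    constructor
    · rintro ⟨h1, i, rfl⟩
      exact ⟨i, b_strictMono.lt_iff_lt.mp h1, rfl⟩
    · rintro ⟨i, hi, rfl⟩
      exact ⟨b_strictMono hi, i, rfl⟩
  rw [h4, prod_image (fun i _ j _ h => b_strictMono.injective h)]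
  rw [← prod_filter, prod_const]
  unfold eps
  congr 1
  apply congrArg
  ext t
  simp only [mem_filter, mem_range]
  constructor
  · rintro ⟨h5, h6⟩
    exact ⟨by omega, h6⟩
  · rintro ⟨_, h6⟩
    refine ⟨?_, h6⟩
    by_contra hle
    rw [not_lt] at hle
    have h7 : j.testBit (b t) = false := testBit_false h1 (hle.trans (le_b t))
    have h8 : j.testBit (b t) = true := h6
    rw [h7] at h8
    exact absurd h8 (by simp)

lemma epsB_add {I j : ℕ} (h : j < 2 ^ I) : epsB (I + 1) (2 ^ I + j) = del I * epsB I j := by
  unfold epsB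
  rw [prod_range_succ, Nat.testBit_two_pow_add_eq, testBit_false h le_rfl]
  rw [mul_comm]
  congr 1
  apply prod_congr rfl
  intro s hs
  rw [mem_range] at hs
  rw [Nat.testBit_two_pow_add_gt hs]

/-- The row polynomial. -/
lemma row {R : Type*} [CommRing R] (I : ℕ) (z : R) :
    ∑ j ∈ range (2 ^ I), (epsB I j : R) * z ^ j = ∏ s ∈ range I, (1 + (del s : R) * z ^ (2 ^ s)) := by
  induction I with
  | zero => simp [epsB]
  | succ I ih =>
    rw [prod_range_succ, ← ih, pow_succ, mul_two, sum_range_add]
    rw [mul_add, mul_one, sum_mul]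
    congr 1
    · apply sum_congr rfl
      intro j hj
      rw [mem_range] at hj
      rw [epsB_stable hj (Nat.le_succ I)]
    · apply sum_congr rfl
      intro j hj
      rw [mem_range] at hj
      rw [epsB_add hj, pow_add]
      push_cast
      ring

end Pool.MP_6f8877_nt.H8
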