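import Mathlib
import Pool.Agent.Work.MP_6f8877_nt.H8.Row

set_option autoImplicit false

/-!
# The signed partition counts as coefficients of a finite product
-/

namespace Pool.MP_6f8877_nt.H8

open Finset

/-- The signed count of the partitions of `n`. -/
def a (n : ℕ) : ℤ := ∑ p : Nat.Partition n, ∏ i ∈ p.parts.toFinset, eps (p.parts.count i)

/-- The finite product. -/
noncomputable def Q (N I : ℕ) : Polynomial ℤ :=
  ∏ i ∈ range N, ∏ s ∈ range I, (1 + (del s : Polynomial ℤ) * (Polynomial.X ^ (i + 1)) ^ (2 ^ s))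

lemma count_le {n : ℕ} (p : n.Partition) {i : ℕ} (hi : i ∈ p.parts) : p.parts.count i ≤ n := by
  have h1 : 0 < i := p.parts_pos hi
  have h2 : (Multiset.replicate (p.parts.count i) i).sum ≤ p.parts.sum := by
    have h3 : Multiset.replicate (p.parts.count i) i ≤ p.parts :=
      Multiset.le_count_iff_replicate_le.mp le_rfl
    obtain ⟨t, ht⟩ := Multiset.le_iff_exists_add.mp h3
    conv_rhs => rw [ht]
    rw [Multiset.sum_add]
    omega
  rw [Multiset.sum_replicate, p.parts_sum, smul_eq_mul] at h2
  nlinarith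

/-- The truncated signs. -/
noncomputable def f (N I : ℕ) : ℕ → ℕ → ℤ := fun i c => if i ≤ N ∧ c < 2 ^ I then eps c else 0

lemma coeff_genFun_f {N I n : ℕ} (hN : n ≤ N) (hI : n < 2 ^ I) :
    (Nat.Partition.genFun (f N I)).coeff n = a n := by
  rw [Nat.Partition.coeff_genFun]
  unfold a
  apply sum_congr rfl
  intro p _
  simp_rw [Finsupp.prod, Multiset.toFinsupp_support, Multiset.toFinsupp_apply]
  apply prod_congr rfl
  intro i hi
  rw [Multiset.mem_toFinset] at hi
  unfold f
  rw [if_pos ⟨(Nat.Partition.le_of_mem_parts hi).trans hN, (count_le p hi).trans_lt hI⟩]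

open scoped PowerSeries.WithPiTopology in
lemma genFun_f (N I : ℕ) : Nat.Partition.genFun (f N I) = (Q N I : PowerSeries ℤ) := by
  have h := Nat.Partition.hasProd_genFun (f N I)
  have h2 : ∀ i ∉ range N, (1 + ∑' j : ℕ, f N I (i + 1) (j + 1) •
      (PowerSeries.X : PowerSeries ℤ) ^ ((i + 1) * (j + 1))) = 1 := by
    intro i hi
    rw [mem_range, not_lt] at hi
    have : ∀ j : ℕ, f N I (i + 1) (j + 1) • (PowerSeries.X : PowerSeries ℤ) ^ ((i + 1) * (j + 1))
        = 0 := by
      intro j
      unfold f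
      rw [if_neg (by omega), zero_smul]
    simp only [this, tsum_zero, add_zero]
  have h3 := hasProd_prod_of_ne_finset_one (L := SummationFilter.unconditional ℕ) h2
  rw [h.unique h3]
  unfold Q
  have hX : Polynomial.coeToPowerSeries.ringHom (Polynomial.X : Polynomial ℤ)
      = (PowerSeries.X : PowerSeries ℤ) := Polynomial.coe_X
  rw [← Polynomial.coeToPowerSeries.ringHom_apply]
  simp only [map_prod, map_add, map_one, map_mul, map_intCast, map_pow, hX]
  apply prod_congr rfl
  intro i hi
  rw [mem_range] at hi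
  rw [← row I ((PowerSeries.X : PowerSeries ℤ) ^ (i + 1))]
  obtain ⟨M, hM⟩ : ∃ M, 2 ^ I = M + 1 := ⟨2 ^ I - 1, by
    have := Nat.one_le_two_pow (n := I); omega⟩
  rw [hM, sum_range_succ', add_comm]
  congr 1
  · rw [tsum_eq_sum (s := range M)]
    · apply sum_congr rfl
      intro j hj
      rw [mem_range] at hj
      unfold f
      rw [if_pos ⟨by omega, by omega⟩, ← pow_mul, zsmul_eq_mul,
        eps_eq_epsB (show j + 1 < 2 ^ I by omega)]
    · intro j hj
      rw [mem_range, not_lt] at hj
      unfold f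
      rw [if_neg (by omega), zero_smul]
  · simp [epsB]

lemma a_eq {N I n : ℕ} (hN : n ≤ N) (hI : n < 2 ^ I) : a n = (Q N I).coeff n := by
  rw [← coeff_genFun_f hN hI, genFun_f, Polynomial.coeff_coe]

end Pool.MP_6f8877_nt.H8
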