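import Mathlib
import Pool.Agent.Work.MP_6f8877_nt.H8.Bound
import Pool.Agent.Work.MP_6f8877_nt.H8.Coeff

set_option autoImplicit false

/-!
# Cauchy's estimate and the final bound
-/

namespace Pool.MP_6f8877_nt.H8

open Complex Finset

lemma iteratedDeriv_eval (q : Polynomial ℂ) (n : ℕ) :
    iteratedDeriv n (fun z => q.eval z) = fun z => (Polynomial.derivative^[n] q).eval z := by
  induction n with
  | zero => simp
  | succ n ih =>
    rw [iteratedDeriv_succ, ih, Function.iterate_succ_apply']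
    funext z
    exact (Polynomial.derivative^[n] q).deriv

lemma cauchy (q : Polynomial ℂ) (n : ℕ) {r M : ℝ} (hr : 0 < r)
    (hM : ∀ z : ℂ, ‖z‖ = r → ‖q.eval z‖ ≤ M) : ‖q.coeff n‖ ≤ M / r ^ n := by
  have h1 : ‖iteratedDeriv n (fun z => q.eval z) 0‖ ≤ n.factorial * M / r ^ n := by
    apply Complex.norm_iteratedDeriv_le_of_forall_mem_sphere_norm_le n hr
    · exact (Polynomial.differentiable q).diffContOnCl
    · intro z hz
      apply hM
      simpa using hz
  rw [iteratedDeriv_eval] at h1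
  simp only at h1
  rw [← Polynomial.coeff_zero_eq_eval_zero, Polynomial.coeff_iterate_derivative, zero_add,
    Nat.descFactorial_self, nsmul_eq_mul, norm_mul, Complex.norm_natCast] at h1
  have h2 : (0 : ℝ) < n.factorial := by exact_mod_cast Nat.factorial_pos n
  rw [mul_div_assoc] at h1
  exact le_of_mul_le_mul_left h1 h2

/-- The logarithm of the finite product. -/
lemma log_prod {x : ℂ} (hx : ‖x‖ < 1) (N I : ℕ) :
    Real.log ‖∏ i ∈ range N, ∏ s ∈ range I, (1 + (del s : ℂ) * (x ^ (i + 1)) ^ (2 ^ s))‖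
      = comb I (fun s => ∑ k ∈ range N, Real.log ‖1 - (x ^ (2 ^ s)) ^ (k + 1)‖) := by
  classical
  have hne : ∀ (i s : ℕ), (1 + (del s : ℂ) * (x ^ (i + 1)) ^ (2 ^ s)) ≠ 0 := by
    intro i s
    have h1 : ‖(del s : ℂ) * (x ^ (i + 1)) ^ (2 ^ s)‖ < 1 := by
      rw [norm_mul, norm_pow]
      have h2 : ‖(del s : ℂ)‖ = 1 := by
        unfold del
        split_ifs <;> simp
      rw [h2, one_mul]
      exact pow_lt_one₀ (norm_nonneg _) (pow_norm_lt_one hx i) (by positivity)
    intro h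
    have h3 : (del s : ℂ) * (x ^ (i + 1)) ^ (2 ^ s) = -1 := by
      linear_combination h
    rw [h3] at h1
    simp at h1
  rw [norm_prod, Real.log_prod]
  · simp_rw [norm_prod]
    have : ∀ i ∈ range N, Real.log (∏ s ∈ range I, ‖1 + (del s : ℂ) * (x ^ (i + 1)) ^ (2 ^ s)‖)
        = ∑ s ∈ range I, Real.log ‖1 + (del s : ℂ) * (x ^ (i + 1)) ^ (2 ^ s)‖ := by
      intro i _
      rw [Real.log_prod]
      intro s _
      exact norm_ne_zero_iff.mpr (hne i s)
    rw [sum_congr rfl this, sum_comm]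
    unfold comb
    apply sum_congr rfl
    intro s _
    by_cases hs : s ∈ Set.range b
    · simp only [hs, if_true]
      apply sum_congr rfl
      intro i _
      congr 2
      unfold del
      rw [if_pos hs, ← pow_mul, ← pow_mul, mul_comm (2 ^ s) (i + 1)]
      push_cast
      ring
    · simp only [hs, if_false]
      rw [← sum_sub_distrib]
      apply sum_congr rfl
      intro i _
      have e : (1 : ℂ) - (x ^ (2 ^ (s + 1))) ^ (i + 1)
          = (1 + (del s : ℂ) * (x ^ (i + 1)) ^ (2 ^ s)) * (1 - (x ^ (2 ^ s)) ^ (i + 1)) := by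
        unfold del
        rw [if_neg hs, pow_succ 2 s, pow_mul, ← pow_mul x (i + 1), mul_comm (i + 1), pow_mul x (2 ^ s)]
        push_cast
        ring
      rw [e, norm_mul, Real.log_mul (norm_ne_zero_iff.mpr (hne i s))]
      · ring
      · apply norm_ne_zero_iff.mpr
        exact one_sub_ne_zero' (pow_norm_lt_one (norm_pow_two_pow hx s) i)
  · intro i _
    rw [norm_prod]
    apply prod_ne_zero_iff.mpr
    intro s _
    exact norm_ne_zero_iff.mpr (hne i s)

/-- The bound of the finite product on the circle. -/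
lemma prod_le {x : ℂ} (n J N : ℕ) (hn0 : 1 ≤ n) (hJ : 1 ≤ J) (hn : n < 2 ^ (b J))
    (hx : ‖x‖ = Real.exp (-(1 / n)))
    (hN : 2 * (b J) * (‖x‖ ^ (N + 1) / (1 - ‖x‖) ^ 2) ≤ 1) :
    ‖∏ i ∈ range N, ∏ s ∈ range (b J), (1 + (del s : ℂ) * (x ^ (i + 1)) ^ (2 ^ s))‖
      ≤ Real.exp ((J + 2) * (1 + Real.log n / 2) + 4 * (J + 1) + 3) := by
  have hn0' : (0 : ℝ) < n := by exact_mod_cast hn0
  have hx1 : ‖x‖ < 1 := by
    rw [hx, Real.exp_lt_one_iff]
    have : (0 : ℝ) < 1 / n := by positivity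
    linarith
  have hx0 : 0 < ‖x‖ := by rw [hx]; exact Real.exp_pos _
  have h1 := log_prod hx1 N (b J)
  have h2 := comb_le (b J) (fun s => U (x ^ (2 ^ s)))
    (fun s => ∑ k ∈ range N, Real.log ‖1 - (x ^ (2 ^ s)) ^ (k + 1)‖)
    (‖x‖ ^ (N + 1) / (1 - ‖x‖) ^ 2) (by
      intro s
      refine (abs_U_sub_le (norm_pow_two_pow hx1 s) N).trans ?_
      have h3 : ‖x ^ (2 ^ s)‖ ≤ ‖x‖ := by
        rw [norm_pow]
        have := pow_le_pow_of_le_one (norm_nonneg x) hx1.le (Nat.one_le_two_pow (n := s))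
        simpa using this
      apply div_le_div₀ (by positivity)
      · exact pow_le_pow_left₀ (norm_nonneg _) h3 _
      · have : 0 < 1 - ‖x‖ := by linarith
        positivity
      · apply pow_le_pow_left₀ (by linarith)
        linarith)
  have h3 := comb_U_le n J hn0 hJ hn hx
  rw [← h1] at h2
  have h4 : Real.log ‖∏ i ∈ range N, ∏ s ∈ range (b J), (1 + (del s : ℂ) * (x ^ (i + 1)) ^ (2 ^ s))‖
      ≤ (J + 2) * (1 + Real.log n / 2) + 4 * (J + 1) + 3 := by linarith
  rcases (norm_nonneg (∏ i ∈ range N, ∏ s ∈ range (b J),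
    (1 + (del s : ℂ) * (x ^ (i + 1)) ^ (2 ^ s)))).eq_or_lt with h5 | h5
  · rw [← h5]; positivity
  · exact (Real.log_le_iff_le_exp h5).mp h4

/-- Main bound in terms of `J`. -/
theorem abs_a_le (n J : ℕ) (hn0 : 1 ≤ n) (hJ : 1 ≤ J) (hn : n < 2 ^ (b J)) :
    |(a n : ℝ)| ≤ Real.exp ((J + 2) * (Real.log n / 2 + 5)) := by
  have hn0' : (0 : ℝ) < n := by exact_mod_cast hn0
  set r := Real.exp (-(1 / (n : ℝ))) with hr
  have hr0 : 0 < r := Real.exp_pos _
  have hr1 : r < 1 := by
    rw [hr, Real.exp_lt_one_iff]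
    have : (0 : ℝ) < 1 / n := by positivity
    linarith
  -- choose N
  obtain ⟨N, hN1, hN2⟩ : ∃ N, n ≤ N ∧ 2 * (b J) * (r ^ (N + 1) / (1 - r) ^ 2) ≤ 1 := by
    have h1 : Filter.Tendsto (fun N : ℕ => 2 * (b J) * (r ^ (N + 1) / (1 - r) ^ 2)) Filter.atTop
        (nhds (2 * (b J) * (0 / (1 - r) ^ 2))) := by
      apply Filter.Tendsto.const_mul
      apply Filter.Tendsto.div_const
      exact (tendsto_pow_atTop_nhds_zero_of_lt_one hr0.le hr1).comp (Filter.tendsto_add_atTop_nat 1)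
    rw [zero_div, mul_zero] at h1
    have h2 := (h1.eventually_le_const (show (0 : ℝ) < 1 by norm_num)).and
      (Filter.eventually_ge_atTop n)
    obtain ⟨N, hN⟩ := h2.exists
    exact ⟨N, hN.2, hN.1⟩
  have ha := a_eq hN1 hn
  set q : Polynomial ℂ := (Q N (b J)).map (Int.castRingHom ℂ) with hq
  have hqe : ∀ z : ℂ, q.eval z
      = ∏ i ∈ range N, ∏ s ∈ range (b J), (1 + (del s : ℂ) * (z ^ (i + 1)) ^ (2 ^ s)) := by
    intro z
    rw [hq]
    unfold Q
    simp only [Polynomial.map_prod, Polynomial.map_add, Polynomial.map_one, Polynomial.map_mul,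
      Polynomial.map_intCast, Polynomial.map_pow, Polynomial.map_X, Polynomial.eval_prod,
      Polynomial.eval_add, Polynomial.eval_one, Polynomial.eval_mul, Polynomial.eval_intCast,
      Polynomial.eval_pow, Polynomial.eval_X]
  have hc := cauchy q n (M := Real.exp ((J + 2) * (1 + Real.log n / 2) + 4 * (J + 1) + 3)) hr0 (by
    intro z hz
    rw [hqe]
    apply prod_le n J N hn0 hJ hn (by rw [hz])
    rw [hz]
    exact hN2)
  have hqc : q.coeff n = ((a n : ℤ) : ℂ) := by
    rw [hq, Polynomial.coeff_map, ← ha]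
    simp
  rw [hqc, Complex.norm_intCast] at hc
  refine hc.trans ?_
  have h3 : r ^ n = Real.exp (-1) := by
    rw [hr, ← Real.exp_nat_mul]
    congr 1
    field_simp
  rw [h3, ← Real.exp_sub]
  apply Real.exp_le_exp.mpr
  have : (0 : ℝ) ≤ J := Nat.cast_nonneg J
  nlinarith

end Pool.MP_6f8877_nt.H8
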