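import Mathlib
import Pool.Agent.Work.MP_6f8877_nt.H8.Final

set_option autoImplicit false
namespace Pool.MP_6f8877_nt.H8

lemma J_spec (n : ℕ) (hn : 1 ≤ n) :
    1 ≤ Nat.log 2 (Nat.log 2 (4 * n)) ∧ n < 2 ^ (b (Nat.log 2 (Nat.log 2 (4 * n)))) := by
  set L := Nat.log 2 (4 * n) with hL
  set J := Nat.log 2 L with hJ
  have h2 : 2 ≤ L := by
    rw [hL]
    apply (Nat.le_log_iff_pow_le (by norm_num) (by omega)).mpr
    omega
  constructor
  · rw [hJ]
    apply (Nat.le_log_iff_pow_le (by norm_num) (by omega)).mpr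
    omega
  · have h3 : 4 * n < 2 ^ (L + 1) := Nat.lt_pow_succ_log_self (by norm_num) _
    have h4 : L < 2 ^ (J + 1) := Nat.lt_pow_succ_log_self (by norm_num) _
    have h5 : 2 ^ (L + 1) ≤ 2 ^ (2 ^ (J + 1)) := Nat.pow_le_pow_right (by norm_num) h4
    have h6 : 2 ^ (2 ^ (J + 1)) = 4 * 2 ^ (b J) := by
      unfold b
      have h7 : 2 ≤ 2 ^ (J + 1) := by
        have := Nat.one_le_two_pow (n := J)
        rw [pow_succ]; omega
      rw [show 4 = 2 ^ 2 by norm_num, ← pow_add]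
      congr 1
      omega
    omega

theorem main1 (n : ℕ) (hn : 1 ≤ n) :
    |(a n : ℝ)| ≤ Real.exp (((Nat.log 2 (Nat.log 2 (4 * n)) : ℕ) + 2) * (Real.log n / 2 + 5)) := by
  obtain ⟨h1, h2⟩ := J_spec n hn
  exact abs_a_le n _ hn h1 h2

lemma J_le (n : ℕ) (hn : 3 ≤ n) :
    ((Nat.log 2 (Nat.log 2 (4 * n)) : ℕ) : ℝ) ≤ 2 + 2 * Real.log (Real.log n) := by
  set L := Nat.log 2 (4 * n) with hL
  set J := Nat.log 2 L with hJ
  have hn3 : (3 : ℝ) ≤ n := by exact_mod_cast hn
  have hlog : 1 ≤ Real.log n := by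
    rw [Real.le_log_iff_exp_le (by linarith)]
    have := Real.exp_one_lt_d9
    linarith
  have h2 : 2 ≤ L := by
    rw [hL]
    apply (Nat.le_log_iff_pow_le (by norm_num) (by omega)).mpr
    omega
  have h3 : 2 ^ L ≤ 4 * n := Nat.pow_log_le_self 2 (by omega)
  have h4 : 2 ^ J ≤ L := Nat.pow_log_le_self 2 (by omega)
  have hl2 := Real.log_two_gt_d9
  have h5 : (L : ℝ) * Real.log 2 ≤ 2 * Real.log 2 + Real.log n := by
    have h6 : ((2 : ℝ) ^ L) ≤ 4 * n := by exact_mod_cast h3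
    have h7 := Real.log_le_log (by positivity) h6
    rw [Real.log_pow, Real.log_mul (by norm_num) (by positivity),
      show (4 : ℝ) = 2 ^ 2 by norm_num, Real.log_pow] at h7
    push_cast at h7
    linarith
  have h6 : (L : ℝ) ≤ 4 * Real.log n := by
    have h7 : (L : ℝ) * Real.log 2 ≤ 4 * Real.log n * Real.log 2 := by nlinarith
    exact le_of_mul_le_mul_right h7 (by linarith)
  have h7 : (J : ℝ) * Real.log 2 ≤ 2 * Real.log 2 + Real.log (Real.log n) := by
    have h8 : ((2 : ℝ) ^ J) ≤ 4 * Real.log n := by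
      have : ((2 : ℝ) ^ J) ≤ L := by exact_mod_cast h4
      linarith
    have h9 := Real.log_le_log (by positivity) h8
    rw [Real.log_pow, Real.log_mul (by norm_num) (by positivity),
      show (4 : ℝ) = 2 ^ 2 by norm_num, Real.log_pow] at h9
    push_cast at h9
    linarith
  have h8 : 0 ≤ Real.log (Real.log n) := Real.log_nonneg hlog
  nlinarith

theorem main2 (n : ℕ) (hn : 3 ≤ n) :
    |(a n : ℝ)| ≤ Real.exp ((Real.log (Real.log n) + 2) * (Real.log n + 10)) := by
  refine (main1 n (by omega)).trans ?_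
  apply Real.exp_le_exp.mpr
  have h1 := J_le n hn
  have hn3 : (3 : ℝ) ≤ n := by exact_mod_cast hn
  have h2 : 0 ≤ Real.log n := Real.log_nonneg (by linarith)
  have : (((Nat.log 2 (Nat.log 2 (4 * n)) : ℕ) : ℝ) + 2) * (Real.log n / 2 + 5)
      ≤ (4 + 2 * Real.log (Real.log n)) * (Real.log n / 2 + 5) := by
    apply mul_le_mul_of_nonneg_right _ (by linarith)
    linarith
  refine this.trans (le_of_eq ?_)
  ring

end Pool.MP_6f8877_nt.H8
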