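import Mathlib
import Pool.Agent.Work.MP_6f8877_nt.H8.Coeff

set_option autoImplicit false

/-!
# Truncated products for an arbitrary sign choice
-/

namespace Pool.MP_6f8877_nt.H8

open Finset

/-- The coefficients of the row `k`: `1, ε k 1, ε k 2, …`. -/
def rc (ε : ℕ → ℕ → ℤ) (k j : ℕ) : ℤ := if j = 0 then 1 else ε k j

/-- The signed count of the partitions of `n`. -/
def as (ε : ℕ → ℕ → ℤ) (n : ℕ) : ℤ :=
  ∑ p : Nat.Partition n, ∏ i ∈ p.parts.toFinset, ε i (p.parts.count i)

/-- The truncated product. -/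
noncomputable def QQ (ε : ℕ → ℕ → ℤ) (N L : ℕ) : Polynomial ℤ :=
  ∏ i ∈ range N, ∑ j ∈ range (L + 1), (rc ε (i + 1) j : Polynomial ℤ) * (Polynomial.X ^ (i + 1)) ^ j

/-- The truncated signs. -/
noncomputable def ff (ε : ℕ → ℕ → ℤ) (N L : ℕ) : ℕ → ℕ → ℤ :=
  fun i c => if i ≤ N ∧ c ≤ L then ε i c else 0

open scoped PowerSeries.WithPiTopology in
lemma genFun_ff (ε : ℕ → ℕ → ℤ) (N L : ℕ) :
    Nat.Partition.genFun (ff ε N L) = (QQ ε N L : PowerSeries ℤ) := by
  have h := Nat.Partition.hasProd_genFun (ff ε N L)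
  have h2 : ∀ i ∉ range N, (1 + ∑' j : ℕ, ff ε N L (i + 1) (j + 1) •
      (PowerSeries.X : PowerSeries ℤ) ^ ((i + 1) * (j + 1))) = 1 := by
    intro i hi
    rw [mem_range, not_lt] at hi
    have : ∀ j : ℕ, ff ε N L (i + 1) (j + 1) • (PowerSeries.X : PowerSeries ℤ) ^ ((i + 1) * (j + 1))
        = 0 := by
      intro j
      unfold ff
      rw [if_neg (by omega), zero_smul]
    simp only [this, tsum_zero, add_zero]
  have h3 := hasProd_prod_of_ne_finset_one (L := SummationFilter.unconditional ℕ) h2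
  rw [h.unique h3]
  unfold QQ
  have hX : Polynomial.coeToPowerSeries.ringHom (Polynomial.X : Polynomial ℤ)
      = (PowerSeries.X : PowerSeries ℤ) := Polynomial.coe_X
  rw [← Polynomial.coeToPowerSeries.ringHom_apply]
  simp only [map_prod, map_sum, map_mul, map_intCast, map_pow, hX]
  apply prod_congr rfl
  intro i hi
  rw [mem_range] at hi
  rw [sum_range_succ', add_comm]
  congr 1
  · rw [tsum_eq_sum (s := range L)]
    · apply sum_congr rfl
      intro j hj
      rw [mem_range] at hj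
      unfold ff rc
      rw [if_pos ⟨by omega, by omega⟩, ← pow_mul, zsmul_eq_mul, if_neg (by omega)]
    · intro j hj
      rw [mem_range, not_lt] at hj
      unfold ff
      rw [if_neg (by omega), zero_smul]
  · simp [rc]

lemma coeff_QQ (ε : ℕ → ℕ → ℤ) (N L n : ℕ) : (QQ ε N L).coeff n
    = ∑ p : Nat.Partition n, ∏ i ∈ p.parts.toFinset, ff ε N L i (p.parts.count i) := by
  rw [← Polynomial.coeff_coe, ← genFun_ff, Nat.Partition.coeff_genFun]
  apply sum_congr rfl
  intro p _
  simp_rw [Finsupp.prod, Multiset.toFinsupp_support, Multiset.toFinsupp_apply]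

lemma coeff_QQ_eq {ε : ℕ → ℕ → ℤ} {N L n : ℕ} (hN : n ≤ N) (hL : n ≤ L) :
    (QQ ε N L).coeff n = as ε n := by
  rw [coeff_QQ]
  unfold as
  apply sum_congr rfl
  intro p _
  apply prod_congr rfl
  intro i hi
  rw [Multiset.mem_toFinset] at hi
  unfold ff
  rw [if_pos ⟨(Nat.Partition.le_of_mem_parts hi).trans hN, (count_le p hi).trans hL⟩]

lemma abs_coeff_QQ_le {ε : ℕ → ℕ → ℤ} (hε : ∀ k j, |ε k j| ≤ 1) (N L n : ℕ) :
    |(QQ ε N L).coeff n| ≤ Fintype.card (Nat.Partition n) := by
  rw [coeff_QQ]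
  refine (abs_sum_le_sum_abs _ _).trans ?_
  have : ∀ p ∈ (univ : Finset (Nat.Partition n)),
      |∏ i ∈ p.parts.toFinset, ff ε N L i (p.parts.count i)| ≤ 1 := by
    intro p _
    rw [abs_prod]
    apply prod_le_one
    · intro i _; exact abs_nonneg _
    · intro i _
      unfold ff
      split_ifs
      · exact hε _ _
      · simp
  refine (sum_le_sum this).trans ?_
  simp

/-- Partition numbers do not grow exponentially: partial sums of `p(n) r^n` are bounded. -/
lemma sum_card_le {r : ℝ} (h0 : 0 ≤ r) (h1 : r < 1) (N : ℕ) :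
    ∑ n ∈ range N, (Fintype.card (Nat.Partition n) : ℝ) * r ^ n ≤ Real.exp (r / (1 - r) ^ 2) := by
  set ε : ℕ → ℕ → ℤ := fun _ _ => 1 with hε
  have hc : ∀ n ∈ range N, (Fintype.card (Nat.Partition n) : ℝ) = ((QQ ε N N).coeff n : ℝ) := by
    intro n hn
    rw [mem_range] at hn
    rw [coeff_QQ_eq hn.le hn.le]
    unfold as
    simp [hε]
  have hnn : ∀ n, (0 : ℝ) ≤ ((QQ ε N N).coeff n : ℝ) := by
    intro n
    rw [coeff_QQ]
    have : (0 : ℤ) ≤ ∑ p : Nat.Partition n, ∏ i ∈ p.parts.toFinset, ff ε N N i (p.parts.count i) := by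
      apply sum_nonneg
      intro p _
      apply prod_nonneg
      intro i _
      unfold ff
      split_ifs
      · simp [hε]
      · exact le_rfl
    exact_mod_cast this
  set q : Polynomial ℝ := (QQ ε N N).map (Int.castRingHom ℝ) with hq
  have hqc : ∀ n, q.coeff n = ((QQ ε N N).coeff n : ℝ) := by
    intro n; rw [hq, Polynomial.coeff_map]; simp
  have h2 : ∑ n ∈ range N, (Fintype.card (Nat.Partition n) : ℝ) * r ^ n ≤ q.eval r := by
    rw [Polynomial.eval_eq_sum_range' (n := max N (q.natDegree + 1)) (by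
      exact lt_of_lt_of_le (Nat.lt_succ_self _) (le_max_right _ _))]
    rw [sum_congr rfl (fun n hn => by rw [hc n hn, ← hqc n])]
    apply sum_le_sum_of_subset_of_nonneg
    · intro n hn
      rw [mem_range] at *
      exact lt_of_lt_of_le hn (le_max_left _ _)
    · intro n _ _
      rw [hqc]
      exact mul_nonneg (hnn n) (by positivity)
  refine h2.trans ?_
  have h3 : q.eval r = ∏ i ∈ range N, ∑ j ∈ range (N + 1), (r ^ (i + 1)) ^ j := by
    rw [hq]
    unfold QQ
    simp only [Polynomial.map_prod, Polynomial.map_sum, Polynomial.map_mul,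
      Polynomial.map_intCast, Polynomial.map_pow, Polynomial.map_X, Polynomial.eval_prod,
      Polynomial.eval_finsetSum, Polynomial.eval_mul, Polynomial.eval_intCast,
      Polynomial.eval_pow, Polynomial.eval_X]
    apply prod_congr rfl
    intro i _
    apply sum_congr rfl
    intro j _
    have : rc ε (i + 1) j = 1 := by
      unfold rc
      split_ifs <;> simp [hε]
    rw [this]
    simp
  rw [h3]
  have h4 : ∀ i ∈ range N, ∑ j ∈ range (N + 1), (r ^ (i + 1)) ^ j
      ≤ Real.exp (r ^ (i + 1) / (1 - r)) := by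
    intro i _
    have hy1 : r ^ (i + 1) < 1 := pow_lt_one₀ h0 h1 (by omega)
    have hy0 : 0 ≤ r ^ (i + 1) := by positivity
    have hy2 : r ^ (i + 1) ≤ r := by
      have := pow_le_pow_of_le_one h0 h1.le (show 1 ≤ i + 1 by omega)
      simpa using this
    calc ∑ j ∈ range (N + 1), (r ^ (i + 1)) ^ j ≤ ∑' j : ℕ, (r ^ (i + 1)) ^ j :=
          (summable_geometric_of_lt_one hy0 hy1).sum_le_tsum _ (fun _ _ => by positivity)
      _ = (1 - r ^ (i + 1))⁻¹ := tsum_geometric_of_lt_one hy0 hy1
      _ ≤ 1 + r ^ (i + 1) / (1 - r) := by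
          have h5 : (1 - r ^ (i + 1))⁻¹ = 1 + r ^ (i + 1) / (1 - r ^ (i + 1)) := by
            have : (1 - r ^ (i + 1)) ≠ 0 := by linarith
            field_simp
            ring
          rw [h5]
          have : r ^ (i + 1) / (1 - r ^ (i + 1)) ≤ r ^ (i + 1) / (1 - r) :=
            div_le_div_of_nonneg_left hy0 (by linarith) (by linarith)
          linarith
      _ ≤ _ := by
          have := Real.add_one_le_exp (r ^ (i + 1) / (1 - r))
          linarith
  refine (prod_le_prod (fun i _ => sum_nonneg (fun j _ => by positivity)) h4).trans ?_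
  rw [← Real.exp_sum]
  apply Real.exp_le_exp.mpr
  have h5 := (hasSum_pow_succ h0 h1).div_const (1 - r)
  have h6 : r / (1 - r) / (1 - r) = r / (1 - r) ^ 2 := by rw [div_div, sq]
  rw [← h6]
  apply sum_le_hasSum _ _ h5
  intro i _
  have : 0 < 1 - r := by linarith
  positivity

lemma summable_card {r : ℝ} (h0 : 0 ≤ r) (h1 : r < 1) :
    Summable (fun n : ℕ => (Fintype.card (Nat.Partition n) : ℝ) * r ^ n) :=
  summable_of_sum_range_le (fun n => by positivity) (sum_card_le h0 h1)

end Pool.MP_6f8877_nt.H8
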