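import Mathlib
import Pool.Agent.Work.MP_6f8877_nt.H8.GenCoeff

set_option autoImplicit false

/-!
# Jensen's formula for the rows
-/

namespace Pool.MP_6f8877_nt.H8

open Complex Metric Real MeromorphicOn Filter

lemma circleAverage_comp_pow (h : ℂ → ℝ) {r : ℝ} {k : ℕ} (hk : 1 ≤ k)
    (hi : CircleIntegrable h 0 (r ^ k)) :
    circleAverage (fun x => h (x ^ k)) 0 r = circleAverage h 0 (r ^ k) := by
  have hk0 : (k : ℝ) ≠ 0 := by
    have : (0 : ℝ) < k := by exact_mod_cast hk
    exact this.ne'
  unfold circleAverage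
  congr 1
  set g : ℝ → ℝ := fun θ => h (circleMap 0 (r ^ k) θ) with hg
  have e1 : ∀ θ : ℝ, h (circleMap 0 r θ ^ k) = g (k * θ) := by
    intro θ
    simp only [hg, circleMap, zero_add, mul_pow, ← Complex.exp_nat_mul]
    congr 2
    · push_cast; ring
    · push_cast; ring_nf
  have hper : Function.Periodic g (2 * π) := by
    intro θ
    simp only [hg, (periodic_circleMap 0 (r ^ k)) θ]
  have hint : IntervalIntegrable g MeasureTheory.volume 0 (2 * π) := hi
  have hall := hper.intervalIntegrable₀ (by positivity) hint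
  have e2 := hper.intervalIntegral_add_zsmul_eq (k : ℤ) 0 hall
  simp only [e1]
  rw [intervalIntegral.integral_comp_mul_left g hk0, mul_zero]
  simp only [zero_add, zsmul_eq_mul, Int.cast_natCast] at e2
  rw [e2, smul_eq_mul]
  field_simp

/-- Jensen: lower bound of the circle average by one zero. -/
lemma jensen_zero {g : ℂ → ℂ} {R : ℝ} (hR : 0 < R) (hg : AnalyticOnNhd ℂ g (closedBall 0 R))
    (g0 : g 0 = 1) {z : ℂ} (hz : ‖z‖ ≤ R) (hzero : g z = 0) {ρ : ℝ} (hρ0 : 0 < ρ) (hρ : ‖z‖ ≤ ρ) :
    Real.log (R / ρ) ≤ circleAverage (Real.log ‖g ·‖) 0 R := by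
  have hRa : |R| = R := abs_of_pos hR
  have hg' : AnalyticOnNhd ℂ g (closedBall 0 |R|) := by rwa [hRa]
  rw [hg'.circleAverage_log_norm hR.ne' (by rw [g0]; norm_num), g0]
  simp only [norm_one, Real.log_one, add_zero, zero_sub, norm_neg]
  have hz0 : z ≠ 0 := by
    rintro rfl
    rw [g0] at hzero
    norm_num at hzero
  have hznorm : 0 < ‖z‖ := norm_pos_iff.mpr hz0
  set D := divisor g (closedBall 0 |R|) with hD
  have hfin : (Function.support fun u => (D u : ℝ) * Real.log (R * ‖u‖⁻¹)).Finite := by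
    apply (D.finiteSupport (isCompact_closedBall 0 |R|)).subset
    intro u hu
    simp only [Function.mem_support, ne_eq, mul_eq_zero, not_or] at hu ⊢
    intro h
    exact hu.1 (by exact_mod_cast h)
  have hDnn : ∀ u, 0 ≤ D u := fun u => (hg'.divisor_nonneg) u
  have hnn : ∀ u, 0 ≤ (D u : ℝ) * Real.log (R * ‖u‖⁻¹) := by
    intro u
    by_cases hu : u ∈ closedBall (0 : ℂ) |R|
    · apply mul_nonneg
      · exact_mod_cast hDnn u
      · by_cases hu0 : u = 0
        · simp [hu0]
        · apply Real.log_nonneg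
          have h1 : 0 < ‖u‖ := norm_pos_iff.mpr hu0
          rw [← div_eq_mul_inv, le_div_iff₀ h1, one_mul]
          rw [hRa] at hu
          simpa using hu
    · have : D u = 0 := D.apply_eq_zero_of_notMem hu
      simp [this]
  have h1 := single_le_finsum z hfin hnn
  refine le_trans ?_ h1
  have hzmem : z ∈ closedBall (0 : ℂ) |R| := by rw [hRa]; simpa using hz
  have hDz : 1 ≤ D z := by
    have hne : D z ≠ 0 := by
      rw [hD, hg'.divisor_apply hzmem]
      have hpos : analyticOrderAt g z ≠ 0 := by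
        rw [(hg' z hzmem).analyticOrderAt_ne_zero]
        exact hzero
      have htop : analyticOrderAt g z ≠ ⊤ := by
        intro htop
        have hconn : IsPreconnected (closedBall (0 : ℂ) |R|) :=
          (convex_closedBall 0 |R|).isPreconnected
        have h3 := hg'.eqOn_zero_of_preconnected_of_eventuallyEq_zero hconn hzmem
          (analyticOrderAt_eq_top.mp htop)
        have h4 := h3 (show (0 : ℂ) ∈ closedBall 0 |R| by simp)
        rw [g0] at h4
        norm_num at h4
      obtain ⟨m, hm⟩ := ENat.ne_top_iff_exists.mp htop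
      rw [← hm] at hpos ⊢
      simp only [ENat.map_natCast, WithTop.untop₀_coe]
      have : m ≠ 0 := by
        rintro rfl
        exact hpos rfl
      exact_mod_cast this
    have := hDnn z
    omega
  have h2 : Real.log (R / ρ) ≤ Real.log (R * ‖z‖⁻¹) := by
    rw [← div_eq_mul_inv]
    apply Real.log_le_log (by positivity)
    exact div_le_div_of_nonneg_left hR.le hznorm hρ
  have h3 : 0 ≤ Real.log (R * ‖z‖⁻¹) := by
    apply Real.log_nonneg
    rw [← div_eq_mul_inv, le_div_iff₀ hznorm, one_mul]
    exact hz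
  have h4 : (1 : ℝ) ≤ (D z : ℝ) := by exact_mod_cast hDz
  nlinarith

/-- Jensen: the circle average is nonnegative. -/
lemma jensen_nonneg {g : ℂ → ℂ} {R : ℝ} (hR : 0 < R) (hg : AnalyticOnNhd ℂ g (closedBall 0 R))
    (g0 : g 0 = 1) : 0 ≤ circleAverage (Real.log ‖g ·‖) 0 R := by
  by_cases h : ∃ z, ‖z‖ ≤ R ∧ g z = 0
  · obtain ⟨z, hz, hzero⟩ := h
    have := jensen_zero hR hg g0 hz hzero hR hz
    rwa [div_self hR.ne', Real.log_one] at this
  · push Not at h
    have hRa : |R| = R := abs_of_pos hR
    rw [AnalyticOnNhd.circleAverage_log_norm_of_ne_zero (by rwa [hRa])]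
    · rw [g0]; simp
    · intro u hu
      rw [hRa] at hu
      exact h u (by simpa using hu)

/-- The average of the logarithm of a product. -/
lemma circleAverage_log_prod {R : ℝ} (hR : 0 < R) (N : ℕ) (g : ℕ → ℂ → ℂ)
    (hg : ∀ i, AnalyticOnNhd ℂ (g i) (closedBall 0 R)) (g0 : ∀ i, g i 0 = 1) :
    circleAverage (fun x => Real.log ‖∏ i ∈ Finset.range N, g i x‖) 0 R
      = ∑ i ∈ Finset.range N, circleAverage (Real.log ‖g i ·‖) 0 R := by
  have hRa : |R| = R := abs_of_pos hR
  rw [← circleAverage_fun_sum]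
  · apply circleAverage_congr_codiscreteWithin _ hR.ne'
    rw [hRa]
    have h1 : ∀ i ∈ Finset.range N, ∀ᶠ x in codiscreteWithin (sphere (0 : ℂ) R), g i x ≠ 0 := by
      intro i _
      have h2 : (g i) ⁻¹' {0}ᶜ ∈ codiscreteWithin (closedBall (0 : ℂ) R) :=
        (hg i).preimage_zero_mem_codiscreteWithin (x := 0) (by rw [g0]; norm_num)
          (by simp [hR.le]) ((convex_closedBall 0 R).isConnected ⟨0, by simp [hR.le]⟩)
      exact codiscreteWithin_mono sphere_subset_closedBall h2
    have h3 := (Finset.range N).eventually_all.mpr h1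
    filter_upwards [h3] with x hx
    rw [norm_prod, Real.log_prod]
    intro i hi
    exact norm_ne_zero_iff.mpr (hx i hi)
  · intro i _
    apply MeromorphicOn.circleIntegrable_log_norm
    rw [hRa]
    exact ((hg i).mono sphere_subset_closedBall).meromorphicOn

end Pool.MP_6f8877_nt.H8
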