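import Mathlib
import Pool.Agent.Work.MP_6f8877_nt.H8.Jensen

set_option autoImplicit false

/-!
# Zeros of the rows
-/

namespace Pool.MP_6f8877_nt.H8

open Complex Metric Real MeromorphicOn Filter

/-- The row `k` as a function on the unit disc. -/
noncomputable def rowFun (ε : ℕ → ℕ → ℤ) (k : ℕ) (z : ℂ) : ℂ := ∑' j : ℕ, (rc ε k j : ℂ) * z ^ j

lemma norm_rc_le {ε : ℕ → ℕ → ℤ} (hε : ∀ k j, |ε k j| ≤ 1) (k j : ℕ) : ‖(rc ε k j : ℂ)‖ ≤ 1 := by
  rw [Complex.norm_intCast]
  have : |rc ε k j| ≤ 1 := by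
    unfold rc
    split_ifs
    · simp
    · exact hε k j
  exact_mod_cast this

lemma hasSum_row {ε : ℕ → ℕ → ℤ} (hε : ∀ k j, |ε k j| ≤ 1) (k : ℕ) {z : ℂ} (hz : ‖z‖ < 1) :
    HasSum (fun j : ℕ => (rc ε k j : ℂ) * z ^ j) (rowFun ε k z) := by
  apply Summable.hasSum
  apply Summable.of_norm_bounded (g := fun j : ℕ => ‖z‖ ^ j)
    (summable_geometric_of_lt_one (norm_nonneg _) hz)
  intro j
  rw [norm_mul, norm_pow]
  have := norm_rc_le hε k j
  have h2 : (0 : ℝ) ≤ ‖z‖ ^ j := by positivity
  nlinarith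

lemma analytic_row {ε : ℕ → ℕ → ℤ} (hε : ∀ k j, |ε k j| ≤ 1) (k : ℕ) {R : ℝ} (hR : R < 1) :
    AnalyticOnNhd ℂ (rowFun ε k) (closedBall 0 R) := by
  by_cases hR0 : R < 0
  · intro x hx
    rw [closedBall_eq_empty.mpr hR0] at hx
    exact absurd hx (by simp)
  push Not at hR0
  set R' := (R + 1) / 2 with hR'
  have hR1 : R < R' := by rw [hR']; linarith
  have hR2 : R' < 1 := by rw [hR']; linarith
  have h1 : DifferentiableOn ℂ (rowFun ε k) (ball 0 R') := by
    apply differentiableOn_tsum_of_summable_norm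
      (summable_geometric_of_lt_one (by linarith : (0 : ℝ) ≤ R') hR2)
    · intro j
      fun_prop
    · exact isOpen_ball
    · intro j w hw
      rw [norm_mul, norm_pow]
      have h2 := norm_rc_le hε k j
      have h3 : ‖w‖ ≤ R' := by
        have := mem_ball_zero_iff.mp hw
        exact this.le
      have h4 : ‖w‖ ^ j ≤ R' ^ j := pow_le_pow_left₀ (norm_nonneg _) h3 j
      have h5 : (0 : ℝ) ≤ ‖w‖ ^ j := by positivity
      nlinarith
  exact (h1.analyticOnNhd isOpen_ball).mono (closedBall_subset_ball hR1)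

lemma row_zero {ε : ℕ → ℕ → ℤ} (k : ℕ) : rowFun ε k 0 = 1 := by
  unfold rowFun
  rw [tsum_eq_single 0]
  · simp [rc]
  · intro j hj
    simp [hj]

lemma summable_tail {r : ℝ} (h0 : 0 ≤ r) (h1 : r < 1) (N : ℕ) :
    Summable (fun n : ℕ => (Fintype.card (Nat.Partition (n + N)) : ℝ) * r ^ (n + N)) :=
  (summable_nat_add_iff N).mpr (summable_card h0 h1)

/-- Bound for the truncated products. -/
lemma norm_eval_QQ_le {ε : ℕ → ℕ → ℤ} (hε : ∀ k j, |ε k j| ≤ 1) {N L : ℕ} (hL : N ≤ L) {x : ℂ}
    (hx : ‖x‖ < 1) :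
    ‖((QQ ε N L).map (Int.castRingHom ℂ)).eval x‖ ≤ ∑ n ∈ Finset.range N, |(as ε n : ℝ)| * ‖x‖ ^ n
      + ∑' n : ℕ, (Fintype.card (Nat.Partition (n + N)) : ℝ) * ‖x‖ ^ (n + N) := by
  set q : Polynomial ℂ := (QQ ε N L).map (Int.castRingHom ℂ) with hq
  have hqc : ∀ n, q.coeff n = ((QQ ε N L).coeff n : ℂ) := by
    intro n; rw [hq, Polynomial.coeff_map]; simp
  set D := q.natDegree + 1 with hD
  rw [Polynomial.eval_eq_sum_range' (n := N + D) (by omega), Finset.sum_range_add]
  refine (norm_add_le _ _).trans (add_le_add ?_ ?_)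
  · refine (norm_sum_le _ _).trans (Finset.sum_le_sum ?_)
    intro n hn
    rw [Finset.mem_range] at hn
    rw [hqc, coeff_QQ_eq hn.le (hn.le.trans hL), norm_mul, norm_pow, Complex.norm_intCast]
  · refine (norm_sum_le _ _).trans ?_
    have h1 : ∀ n ∈ Finset.range D, ‖q.coeff (N + n) * x ^ (N + n)‖
        ≤ (Fintype.card (Nat.Partition (n + N)) : ℝ) * ‖x‖ ^ (n + N) := by
      intro n _
      rw [hqc, norm_mul, norm_pow, Complex.norm_intCast, add_comm N n]
      apply mul_le_mul_of_nonneg_right _ (by positivity)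
      have := abs_coeff_QQ_le hε N L (n + N)
      exact_mod_cast this
    refine (Finset.sum_le_sum h1).trans ?_
    exact (summable_tail (norm_nonneg x) hx N).sum_le_tsum _ (fun _ _ => by positivity)

/-- Bound for the product of the first `N` rows. -/
lemma norm_prod_row_le {ε : ℕ → ℕ → ℤ} (hε : ∀ k j, |ε k j| ≤ 1) (N : ℕ) {x : ℂ}
    (hx : ‖x‖ < 1) :
    ‖∏ i ∈ Finset.range N, rowFun ε (i + 1) (x ^ (i + 1))‖
      ≤ ∑ n ∈ Finset.range N, |(as ε n : ℝ)| * ‖x‖ ^ n
      + ∑' n : ℕ, (Fintype.card (Nat.Partition (n + N)) : ℝ) * ‖x‖ ^ (n + N) := by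
  have h1 : Tendsto (fun L : ℕ => ((QQ ε N L).map (Int.castRingHom ℂ)).eval x) atTop
      (nhds (∏ i ∈ Finset.range N, rowFun ε (i + 1) (x ^ (i + 1)))) := by
    have e : ∀ L : ℕ, ((QQ ε N L).map (Int.castRingHom ℂ)).eval x
        = ∏ i ∈ Finset.range N, ∑ j ∈ Finset.range (L + 1), (rc ε (i + 1) j : ℂ) * (x ^ (i + 1)) ^ j := by
      intro L
      unfold QQ
      simp only [Polynomial.map_prod, Polynomial.map_sum, Polynomial.map_mul,
        Polynomial.map_intCast, Polynomial.map_pow, Polynomial.map_X, Polynomial.eval_prod,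
        Polynomial.eval_finsetSum, Polynomial.eval_mul, Polynomial.eval_intCast,
        Polynomial.eval_pow, Polynomial.eval_X]
    simp only [e]
    apply tendsto_finsetProd
    intro i _
    have h2 := (hasSum_row hε (i + 1) (pow_norm_lt_one hx i)).tendsto_sum_nat
    exact h2.comp (tendsto_add_atTop_nat 1)
  refine le_of_tendsto h1.norm ?_
  filter_upwards [eventually_ge_atTop N] with L hL
  exact norm_eval_QQ_le hε hL hx

/-- The main inequality: few rows have a zero in `|z| ≤ ρ`. -/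
theorem card_bad_le {ε : ℕ → ℕ → ℤ} (hε : ∀ k j, |ε k j| ≤ 1) {r ρ M : ℝ} (hr0 : 0 < r)
    (hr : r < 1) (hρ0 : 0 < ρ) (K : ℕ) (hρ : ρ ≤ r ^ K)
    (hM : ∀ N : ℕ, ∑ n ∈ Finset.range N, |(as ε n : ℝ)| * r ^ n ≤ M) (s : Finset ℕ)
    (hs : ∀ i ∈ s, i < K ∧ ∃ z : ℂ, ‖z‖ ≤ ρ ∧ rowFun ε (i + 1) z = 0) :
    (s.card : ℝ) * Real.log (r ^ K / ρ) ≤ Real.log M := by
  -- lower bound of the sum of the averages
  have hlow : ∀ N, K ≤ N → (s.card : ℝ) * Real.log (r ^ K / ρ)
      ≤ ∑ i ∈ Finset.range N, circleAverage (Real.log ‖rowFun ε (i + 1) ·‖) 0 (r ^ (i + 1)) := by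
    intro N hN
    have hsub : s ⊆ Finset.range N := by
      intro i hi
      rw [Finset.mem_range]
      exact lt_of_lt_of_le (hs i hi).1 hN
    have hRlt : ∀ i : ℕ, r ^ (i + 1) < 1 := fun i => pow_lt_one₀ hr0.le hr (by omega)
    calc (s.card : ℝ) * Real.log (r ^ K / ρ) = ∑ i ∈ s, Real.log (r ^ K / ρ) := by
          rw [Finset.sum_const, nsmul_eq_mul]
      _ ≤ ∑ i ∈ s, circleAverage (Real.log ‖rowFun ε (i + 1) ·‖) 0 (r ^ (i + 1)) := by
          apply Finset.sum_le_sum
          intro i hi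
          obtain ⟨hiK, z, hz, hzero⟩ := hs i hi
          have hle : r ^ K ≤ r ^ (i + 1) := pow_le_pow_of_le_one hr0.le hr.le hiK
          have h1 := jensen_zero (by positivity) (analytic_row hε (i + 1) (hRlt i)) (row_zero (i + 1))
            (hz.trans (hρ.trans hle)) hzero hρ0 hz
          refine le_trans ?_ h1
          apply Real.log_le_log (by positivity)
          exact div_le_div_of_nonneg_right hle hρ0.le
      _ ≤ ∑ i ∈ Finset.range N, circleAverage (Real.log ‖rowFun ε (i + 1) ·‖) 0 (r ^ (i + 1)) := by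
          apply Finset.sum_le_sum_of_subset_of_nonneg hsub
          intro i _ _
          exact jensen_nonneg (by positivity) (analytic_row hε (i + 1) (hRlt i)) (row_zero (i + 1))
  -- upper bound
  have hup : ∀ N, 1 ≤ N → ∑ i ∈ Finset.range N,
      circleAverage (Real.log ‖rowFun ε (i + 1) ·‖) 0 (r ^ (i + 1))
      ≤ Real.log (M + ∑' n : ℕ, (Fintype.card (Nat.Partition (n + N)) : ℝ) * r ^ (n + N)) := by
    intro N hN
    set T := ∑' n : ℕ, (Fintype.card (Nat.Partition (n + N)) : ℝ) * r ^ (n + N) with hT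
    have hT0 : 0 ≤ T := tsum_nonneg (fun n => by positivity)
    have hM1 : 1 ≤ M := by
      have := hM 1
      simp only [Finset.sum_range_one, pow_zero, mul_one] at this
      have h0 : as ε 0 = 1 := by
        unfold as
        simp
      rw [h0] at this
      simpa using this
    have hball : ∀ i : ℕ, AnalyticOnNhd ℂ (fun x : ℂ => rowFun ε (i + 1) (x ^ (i + 1)))
        (closedBall 0 r) := by
      intro i
      have h1 : AnalyticOnNhd ℂ (fun x : ℂ => x ^ (i + 1)) (closedBall 0 r) := by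
        intro x _
        fun_prop
      apply (analytic_row hε (i + 1) hr).comp h1
      intro x hx
      simp only [mem_closedBall, dist_zero_right] at hx ⊢
      rw [norm_pow]
      calc ‖x‖ ^ (i + 1) ≤ ‖x‖ ^ 1 :=
            pow_le_pow_of_le_one (norm_nonneg _) (hx.trans hr.le) (by omega)
        _ ≤ r := by simpa using hx
    have h2 : ∀ i ∈ Finset.range N,
        circleAverage (Real.log ‖rowFun ε (i + 1) ·‖) 0 (r ^ (i + 1))
        = circleAverage (fun x => Real.log ‖rowFun ε (i + 1) (x ^ (i + 1))‖) 0 r := by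
      intro i _
      symm
      apply circleAverage_comp_pow (fun x => Real.log ‖rowFun ε (i + 1) x‖) (by omega)
      apply MeromorphicOn.circleIntegrable_log_norm
      apply (AnalyticOnNhd.mono (analytic_row hε (i + 1) (R := r ^ (i + 1))
        (pow_lt_one₀ hr0.le hr (by omega))) _).meromorphicOn
      rw [abs_of_pos (by positivity)]
      exact sphere_subset_closedBall
    rw [Finset.sum_congr rfl h2]
    rw [← circleAverage_log_prod hr0 N (fun i x => rowFun ε (i + 1) (x ^ (i + 1))) hball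
      (fun i => by simp [row_zero])]
    apply circleAverage_mono_on_of_le_circle
    · apply MeromorphicOn.circleIntegrable_log_norm
      rw [abs_of_pos hr0]
      have h3 : AnalyticOnNhd ℂ (fun x : ℂ => ∏ i ∈ Finset.range N,
          rowFun ε (i + 1) (x ^ (i + 1))) (closedBall 0 r) := by
        intro x hx
        apply Finset.analyticAt_fun_prod
        intro i _
        exact hball i x hx
      exact (h3.mono sphere_subset_closedBall).meromorphicOn
    · intro x hx
      rw [abs_of_pos hr0] at hx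
      have hxn : ‖x‖ = r := by simpa using hx
      have h4 := norm_prod_row_le hε N (x := x) (by rw [hxn]; exact hr)
      rw [hxn] at h4
      have h5 : ‖∏ i ∈ Finset.range N, rowFun ε (i + 1) (x ^ (i + 1))‖ ≤ M + T := by
        have := hM N
        linarith
      rcases (norm_nonneg (∏ i ∈ Finset.range N, rowFun ε (i + 1) (x ^ (i + 1)))).eq_or_lt
        with h6 | h6
      · rw [← h6, Real.log_zero]
        exact Real.log_nonneg (by linarith)
      · exact Real.log_le_log h6 h5
  -- limit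
  have hM1 : 1 ≤ M := by
    have := hM 1
    simp only [Finset.sum_range_one, pow_zero, mul_one] at this
    have h0 : as ε 0 = 1 := by
      unfold as
      simp
    rw [h0] at this
    simpa using this
  have hlim : Tendsto (fun N : ℕ => Real.log (M + ∑' n : ℕ,
      (Fintype.card (Nat.Partition (n + N)) : ℝ) * r ^ (n + N))) atTop (nhds (Real.log (M + 0))) := by
    apply Tendsto.log
    · apply Tendsto.const_add
      exact tendsto_sum_nat_add (fun n => (Fintype.card (Nat.Partition n) : ℝ) * r ^ n)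
    · linarith
  rw [add_zero] at hlim
  apply ge_of_tendsto hlim
  filter_upwards [eventually_ge_atTop (max K 1)] with N hN
  exact (hlow N (le_trans (le_max_left _ _) hN)).trans (hup N (le_trans (le_max_right _ _) hN))

end Pool.MP_6f8877_nt.H8
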