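import Mathlib
import Pool.Agent.Work.MP_6f8877_nt.H8.Poisson

set_option autoImplicit false

/-!
# The function `λ(x) = ∑_{m odd} log |(1+x^m)/(1-x^m)|`
-/

namespace Pool.MP_6f8877_nt.H8

open Complex Finset

/-- `log |(1-y)/(1+y)|`. -/
noncomputable def Psi (y : ℂ) : ℝ := Real.log ‖1 - y‖ - Real.log ‖1 + y‖

lemma Psi_neg (y : ℂ) : Psi (-y) = - Psi y := by
  unfold Psi
  rw [sub_neg_eq_add, ← sub_eq_add_neg]
  ring

lemma abs_Psi_le {y : ℂ} (hy : ‖y‖ < 1) : |Psi y| ≤ 2 * (‖y‖ / (1 - ‖y‖)) := by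
  unfold Psi
  have h1 := abs_log_norm_one_sub_le hy
  have h2 := abs_log_norm_one_sub_le (w := -y) (by simpa using hy)
  rw [sub_neg_eq_add, norm_neg] at h2
  have := abs_sub (Real.log ‖1 - y‖) (Real.log ‖1 + y‖)
  linarith

/-- The series of `-Psi`. -/
lemma hasSum_Psi {y : ℂ} (hy : ‖y‖ < 1) :
    HasSum (fun i : ℕ => 2 * ((y ^ (2 * i + 1)).re / (2 * i + 1))) (- Psi y) := by
  have h1 := hasSum_log_norm hy
  have h2 := hasSum_log_norm (w := -y) (by simpa using hy)
  rw [sub_neg_eq_add] at h2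
  have h3 := h2.sub h1
  have e : Real.log ‖1 + y‖ - Real.log ‖1 - y‖ = - Psi y := by unfold Psi; ring
  rw [e] at h3
  -- restrict to even indices
  have hinj : Function.Injective (fun i : ℕ => 2 * i) := by
    intro a b h
    simp only at h
    omega
  rw [← hinj.hasSum_iff] at h3
  · have e2 : ((fun m : ℕ => -(((-y) ^ (m + 1)).re / ((m : ℝ) + 1)) - -((y ^ (m + 1)).re / ((m : ℝ) + 1)))
        ∘ fun i : ℕ => 2 * i) = fun i : ℕ => 2 * ((y ^ (2 * i + 1)).re / (2 * i + 1)) := by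
      funext i
      simp only [Function.comp]
      have : (-y) ^ (2 * i + 1) = -(y ^ (2 * i + 1)) := by
        rw [Odd.neg_pow ⟨i, rfl⟩]
      rw [this]
      push_cast
      simp only [Complex.neg_re]
      ring
    rw [e2] at h3
    exact h3
  · intro m hm
    have hodd : Even (m + 1) := by
      by_contra h
      rw [Nat.not_even_iff_odd] at h
      obtain ⟨k, hk⟩ := h
      exact hm ⟨k, by simp only; omega⟩
    rw [hodd.neg_pow]
    ring

lemma norm_pow_odd_le {x : ℂ} (hx : ‖x‖ < 1) (j : ℕ) : ‖x ^ (2 * j + 1)‖ ≤ ‖x‖ ^ (j + 1) := by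
  rw [norm_pow]
  exact pow_le_pow_of_le_one (norm_nonneg _) hx.le (by omega)

lemma Psi_term_le {x : ℂ} (hx : ‖x‖ < 1) (j : ℕ) :
    |Psi (x ^ (2 * j + 1))| ≤ 2 * (‖x‖ ^ (j + 1) / (1 - ‖x‖)) := by
  have hlt : ‖x ^ (2 * j + 1)‖ < 1 := pow_norm_lt_one hx (2 * j)
  refine (abs_Psi_le hlt).trans ?_
  have h1 := norm_pow_odd_le hx j
  have h2 : ‖x ^ (2 * j + 1)‖ ≤ ‖x‖ := by
    rw [norm_pow]; exact pow_norm_le hx (2 * j)
  have h3 : 0 < 1 - ‖x‖ := by linarith
  apply mul_le_mul_of_nonneg_left _ (by norm_num)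
  exact div_le_div₀ (by positivity) h1 h3 (by linarith)

lemma summable_Psi {x : ℂ} (hx : ‖x‖ < 1) : Summable (fun j : ℕ => Psi (x ^ (2 * j + 1))) := by
  apply Summable.of_norm_bounded (g := fun j : ℕ => 2 * (‖x‖ ^ (j + 1) / (1 - ‖x‖)))
  · exact ((summable_pow_succ (norm_nonneg x) hx).div_const _).mul_left 2
  · intro j
    rw [Real.norm_eq_abs]
    exact Psi_term_le hx j

/-- `λ(x)`. -/
noncomputable def lam (x : ℂ) : ℝ := - ∑' j : ℕ, Psi (x ^ (2 * j + 1))

lemma hasSum_lam {x : ℂ} (hx : ‖x‖ < 1) :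
    HasSum (fun j : ℕ => Psi (x ^ (2 * j + 1))) (- lam x) := by
  unfold lam
  rw [neg_neg]
  exact (summable_Psi hx).hasSum

lemma abs_lam_le {x : ℂ} (hx : ‖x‖ < 1) : |lam x| ≤ 2 * (‖x‖ / (1 - ‖x‖) ^ 2) := by
  have h := ((hasSum_pow_succ (norm_nonneg x) hx).div_const (1 - ‖x‖)).mul_left 2
  have e : 2 * (‖x‖ / (1 - ‖x‖) / (1 - ‖x‖)) = 2 * (‖x‖ / (1 - ‖x‖) ^ 2) := by
    rw [div_div, sq]
  rw [← e]
  unfold lam
  rw [abs_neg, ← Real.norm_eq_abs]
  apply tsum_of_norm_bounded h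
  intro j
  rw [Real.norm_eq_abs]
  exact Psi_term_le hx j

lemma lam_neg (x : ℂ) : lam (-x) = - lam x := by
  unfold lam
  have : ∀ j : ℕ, Psi ((-x) ^ (2 * j + 1)) = - Psi (x ^ (2 * j + 1)) := by
    intro j
    rw [Odd.neg_pow ⟨j, rfl⟩, Psi_neg]
  simp only [this, tsum_neg]

/-- `ℓ(σ) = ∑_{k odd} 1/(k sinh(kσ))`. -/
noncomputable def ell (σ : ℝ) : ℝ := ∑' i : ℕ, 1 / ((2 * i + 1 : ℝ) * Real.sinh ((2 * i + 1) * σ))

/-- `κ = ∑_{k odd} 1/k²`. -/
noncomputable def kap : ℝ := ∑' i : ℕ, 1 / ((2 * i + 1 : ℝ) ^ 2)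

lemma summable_kap : Summable (fun i : ℕ => 1 / ((2 * i + 1 : ℝ) ^ 2)) := by
  have h := (summable_nat_add_iff 1).mpr (Real.summable_one_div_nat_pow.mpr (show 1 < 2 by norm_num))
  apply Summable.of_nonneg_of_le (fun i => by positivity) _ h
  intro i
  push_cast
  apply one_div_le_one_div_of_le (by positivity)
  apply pow_le_pow_left₀ (by positivity)
  have : (0 : ℝ) ≤ i := Nat.cast_nonneg i
  linarith

lemma one_le_kap : 1 ≤ kap := by
  have := summable_kap.sum_le_tsum {0} (fun _ _ => by positivity)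
  unfold kap
  simpa using this

lemma ell_term_le {σ : ℝ} (hσ : 0 < σ) (i : ℕ) :
    1 / ((2 * i + 1 : ℝ) * Real.sinh ((2 * i + 1) * σ)) ≤ 1 / ((2 * i + 1 : ℝ) ^ 2) / σ := by
  rw [div_div]
  apply one_div_le_one_div_of_le (by positivity)
  have h1 : (2 * i + 1 : ℝ) * σ ≤ Real.sinh ((2 * i + 1) * σ) :=
    Real.self_le_sinh_iff.mpr (by positivity)
  rw [sq, mul_assoc]
  exact mul_le_mul_of_nonneg_left h1 (by positivity)

lemma ell_term_nonneg {σ : ℝ} (hσ : 0 < σ) (i : ℕ) :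
    0 ≤ 1 / ((2 * i + 1 : ℝ) * Real.sinh ((2 * i + 1) * σ)) := by
  have : 0 < Real.sinh ((2 * i + 1) * σ) := Real.sinh_pos_iff.mpr (by positivity)
  positivity

lemma summable_ell {σ : ℝ} (hσ : 0 < σ) :
    Summable (fun i : ℕ => 1 / ((2 * i + 1 : ℝ) * Real.sinh ((2 * i + 1) * σ))) :=
  Summable.of_nonneg_of_le (ell_term_nonneg hσ) (ell_term_le hσ) (summable_kap.div_const σ)

lemma ell_nonneg {σ : ℝ} (hσ : 0 < σ) : 0 ≤ ell σ := tsum_nonneg (ell_term_nonneg hσ)

lemma ell_le {σ : ℝ} (hσ : 0 < σ) : ell σ ≤ kap / σ := by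
  unfold ell kap
  rw [← tsum_div_const]
  exact (summable_ell hσ).tsum_le_tsum (ell_term_le hσ) (summable_kap.div_const σ)

/-- `ℓ` is the value of `λ` at real points. -/
lemma lam_real {σ : ℝ} (hσ : 0 < σ) : lam ((Real.exp (-σ) : ℝ) : ℂ) = ell σ := by
  set r := Real.exp (-σ) with hr
  have hr0 : 0 < r := Real.exp_pos _
  have hr1 : r < 1 := by rw [hr, Real.exp_lt_one_iff]; linarith
  have hrn : ‖((r : ℝ) : ℂ)‖ = r := by rw [Complex.norm_real, Real.norm_eq_abs, abs_of_pos hr0]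
  have hx : ‖((r : ℝ) : ℂ)‖ < 1 := by rw [hrn]; exact hr1
  set f : ℕ × ℕ → ℝ := fun p => 2 * (r ^ ((2 * p.1 + 1) * (2 * p.2 + 1)) / (2 * (p.2 : ℝ) + 1))
    with hf
  have hfnn : ∀ p, 0 ≤ f p := fun p => by simp only [hf]; positivity
  have hsum : Summable f := by
    apply Summable.of_nonneg_of_le hfnn (f := fun p : ℕ × ℕ => 2 * (r ^ p.1 * r ^ p.2))
    · rintro ⟨j, i⟩
      simp only [hf]
      apply mul_le_mul_of_nonneg_left _ (by norm_num)
      have h4 : (1 : ℝ) ≤ 2 * (i : ℝ) + 1 := by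
        have : (0 : ℝ) ≤ i := Nat.cast_nonneg i
        linarith
      calc r ^ ((2 * j + 1) * (2 * i + 1)) / (2 * (i : ℝ) + 1)
          ≤ r ^ ((2 * j + 1) * (2 * i + 1)) := div_le_self (by positivity) h4
        _ ≤ r ^ (j + i) := by
            apply pow_le_pow_of_le_one hr0.le hr1.le
            nlinarith [Nat.zero_le (j * i)]
        _ = _ := by rw [pow_add]
    · exact ((summable_geometric_of_lt_one hr0.le hr1).mul_of_nonneg
        (summable_geometric_of_lt_one hr0.le hr1) (fun _ => by positivity)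
        (fun _ => by positivity)).mul_left 2
  have hs := hsum.hasSum
  have hrow : HasSum (fun j : ℕ => - Psi ((r : ℂ) ^ (2 * j + 1))) (∑' p, f p) := by
    refine hs.prod_fiberwise (g := fun j : ℕ => - Psi ((r : ℂ) ^ (2 * j + 1))) (fun j => ?_)
    have h := hasSum_Psi (y := (r : ℂ) ^ (2 * j + 1)) (pow_norm_lt_one hx (2 * j))
    have e : (fun i : ℕ => f (j, i))
        = fun i : ℕ => 2 * ((((r : ℂ) ^ (2 * j + 1)) ^ (2 * i + 1)).re / (2 * i + 1)) := by
      funext i
      simp only [hf]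
      rw [← pow_mul, ← Complex.ofReal_pow, Complex.ofReal_re]
    rw [e]
    exact h
  have h1 : lam (r : ℂ) = ∑' p, f p := by
    have := (hasSum_lam hx).neg
    rw [neg_neg] at this
    exact this.unique hrow
  rw [h1]
  have hs' : HasSum (fun p : ℕ × ℕ => f p.swap) (∑' p, f p) :=
    (Equiv.prodComm ℕ ℕ).hasSum_iff.mpr hs
  have h2 := hs'.prod_fiberwise (g := fun i : ℕ =>
    1 / ((2 * i + 1 : ℝ) * Real.sinh ((2 * i + 1) * σ))) ?_
  · exact h2.tsum_eq.symm
  · intro i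
    -- geometric series over j
    set t := r ^ (2 * i + 1) with ht
    have ht0 : 0 < t := by positivity
    have ht1 : t < 1 := pow_lt_one₀ hr0.le hr1 (by omega)
    have ht2 : t ^ 2 < 1 := pow_lt_one₀ ht0.le ht1 (by omega)
    have hg := ((hasSum_geometric_of_lt_one (by positivity : (0 : ℝ) ≤ t ^ 2) ht2).mul_left t).mul_left
      (2 / (2 * (i : ℝ) + 1))
    have e : (fun j : ℕ => f (Prod.swap (i, j)))
        = fun j : ℕ => 2 / (2 * (i : ℝ) + 1) * (t * (t ^ 2) ^ j) := by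
      funext j
      simp only [hf, Prod.swap, ht]
      rw [← pow_mul, ← pow_mul, ← pow_add]
      rw [show (2 * j + 1) * (2 * i + 1) = 2 * i + 1 + (2 * i + 1) * (2 * j) by ring]
      rw [← mul_div_assoc, div_mul_eq_mul_div]
    rw [e]
    have e9 : 1 / ((2 * i + 1 : ℝ) * Real.sinh ((2 * i + 1) * σ))
        = 2 / (2 * (i : ℝ) + 1) * (t * (1 - t ^ 2)⁻¹) := by
      have ht3 : t = Real.exp (-((2 * i + 1) * σ)) := by
        rw [ht, hr, ← Real.exp_nat_mul]
        congr 1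
        push_cast
        ring
      rw [Real.sinh_eq]
      have ht4 : Real.exp ((2 * i + 1) * σ) = t⁻¹ := by
        rw [ht3, ← Real.exp_neg, neg_neg]
      rw [← ht3, ht4]
      have h5 : (0 : ℝ) < 1 - t ^ 2 := by linarith
      have h6 : t⁻¹ - t = (1 - t ^ 2) / t := by field_simp
      rw [h6]
      have h7 : (2 * (i : ℝ) + 1) ≠ 0 := by positivity
      field_simp
    rw [e9]
    exact hg

/-- An upper bound with a gain. -/
lemma ell_le_sub {x : ℝ} (hx0 : 0 < x) (hx1 : x ≤ 1) : ell x ≤ kap / x - 1 / 20 := by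
  -- number of terms
  set m := ⌈1 / (2 * x)⌉₊ with hm
  have hm1 : 1 / (2 * x) ≤ m := Nat.le_ceil _
  have hterm : ∀ i ∈ range m, x / 10 ≤ 1 / ((2 * i + 1 : ℝ) ^ 2) / x
      - 1 / ((2 * i + 1 : ℝ) * Real.sinh ((2 * i + 1) * x)) := by
    intro i hi
    rw [mem_range] at hi
    have hi' : (i : ℝ) < 1 / (2 * x) := Nat.lt_ceil.mp hi
    set y := (2 * i + 1 : ℝ) * x with hy
    have hy0 : 0 < y := by positivity
    have hy2 : y ≤ 2 := by
      rw [lt_div_iff₀ (by positivity)] at hi'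
      rw [hy]
      nlinarith
    have hk : (0 : ℝ) < 2 * i + 1 := by positivity
    have hsinh : y + y ^ 3 / 6 ≤ Real.sinh y := by
      -- the power series of sinh
      have h := Real.hasSum_sinh y
      have h2 := h.summable.sum_le_tsum (range 2) (fun i _ => by positivity)
      rw [h.tsum_eq] at h2
      simp only [sum_range_succ, sum_range_zero] at h2
      norm_num [Nat.factorial] at h2
      linarith
    have hsp : 0 < y + y ^ 3 / 6 := by positivity
    have h1 : 1 / Real.sinh y ≤ 1 / (y + y ^ 3 / 6) := one_div_le_one_div_of_le hsp hsinh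
    have h2 : y / 10 ≤ 1 / y - 1 / (y + y ^ 3 / 6) := by
      rw [div_sub_div _ _ hy0.ne' hsp.ne', le_div_iff₀ (by positivity)]
      nlinarith [mul_pos hy0 hy0, pow_pos hy0 3, pow_pos hy0 4, mul_nonneg (pow_pos hy0 3).le (sub_nonneg.mpr hy2), mul_nonneg (pow_pos hy0 4).le (sub_nonneg.mpr hy2)]
    have e1 : 1 / ((2 * i + 1 : ℝ) ^ 2) / x = 1 / (2 * i + 1 : ℝ) * (1 / y) := by
      rw [hy]; field_simp
    have e2 : 1 / ((2 * i + 1 : ℝ) * Real.sinh y) = 1 / (2 * i + 1 : ℝ) * (1 / Real.sinh y) := by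
      rw [one_div_mul_one_div]
    have e3 : x / 10 = 1 / (2 * i + 1 : ℝ) * (y / 10) := by
      rw [hy]; field_simp
    rw [e1, e2, e3, ← mul_sub]
    apply mul_le_mul_of_nonneg_left _ (by positivity)
    linarith
  have hsum : ∑ i ∈ range m, (x / 10) ≤ kap / x - ell x := by
    refine (sum_le_sum hterm).trans ?_
    have hs1 := summable_kap.div_const x
    have hs2 := summable_ell hx0
    have h3 := (hs1.sub hs2).sum_le_tsum (range m) (fun i _ => sub_nonneg.mpr (ell_term_le hx0 i))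
    rw [hs1.tsum_sub hs2, tsum_div_const] at h3
    exact h3
  rw [sum_const, card_range, nsmul_eq_mul] at hsum
  have h4 : (1 : ℝ) / 20 ≤ m * (x / 10) := by
    calc (1 : ℝ) / 20 = 1 / (2 * x) * (x / 10) := by field_simp; norm_num
      _ ≤ _ := mul_le_mul_of_nonneg_right hm1 (by positivity)
  linarith

lemma sinh_le_cube {y : ℝ} (hy0 : 0 ≤ y) (hy1 : y ≤ 1) : Real.sinh y ≤ y + y ^ 3 := by
  have h := Real.hasSum_sinh y
  have h1 := Real.hasSum_sinh 1
  rw [← hasSum_nat_add_iff' 1] at h h1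
  simp only [sum_range_one, mul_zero, zero_add, pow_one, Nat.factorial_one, Nat.cast_one, div_one,
    one_pow] at h h1
  have h2 : Real.sinh y - y ≤ y ^ 3 * (Real.sinh 1 - 1) := by
    refine hasSum_le ?_ h (h1.mul_left (y ^ 3))
    intro i
    rw [mul_one_div]
    apply div_le_div_of_nonneg_right _ (by positivity)
    exact pow_le_pow_of_le_one hy0 hy1 (by omega)
  have h3 : Real.sinh 1 ≤ 2 := by
    rw [Real.sinh_eq]
    have := Real.exp_one_lt_d9
    have := Real.exp_pos (-1)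
    linarith
  have h4 : (0 : ℝ) ≤ y ^ 3 := by positivity
  nlinarith

lemma inv_sub_inv_sinh_le {y : ℝ} (hy : 0 < y) : 1 / y - 1 / Real.sinh y ≤ y := by
  have hs : 0 < Real.sinh y := Real.sinh_pos_iff.mpr hy
  rcases le_total y 1 with h | h
  · have h1 := sinh_le_cube hy.le h
    have h2 : y ≤ Real.sinh y := Real.self_le_sinh_iff.mpr hy.le
    rw [div_sub_div _ _ hy.ne' hs.ne', div_le_iff₀ (by positivity)]
    nlinarith [mul_pos hy hy, mul_le_mul_of_nonneg_left h2 (mul_pos hy hy).le]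
  · have : 1 / y ≤ y := by
      rw [div_le_iff₀ hy]; nlinarith
    have : 0 < 1 / Real.sinh y := by positivity
    linarith

lemma tail_kap_le (K : ℕ) (hK : 1 ≤ K) :
    ∑' i : ℕ, 1 / ((2 * ((i + K : ℕ) : ℝ) + 1) ^ 2) ≤ 1 / (4 * (K : ℝ)) := by
  have hK0 : (0 : ℝ) < K := by exact_mod_cast hK
  apply Real.tsum_le_of_sum_range_le (fun i => by positivity)
  intro n
  have h1 : ∀ n : ℕ, ∑ i ∈ range n, 1 / ((2 * ((i + K : ℕ) : ℝ) + 1) ^ 2)
      ≤ 1 / (4 * (K : ℝ)) - 1 / (4 * ((n : ℝ) + K)) := by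
    intro n
    induction n with
    | zero => simp
    | succ n ih =>
      rw [sum_range_succ]
      have h2 : 1 / ((2 * ((n + K : ℕ) : ℝ) + 1) ^ 2)
          ≤ 1 / (4 * ((n : ℝ) + K)) - 1 / (4 * (((n + 1 : ℕ) : ℝ) + K)) := by
        push_cast
        have h3 : (0 : ℝ) < (n : ℝ) + K := by positivity
        rw [div_sub_div _ _ (by positivity) (by positivity), div_le_div_iff₀ (by positivity) (by positivity)]
        nlinarith
      linarith
  refine (h1 n).trans ?_
  have : (0 : ℝ) ≤ 1 / (4 * ((n : ℝ) + K)) := by positivity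
  linarith

/-- A lower bound. -/
lemma le_ell {x : ℝ} (hx0 : 0 < x) : kap / x - 5 ≤ ell x := by
  have hs1 := summable_kap.div_const x
  have hs2 := summable_ell hx0
  have hkap : kap ≤ 2 := by
    have h := summable_kap.sum_add_tsum_nat_add 1
    have h2 := tail_kap_le 1 le_rfl
    unfold kap
    rw [← h]
    simp only [sum_range_one]
    norm_num at h2 ⊢
    linarith
  rcases le_total 1 x with h | h
  · have h1 : kap / x ≤ 2 := by
      rw [div_le_iff₀ hx0]; linarith
    have := ell_nonneg hx0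
    linarith
  · have hd : kap / x - ell x = ∑' i : ℕ, (1 / ((2 * i + 1 : ℝ) ^ 2) / x
        - 1 / ((2 * i + 1 : ℝ) * Real.sinh ((2 * i + 1) * x))) := by
      rw [hs1.tsum_sub hs2, tsum_div_const]
      rfl
    set K := ⌈1 / x⌉₊ with hKdef
    have hK1 : 1 / x ≤ K := Nat.le_ceil _
    have hK2 : (K : ℝ) < 1 / x + 1 := Nat.ceil_lt_add_one (by positivity)
    have hK : 1 ≤ K := by
      have : (0 : ℝ) < K := lt_of_lt_of_le (by positivity) hK1
      exact_mod_cast this
    have hK0 : (0 : ℝ) < K := by exact_mod_cast hK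
    have h2 : kap / x - ell x ≤ K * x + 1 / (4 * K) / x := by
      rw [hd, ← (hs1.sub hs2).sum_add_tsum_nat_add K]
      apply add_le_add
      · have : ∀ i ∈ range K, 1 / ((2 * i + 1 : ℝ) ^ 2) / x
            - 1 / ((2 * i + 1 : ℝ) * Real.sinh ((2 * i + 1) * x)) ≤ x := by
          intro i _
          set y := (2 * i + 1 : ℝ) * x with hy
          have hy0 : 0 < y := by positivity
          have h3 := inv_sub_inv_sinh_le hy0
          have e1 : 1 / ((2 * i + 1 : ℝ) ^ 2) / x = 1 / (2 * i + 1 : ℝ) * (1 / y) := by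
            rw [hy]; field_simp
          have e2 : 1 / ((2 * i + 1 : ℝ) * Real.sinh y) = 1 / (2 * i + 1 : ℝ) * (1 / Real.sinh y) := by
            rw [one_div_mul_one_div]
          have e3 : x = 1 / (2 * i + 1 : ℝ) * y := by
            rw [hy]; field_simp
          rw [e1, e2, ← mul_sub]
          conv_rhs => rw [e3]
          exact mul_le_mul_of_nonneg_left h3 (by positivity)
        refine (sum_le_sum this).trans ?_
        simp
      · have h4 : ∀ i : ℕ, 1 / ((2 * ((i + K : ℕ) : ℝ) + 1) ^ 2) / x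
            - 1 / ((2 * ((i + K : ℕ) : ℝ) + 1) * Real.sinh ((2 * ((i + K : ℕ) : ℝ) + 1) * x))
            ≤ 1 / ((2 * ((i + K : ℕ) : ℝ) + 1) ^ 2) / x := by
          intro i
          have := ell_term_nonneg hx0 (i + K)
          linarith
        have hs3 := (summable_nat_add_iff K).mpr (hs1.sub hs2)
        have hs4 := (summable_nat_add_iff K).mpr hs1
        refine (hs3.tsum_le_tsum h4 hs4).trans ?_
        rw [tsum_div_const]
        exact div_le_div_of_nonneg_right (tail_kap_le K hK) hx0.le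
    have h5 : K * x ≤ 2 := by
      have : (K : ℝ) * x ≤ (1 / x + 1) * x := mul_le_mul_of_nonneg_right hK2.le hx0.le
      have e : (1 / x + 1) * x = 1 + x := by field_simp
      linarith
    have h6 : 1 / (4 * K) / x ≤ 1 := by
      rw [div_div, div_le_one (by positivity)]
      rw [div_le_iff₀ hx0] at hK1
      nlinarith
    linarith

lemma kap_le_two : kap ≤ 2 := by
  have h := summable_kap.sum_add_tsum_nat_add 1
  have h2 := tail_kap_le 1 le_rfl
  unfold kap
  rw [← h]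
  simp only [sum_range_one]
  norm_num at h2 ⊢
  linarith

end Pool.MP_6f8877_nt.H8
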