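import Mathlib
import Pool.Agent.Work.MP_6f8877_nt.H8.Lam

set_option autoImplicit false

/-!
# Regrouping the sums over `k` and over the digits
-/

namespace Pool.MP_6f8877_nt.H8

open Complex Finset

lemma log_double {y : ℂ} (hy : ‖y‖ < 1) :
    Psi y = 2 * Real.log ‖1 - y‖ - Real.log ‖1 - y ^ 2‖ := by
  unfold Psi
  have h1 : ‖1 - y‖ ≠ 0 := norm_ne_zero_iff.mpr (one_sub_ne_zero' hy)
  have h2 : ‖1 + y‖ ≠ 0 := by
    have := one_sub_ne_zero' (z := -y) (by simpa using hy)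
    rw [sub_neg_eq_add] at this
    exact norm_ne_zero_iff.mpr this
  have e : (1 : ℂ) - y ^ 2 = (1 - y) * (1 + y) := by ring
  rw [e, norm_mul, Real.log_mul h1 h2]
  ring

lemma norm_two_pow_le {y : ℂ} (hy : ‖y‖ < 1) (s : ℕ) : ‖y ^ (2 ^ s)‖ ≤ ‖y‖ ^ (s + 1) := by
  rw [norm_pow]
  apply pow_le_pow_of_le_one (norm_nonneg _) hy.le
  exact Nat.lt_two_pow_self

lemma norm_two_pow_lt {y : ℂ} (hy : ‖y‖ < 1) (s : ℕ) : ‖y ^ (2 ^ s)‖ < 1 := by
  rw [norm_pow]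
  exact pow_lt_one₀ (norm_nonneg _) hy (by positivity)

/-- `log |1-y| = ∑_s 2^(-s-1) Psi(y^(2^s))`. -/
lemma hasSum_log_Psi {y : ℂ} (hy : ‖y‖ < 1) :
    HasSum (fun s : ℕ => (1 / 2 : ℝ) ^ (s + 1) * Psi (y ^ (2 ^ s))) (Real.log ‖1 - y‖) := by
  have hpart : ∀ S : ℕ, ∑ s ∈ range S, (1 / 2 : ℝ) ^ (s + 1) * Psi (y ^ (2 ^ s))
      = Real.log ‖1 - y‖ - (1 / 2 : ℝ) ^ S * Real.log ‖1 - y ^ (2 ^ S)‖ := by
    intro S
    induction S with
    | zero => simp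
    | succ S ih =>
      rw [sum_range_succ, ih, log_double (norm_two_pow_lt hy S), ← pow_mul, ← pow_succ]
      ring
  have hsum : Summable (fun s : ℕ => (1 / 2 : ℝ) ^ (s + 1) * Psi (y ^ (2 ^ s))) := by
    apply Summable.of_norm_bounded (g := fun s : ℕ => (1 / 2 : ℝ) ^ (s + 1) * (2 * (1 / (1 - ‖y‖))))
    · exact (summable_pow_succ (by norm_num) (by norm_num)).mul_right _
    · intro s
      rw [norm_mul, Real.norm_eq_abs, Real.norm_eq_abs, abs_of_nonneg (by positivity)]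
      apply mul_le_mul_of_nonneg_left _ (by positivity)
      refine (abs_Psi_le (norm_two_pow_lt hy s)).trans ?_
      apply mul_le_mul_of_nonneg_left _ (by norm_num)
      have h1 : ‖y ^ (2 ^ s)‖ ≤ ‖y‖ := by
        rw [norm_pow]
        have := pow_le_pow_of_le_one (norm_nonneg y) hy.le (Nat.one_le_two_pow (n := s))
        simpa using this
      exact div_le_div₀ (by norm_num) (h1.trans hy.le) (by linarith) (by linarith)
  have hlim := hsum.hasSum.tendsto_sum_nat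
  have h2 : Filter.Tendsto (fun S : ℕ => Real.log ‖1 - y‖
      - (1 / 2 : ℝ) ^ S * Real.log ‖1 - y ^ (2 ^ S)‖) Filter.atTop
      (nhds (Real.log ‖1 - y‖ - 0)) := by
    apply Filter.Tendsto.const_sub
    have hb : ∀ S : ℕ, ‖(1 / 2 : ℝ) ^ S * Real.log ‖1 - y ^ (2 ^ S)‖‖
        ≤ (1 / 2 : ℝ) ^ S * (1 / (1 - ‖y‖)) := by
      intro S
      rw [norm_mul, Real.norm_eq_abs, Real.norm_eq_abs, abs_of_nonneg (by positivity)]
      apply mul_le_mul_of_nonneg_left _ (by positivity)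
      refine (abs_log_norm_one_sub_le (norm_two_pow_lt hy S)).trans ?_
      have h1 : ‖y ^ (2 ^ S)‖ ≤ ‖y‖ := by
        rw [norm_pow]
        have := pow_le_pow_of_le_one (norm_nonneg y) hy.le (Nat.one_le_two_pow (n := S))
        simpa using this
      exact div_le_div₀ (by norm_num) (h1.trans hy.le) (by linarith) (by linarith)
    apply squeeze_zero_norm hb
    have := (tendsto_pow_atTop_nhds_zero_of_lt_one (show (0 : ℝ) ≤ 1 / 2 by norm_num)
      (by norm_num)).mul_const (1 / (1 - ‖y‖))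
    simpa using this
  rw [sub_zero] at h2
  have h3 := tendsto_nhds_unique hlim (h2.congr (fun S => (hpart S).symm))
  rw [← h3]
  exact hsum.hasSum

/-- The summands. -/
lemma abs_Psi_pow_le {x : ℂ} (hx : ‖x‖ < 1) (k s : ℕ) :
    |Psi ((x ^ (k + 1)) ^ (2 ^ s))| ≤ 2 / (1 - ‖x‖) * (‖x‖ ^ k * ‖x‖ ^ s) := by
  have h0 := pow_norm_lt_one hx k
  refine (abs_Psi_le (norm_two_pow_lt h0 s)).trans ?_
  have h1 : ‖(x ^ (k + 1)) ^ (2 ^ s)‖ ≤ ‖x‖ ^ (k + s) := by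
    rw [← pow_mul, norm_pow]
    apply pow_le_pow_of_le_one (norm_nonneg _) hx.le
    have : s + 1 ≤ 2 ^ s := Nat.lt_two_pow_self
    nlinarith [Nat.zero_le (k * s)]
  have h2 : ‖(x ^ (k + 1)) ^ (2 ^ s)‖ ≤ ‖x‖ := by
    rw [← pow_mul, norm_pow]
    have : 1 ≤ (k + 1) * 2 ^ s := Nat.one_le_iff_ne_zero.mpr (by positivity)
    have := pow_le_pow_of_le_one (norm_nonneg x) hx.le this
    simpa using this
  have h3 : 0 < 1 - ‖x‖ := by linarith
  rw [pow_add ‖x‖ k s] at h1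
  calc 2 * (‖(x ^ (k + 1)) ^ (2 ^ s)‖ / (1 - ‖(x ^ (k + 1)) ^ (2 ^ s)‖))
      ≤ 2 * ((‖x‖ ^ k * ‖x‖ ^ s) / (1 - ‖x‖)) := by
        apply mul_le_mul_of_nonneg_left _ (by norm_num)
        exact div_le_div₀ (by positivity) h1 h3 (by linarith)
    _ = _ := by ring

lemma summable_Psi_prod {x : ℂ} (hx : ‖x‖ < 1) (ω : ℕ → ℕ → ℝ) (C : ℝ) (hω : ∀ k s, |ω k s| ≤ C) :
    Summable (fun p : ℕ × ℕ => ω p.1 p.2 * Psi ((x ^ (p.1 + 1)) ^ (2 ^ p.2))) := by
  apply Summable.of_norm_bounded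
    (g := fun p : ℕ × ℕ => C * (2 / (1 - ‖x‖) * (‖x‖ ^ p.1 * ‖x‖ ^ p.2)))
  · exact (((summable_geometric_of_lt_one (norm_nonneg x) hx).mul_of_nonneg
      (summable_geometric_of_lt_one (norm_nonneg x) hx) (fun _ => by positivity)
      (fun _ => by positivity)).mul_left _).mul_left _
  · rintro ⟨k, s⟩
    rw [norm_mul, Real.norm_eq_abs, Real.norm_eq_abs]
    exact mul_le_mul (hω k s) (abs_Psi_pow_le hx k s) (abs_nonneg _)
      ((abs_nonneg _).trans (hω k s))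

/-- `(v, j) ↦ 2^v (2j+1) - 1` as an equivalence. -/
noncomputable def oddEquiv : ℕ × ℕ ≃ ℕ := by
  refine Equiv.ofBijective (fun p => 2 ^ p.1 * (2 * p.2 + 1) - 1) ⟨?_, ?_⟩
  · rintro ⟨v, j⟩ ⟨v', j'⟩ h
    simp only at h
    have h1 : 1 ≤ 2 ^ v * (2 * j + 1) := Nat.one_le_iff_ne_zero.mpr (by positivity)
    have h2 : 1 ≤ 2 ^ v' * (2 * j' + 1) := Nat.one_le_iff_ne_zero.mpr (by positivity)
    have h3 : 2 ^ v * (2 * j + 1) = 2 ^ v' * (2 * j' + 1) := by omega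
    have hv : v = v' := by
      have h4 := congrArg (padicValNat 2) h3
      have h5 : ∀ a b : ℕ, padicValNat 2 (2 ^ a * (2 * b + 1)) = a := by
        intro a b
        rw [padicValNat.mul (by positivity) (by omega), padicValNat.prime_pow,
          padicValNat.eq_zero_of_not_dvd (by omega)]
        rfl
      rwa [h5, h5] at h4
    subst hv
    have h6 := Nat.eq_of_mul_eq_mul_left (by positivity) h3
    simp only [Prod.mk.injEq, true_and]
    omega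
  · intro k
    obtain ⟨v, m, hm, hk⟩ := Nat.exists_eq_two_pow_mul_odd (n := k + 1) (by omega)
    obtain ⟨j, rfl⟩ := hm
    exact ⟨(v, j), by simp only; omega⟩

lemma oddEquiv_apply (v j : ℕ) : oddEquiv (v, j) + 1 = 2 ^ v * (2 * j + 1) := by
  have h1 : 1 ≤ 2 ^ v * (2 * j + 1) := Nat.one_le_iff_ne_zero.mpr (by positivity)
  have : oddEquiv (v, j) = 2 ^ v * (2 * j + 1) - 1 := rfl
  omega

lemma padicVal_odd (v j : ℕ) : padicValNat 2 (oddEquiv (v, j) + 1) = v := by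
  rw [oddEquiv_apply, padicValNat.mul (by positivity) (by omega), padicValNat.prime_pow,
    padicValNat.eq_zero_of_not_dvd (by omega)]
  rfl

/-- The regrouping. -/
lemma regroup {x : ℂ} (hx : ‖x‖ < 1) (ω : ℕ → ℕ → ℝ) (C : ℝ) (hω : ∀ v s, |ω v s| ≤ C) :
    HasSum (fun t : ℕ => (∑ p ∈ antidiagonal t, ω p.1 p.2) * (- lam (x ^ (2 ^ t))))
      (∑' p : ℕ × ℕ, ω (padicValNat 2 (p.1 + 1)) p.2 * Psi ((x ^ (p.1 + 1)) ^ (2 ^ p.2))) := by
  have hs := (summable_Psi_prod hx (fun k s => ω (padicValNat 2 (k + 1)) s) C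
    (fun k s => hω _ _)).hasSum
  set W := ∑' p : ℕ × ℕ, ω (padicValNat 2 (p.1 + 1)) p.2 * Psi ((x ^ (p.1 + 1)) ^ (2 ^ p.2)) with hW
  -- index by `((v, s), j)`
  set e : (ℕ × ℕ) × ℕ ≃ ℕ × ℕ :=
    { toFun := fun q => (oddEquiv (q.1.1, q.2), q.1.2)
      invFun := fun p => (((oddEquiv.symm p.1).1, p.2), (oddEquiv.symm p.1).2)
      left_inv := by rintro ⟨⟨v, s⟩, j⟩; simp
      right_inv := by rintro ⟨k, s⟩; simp } with he
  have h1 := (e.hasSum_iff).mpr hs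
  have h2 : HasSum (fun q : ℕ × ℕ => ω q.1 q.2 * (- lam (x ^ (2 ^ (q.1 + q.2))))) W := by
    refine h1.prod_fiberwise (g := fun q : ℕ × ℕ => ω q.1 q.2 * (- lam (x ^ (2 ^ (q.1 + q.2)))))
      (fun q => ?_)
    obtain ⟨v, s⟩ := q
    have h3 := (hasSum_lam (norm_two_pow_lt hx (v + s))).mul_left (ω v s)
    have e3 : (fun j : ℕ => ((fun p : ℕ × ℕ => ω (padicValNat 2 (p.1 + 1)) p.2 *
        Psi ((x ^ (p.1 + 1)) ^ (2 ^ p.2))) ∘ e) ((v, s), j))
        = fun j : ℕ => ω v s * Psi ((x ^ (2 ^ (v + s))) ^ (2 * j + 1)) := by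
      funext j
      simp only [he, Function.comp, Equiv.coe_fn_mk]
      rw [padicVal_odd, oddEquiv_apply, ← pow_mul, ← pow_mul]
      congr 3
      rw [pow_add]
      ring
    rw [e3]
    exact h3
  -- antidiagonals
  have h4 := (Finset.HasAntidiagonal.sigmaAntidiagonalEquivProd (A := ℕ)).hasSum_iff.mpr h2
  refine h4.sigma (g := fun t : ℕ => (∑ p ∈ antidiagonal t, ω p.1 p.2) * (- lam (x ^ (2 ^ t))))
    (fun t => ?_)
  have h5 : (∑ p ∈ antidiagonal t, ω p.1 p.2) * (- lam (x ^ (2 ^ t)))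
      = ∑ c : antidiagonal t, ω c.1.1 c.1.2 * (- lam (x ^ (2 ^ (c.1.1 + c.1.2)))) := by
    rw [sum_mul, ← sum_coe_sort (antidiagonal t)
      (fun p : ℕ × ℕ => ω p.1 p.2 * (- lam (x ^ (2 ^ t))))]
    apply sum_congr rfl
    rintro ⟨⟨v, s⟩, hp⟩ _
    rw [Finset.HasAntidiagonal.mem_antidiagonal] at hp
    simp only at hp ⊢
    rw [hp]
  rw [h5]
  exact hasSum_fintype _

end Pool.MP_6f8877_nt.H8
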