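import Mathlib
import Pool.Agent.Work.MP_6f8877_nt.H8.Regroup
import Pool.Agent.Work.MP_6f8877_nt.H8.JRows

set_option autoImplicit false

/-!
# The 2-adic class of sign choices and its generating function
-/

namespace Pool.MP_6f8877_nt.H8

open Complex Finset

/-- The sign of the choice `M` for `k` and `j`: minus one to the number of positions `b` at which
`j` has the binary digit `1` and `M (v₂ k) b` holds. -/
def cls (M : ℕ → ℕ → Bool) (k j : ℕ) : ℤ :=
  (-1) ^ ((range j).filter (fun b => j.testBit b && M (padicValNat 2 k) b)).card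

lemma cls_eq (M : ℕ → ℕ → Bool) (k j : ℕ) : cls M k j = 1 ∨ cls M k j = -1 := by
  unfold cls
  exact neg_one_pow_eq_or ℤ _

lemma abs_cls_le (M : ℕ → ℕ → Bool) (k j : ℕ) : |cls M k j| ≤ 1 := by
  rcases cls_eq M k j with h | h <;> simp [h]

/-- The sign of one position. -/
def dl (m : ℕ → Bool) (s : ℕ) : ℤ := if m s then -1 else 1

/-- The product over the digits. -/
def dB (m : ℕ → Bool) (B j : ℕ) : ℤ := ∏ s ∈ range B, if j.testBit s then dl m s else 1

lemma dB_stable (m : ℕ → Bool) {j B B' : ℕ} (h : j < 2 ^ B) (hB : B ≤ B') :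
    dB m B' j = dB m B j := by
  unfold dB
  symm
  apply prod_subset
  · intro s hs
    rw [mem_range] at *
    omega
  · intro s _ hs
    rw [mem_range, not_lt] at hs
    rw [testBit_false h hs]
    simp

lemma cls_eq_dB (M : ℕ → ℕ → Bool) (k : ℕ) {j B : ℕ} (h : j < 2 ^ B) :
    cls M k j = dB (M (padicValNat 2 k)) B j := by
  have h1 : j < 2 ^ j := Nat.lt_two_pow_self
  have h2 : dB (M (padicValNat 2 k)) B j = dB (M (padicValNat 2 k)) j j := by
    rw [← dB_stable _ h (Nat.le_max_left B j), ← dB_stable _ h1 (Nat.le_max_right B j)]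
  rw [h2]
  unfold cls dB dl
  rw [← prod_const, prod_filter]
  apply prod_congr rfl
  intro s _
  by_cases h3 : j.testBit s <;> by_cases h4 : M (padicValNat 2 k) s <;> simp [h3, h4]

lemma dB_add (m : ℕ → Bool) {I j : ℕ} (h : j < 2 ^ I) :
    dB m (I + 1) (2 ^ I + j) = dl m I * dB m I j := by
  unfold dB
  rw [prod_range_succ, Nat.testBit_two_pow_add_eq, testBit_false h le_rfl]
  rw [mul_comm]
  congr 1
  apply prod_congr rfl
  intro s hs
  rw [mem_range] at hs
  rw [Nat.testBit_two_pow_add_gt hs]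

/-- The row polynomial. -/
lemma rowM {R : Type*} [CommRing R] (m : ℕ → Bool) (I : ℕ) (z : R) :
    ∑ j ∈ range (2 ^ I), (dB m I j : R) * z ^ j = ∏ s ∈ range I, (1 + (dl m s : R) * z ^ (2 ^ s)) := by
  induction I with
  | zero => simp [dB]
  | succ I ih =>
    rw [prod_range_succ, ← ih, pow_succ, mul_two, sum_range_add]
    rw [mul_add, mul_one, sum_mul]
    congr 1
    · apply sum_congr rfl
      intro j hj
      rw [mem_range] at hj
      rw [dB_stable m hj (Nat.le_succ I)]
    · apply sum_congr rfl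
      intro j hj
      rw [mem_range] at hj
      rw [dB_add m hj, pow_add]
      push_cast
      ring

/-- The weights. -/
noncomputable def om (M : ℕ → ℕ → Bool) (v s : ℕ) : ℝ :=
  (if M v s then 1 else 0) - (1 / 2 : ℝ) ^ (s + 1)

lemma abs_om_le (M : ℕ → ℕ → Bool) (v s : ℕ) : |om M v s| ≤ 1 := by
  unfold om
  have h1 : (1 / 2 : ℝ) ^ (s + 1) ≤ 1 := pow_le_one₀ (by norm_num) (by norm_num)
  have h2 : (0 : ℝ) ≤ (1 / 2 : ℝ) ^ (s + 1) := by positivity
  rw [abs_le]
  split_ifs <;> constructor <;> linarith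

/-- One row. -/
lemma log_row (M : ℕ → ℕ → Bool) (k : ℕ) (N : ℕ) {y : ℂ} (hy : ‖y‖ < 1) :
    Real.log ‖∏ s ∈ range N, (1 + (dl (M (padicValNat 2 k)) s : ℂ) * y ^ (2 ^ s))‖
      = ∑ s ∈ range N, om M (padicValNat 2 k) s * Psi (y ^ (2 ^ s))
        + (1 - (1 / 2 : ℝ) ^ N) * Real.log ‖1 - y ^ (2 ^ N)‖ := by
  induction N with
  | zero => simp
  | succ N ih =>
    have hz := norm_two_pow_lt hy N
    have hne : ∀ s : ℕ, ‖1 + (dl (M (padicValNat 2 k)) s : ℂ) * y ^ (2 ^ s)‖ ≠ 0 := by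
      intro s
      have hs := norm_two_pow_lt hy s
      rw [norm_ne_zero_iff]
      unfold dl
      split_ifs
      · have := one_sub_ne_zero' hs
        push_cast
        rw [neg_one_mul, ← sub_eq_add_neg]
        exact this
      · have := one_sub_ne_zero' (z := -(y ^ (2 ^ s))) (by simpa using hs)
        rw [sub_neg_eq_add] at this
        push_cast
        rw [one_mul]
        exact this
    have hprod : ‖∏ s ∈ range N, (1 + (dl (M (padicValNat 2 k)) s : ℂ) * y ^ (2 ^ s))‖ ≠ 0 := by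
      rw [norm_prod]
      exact prod_ne_zero_iff.mpr (fun s _ => hne s)
    rw [prod_range_succ, norm_mul, Real.log_mul hprod (hne N), ih, sum_range_succ]
    have hd := log_double hz
    have hy2 : y ^ (2 ^ (N + 1)) = (y ^ (2 ^ N)) ^ 2 := by rw [← pow_mul, ← pow_succ]
    rw [hy2]
    have key : Real.log ‖1 + (dl (M (padicValNat 2 k)) N : ℂ) * y ^ (2 ^ N)‖
        = Real.log ‖1 + y ^ (2 ^ N)‖ + (if M (padicValNat 2 k) N then 1 else 0) * Psi (y ^ (2 ^ N)) := by
      unfold dl Psi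
      split_ifs
      · push_cast
        rw [neg_one_mul, ← sub_eq_add_neg]
        ring
      · push_cast
        rw [one_mul]
        ring
    rw [key]
    unfold om
    have hd2 : Real.log ‖1 + y ^ (2 ^ N)‖ = Real.log ‖1 - y ^ (2 ^ N)‖ - Psi (y ^ (2 ^ N)) := by
      unfold Psi; ring
    rw [hd2]
    rw [show Real.log ‖1 - (y ^ 2 ^ N) ^ 2‖ = 2 * Real.log ‖1 - y ^ (2 ^ N)‖ - Psi (y ^ (2 ^ N)) by
      linarith]
    ring

/-- The sum over `k` and the positions. -/
noncomputable def WW (M : ℕ → ℕ → Bool) (x : ℂ) : ℝ :=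
  ∑' p : ℕ × ℕ, om M (padicValNat 2 (p.1 + 1)) p.2 * Psi ((x ^ (p.1 + 1)) ^ (2 ^ p.2))

lemma eval_QQ_cls (M : ℕ → ℕ → Bool) (N : ℕ) (x : ℂ) :
    ((QQ (cls M) N (2 ^ N - 1)).map (Int.castRingHom ℂ)).eval x
      = ∏ i ∈ range N, ∏ s ∈ range N,
          (1 + (dl (M (padicValNat 2 (i + 1))) s : ℂ) * (x ^ (i + 1)) ^ (2 ^ s)) := by
  unfold QQ
  simp only [Polynomial.map_prod, Polynomial.map_sum, Polynomial.map_mul,
    Polynomial.map_intCast, Polynomial.map_pow, Polynomial.map_X, Polynomial.eval_prod,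
    Polynomial.eval_finsetSum, Polynomial.eval_mul, Polynomial.eval_intCast,
    Polynomial.eval_pow, Polynomial.eval_X]
  apply prod_congr rfl
  intro i _
  rw [← rowM]
  have : 2 ^ N - 1 + 1 = 2 ^ N := Nat.sub_add_cancel Nat.one_le_two_pow
  rw [this]
  apply sum_congr rfl
  intro j hj
  rw [mem_range] at hj
  congr 2
  unfold rc
  split_ifs with h0
  · subst h0
    simp [dB]
  · exact cls_eq_dB M (i + 1) hj

/-- The basic inequality: the generating function is bounded by the coefficients. -/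
theorem WW_le (M : ℕ → ℕ → Bool) {x : ℂ} (hx : ‖x‖ < 1) {A : ℝ}
    (hA : ∀ N : ℕ, ∑ n ∈ range N, |(as (cls M) n : ℝ)| * ‖x‖ ^ n ≤ A) :
    WW M x ≤ Real.log A := by
  have hA1 : 1 ≤ A := by
    have := hA 1
    simp only [Finset.sum_range_one, pow_zero, mul_one] at this
    have h0 : as (cls M) 0 = 1 := by
      unfold as
      simp
    rw [h0] at this
    simpa using this
  -- formula for the truncated products
  have hform : ∀ N : ℕ, Real.log ‖((QQ (cls M) N (2 ^ N - 1)).map (Int.castRingHom ℂ)).eval x‖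
      = ∑ p ∈ range N ×ˢ range N, om M (padicValNat 2 (p.1 + 1)) p.2 * Psi ((x ^ (p.1 + 1)) ^ (2 ^ p.2))
        + (1 - (1 / 2 : ℝ) ^ N) * ∑ i ∈ range N, Real.log ‖1 - (x ^ (i + 1)) ^ (2 ^ N)‖ := by
    intro N
    rw [eval_QQ_cls, norm_prod, Real.log_prod, sum_product, mul_sum, ← sum_add_distrib]
    · apply sum_congr rfl
      intro i _
      exact log_row M (i + 1) N (pow_norm_lt_one hx i)
    · intro i _
      rw [norm_prod]
      refine prod_ne_zero_iff.mpr (fun s _ => ?_)
      have hs := norm_two_pow_lt (pow_norm_lt_one hx i) s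
      rw [norm_ne_zero_iff]
      unfold dl
      split_ifs
      · have := one_sub_ne_zero' hs
        push_cast
        rw [neg_one_mul, ← sub_eq_add_neg]
        exact this
      · have := one_sub_ne_zero' (z := -((x ^ (i + 1)) ^ (2 ^ s))) (by simpa using hs)
        rw [sub_neg_eq_add] at this
        push_cast
        rw [one_mul]
        exact this
  have hne : ∀ N : ℕ, ‖((QQ (cls M) N (2 ^ N - 1)).map (Int.castRingHom ℂ)).eval x‖ ≠ 0 := by
    intro N
    rw [eval_QQ_cls, norm_prod]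
    refine prod_ne_zero_iff.mpr (fun i _ => ?_)
    rw [norm_prod]
    refine prod_ne_zero_iff.mpr (fun s _ => ?_)
    have hs := norm_two_pow_lt (pow_norm_lt_one hx i) s
    rw [norm_ne_zero_iff]
    unfold dl
    split_ifs
    · have := one_sub_ne_zero' hs
      push_cast
      rw [neg_one_mul, ← sub_eq_add_neg]
      exact this
    · have := one_sub_ne_zero' (z := -((x ^ (i + 1)) ^ (2 ^ s))) (by simpa using hs)
      rw [sub_neg_eq_add] at this
      push_cast
      rw [one_mul]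
      exact this
  have hsum := (summable_Psi_prod hx (fun k s => om M (padicValNat 2 (k + 1)) s) 1
    (fun k s => abs_om_le M _ _)).hasSum
  have hlim1 : Filter.Tendsto (fun N : ℕ => ∑ p ∈ range N ×ˢ range N,
      om M (padicValNat 2 (p.1 + 1)) p.2 * Psi ((x ^ (p.1 + 1)) ^ (2 ^ p.2))) Filter.atTop
      (nhds (WW M x)) := by
    apply Filter.Tendsto.comp hsum
    apply Filter.tendsto_atTop_finset_of_monotone
    · intro a b hab
      exact product_subset_product (range_subset_range.mpr hab) (range_subset_range.mpr hab)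
    · rintro ⟨a, b⟩
      refine ⟨a + b + 1, ?_⟩
      simp only [mem_product, mem_range]
      omega
  have hlim2 : Filter.Tendsto (fun N : ℕ => (1 - (1 / 2 : ℝ) ^ N) *
      ∑ i ∈ range N, Real.log ‖1 - (x ^ (i + 1)) ^ (2 ^ N)‖) Filter.atTop (nhds 0) := by
    have hb : ∀ N : ℕ, ‖(1 - (1 / 2 : ℝ) ^ N) *
        ∑ i ∈ range N, Real.log ‖1 - (x ^ (i + 1)) ^ (2 ^ N)‖‖
        ≤ (N : ℝ) * ‖x‖ ^ N * (1 / (1 - ‖x‖)) := by
      intro N
      have h1 : (1 / 2 : ℝ) ^ N ≤ 1 := pow_le_one₀ (by norm_num) (by norm_num)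
      have h2 : (0 : ℝ) ≤ (1 / 2 : ℝ) ^ N := by positivity
      have h3 : ‖(1 - (1 / 2 : ℝ) ^ N)‖ ≤ 1 := by
        rw [Real.norm_eq_abs, abs_le]; constructor <;> linarith
      have h4 : ‖∑ i ∈ range N, Real.log ‖1 - (x ^ (i + 1)) ^ (2 ^ N)‖‖
          ≤ (N : ℝ) * ‖x‖ ^ N * (1 / (1 - ‖x‖)) := by
        refine (norm_sum_le _ _).trans ?_
        have : ∀ i ∈ range N, ‖Real.log ‖1 - (x ^ (i + 1)) ^ (2 ^ N)‖‖
            ≤ ‖x‖ ^ N * (1 / (1 - ‖x‖)) := by
          intro i _
          rw [Real.norm_eq_abs]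
          have h5 := norm_two_pow_lt (pow_norm_lt_one hx i) N
          refine (abs_log_norm_one_sub_le h5).trans ?_
          have h6 : ‖(x ^ (i + 1)) ^ (2 ^ N)‖ ≤ ‖x‖ ^ N := by
            rw [← pow_mul, norm_pow]
            apply pow_le_pow_of_le_one (norm_nonneg _) hx.le
            have : N < 2 ^ N := Nat.lt_two_pow_self
            nlinarith [Nat.zero_le (i * 2 ^ N)]
          have h7 : ‖(x ^ (i + 1)) ^ (2 ^ N)‖ ≤ ‖x‖ := by
            rw [← pow_mul, norm_pow]
            have : 1 ≤ (i + 1) * 2 ^ N := Nat.one_le_iff_ne_zero.mpr (by positivity)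
            have := pow_le_pow_of_le_one (norm_nonneg x) hx.le this
            simpa using this
          rw [mul_one_div]
          exact div_le_div₀ (by positivity) h6 (by linarith) (by linarith)
        refine (sum_le_sum this).trans ?_
        rw [sum_const, card_range, nsmul_eq_mul, mul_assoc]
      rw [norm_mul]
      have h5 := norm_nonneg (∑ i ∈ range N, Real.log ‖1 - (x ^ (i + 1)) ^ (2 ^ N)‖)
      nlinarith [norm_nonneg (1 - (1 / 2 : ℝ) ^ N)]
    apply squeeze_zero_norm hb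
    have h1 := tendsto_self_mul_const_pow_of_lt_one (norm_nonneg x) hx
    have h2 := h1.mul_const (1 / (1 - ‖x‖))
    rwa [zero_mul] at h2
  have hlim := hlim1.add hlim2
  rw [add_zero] at hlim
  have hT0 : ∀ N : ℕ, 0 ≤ ∑' n : ℕ, (Fintype.card (Nat.Partition (n + N)) : ℝ) * ‖x‖ ^ (n + N) :=
    fun N => tsum_nonneg (fun n => by positivity)
  have hlimR : Filter.Tendsto (fun N : ℕ => Real.log (A + ∑' n : ℕ,
      (Fintype.card (Nat.Partition (n + N)) : ℝ) * ‖x‖ ^ (n + N))) Filter.atTop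
      (nhds (Real.log (A + 0))) := by
    apply Filter.Tendsto.log
    · apply Filter.Tendsto.const_add
      exact tendsto_sum_nat_add (fun n => (Fintype.card (Nat.Partition n) : ℝ) * ‖x‖ ^ n)
    · linarith
  rw [add_zero] at hlimR
  refine le_of_tendsto_of_tendsto hlim hlimR ?_
  filter_upwards with N
  rw [← hform N]
  apply Real.log_le_log (lt_of_le_of_ne (norm_nonneg _) (hne N).symm)
  have hN : N ≤ 2 ^ N - 1 := by
    have : N < 2 ^ N := Nat.lt_two_pow_self
    omega
  have h1 := norm_eval_QQ_le (abs_cls_le M) hN hx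
  have h2 := hA N
  linarith

/-- `γ_t`. -/
noncomputable def gam (M : ℕ → ℕ → Bool) (t : ℕ) : ℝ := ∑ p ∈ antidiagonal t, om M p.1 p.2

/-- `α_t`. -/
noncomputable def alp (M : ℕ → ℕ → Bool) (t : ℕ) : ℕ :=
  ∑ p ∈ antidiagonal t, if M p.1 p.2 then 1 else 0

lemma alp_le (M : ℕ → ℕ → Bool) (t : ℕ) : alp M t ≤ t + 1 := by
  unfold alp
  have : ∀ p ∈ antidiagonal t, (if M p.1 p.2 then 1 else 0) ≤ 1 := by
    intro p _
    split_ifs <;> simp
  refine (sum_le_sum this).trans ?_
  simp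

lemma gam_eq (M : ℕ → ℕ → Bool) (t : ℕ) : gam M t = (alp M t : ℝ) - 1 + (1 / 2 : ℝ) ^ (t + 1) := by
  unfold gam alp om
  rw [sum_sub_distrib]
  push_cast
  have h : ∑ p ∈ antidiagonal t, (1 / 2 : ℝ) ^ (p.2 + 1) = 1 - (1 / 2 : ℝ) ^ (t + 1) := by
    rw [Finset.Nat.sum_antidiagonal_eq_sum_range_succ_mk]
    rw [← Finset.sum_range_reflect]
    have h1 : ∀ j ∈ range t.succ, (1 / 2 : ℝ) ^ (t - (t.succ - 1 - j) + 1) = (1 / 2 : ℝ) ^ (j + 1) := by
      intro j hj
      rw [mem_range] at hj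
      congr 1
      omega
    rw [sum_congr rfl h1]
    have h2 : ∀ n : ℕ, ∑ j ∈ range n, (1 / 2 : ℝ) ^ (j + 1) = 1 - (1 / 2 : ℝ) ^ n := by
      intro n
      induction n with
      | zero => simp
      | succ n ih => rw [sum_range_succ, ih, pow_succ]; ring
    rw [h2]
  rw [h]
  ring

/-- The series of the generating function in terms of `λ`. -/
lemma hasSum_WW (M : ℕ → ℕ → Bool) {x : ℂ} (hx : ‖x‖ < 1) :
    HasSum (fun t : ℕ => gam M t * (- lam (x ^ (2 ^ t)))) (WW M x) :=
  regroup hx (om M) 1 (abs_om_le M)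

end Pool.MP_6f8877_nt.H8
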