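import Mathlib
import Pool.Agent.Work.MP_6f8877_nt.H8.Cls

set_option autoImplicit false

/-!
# Averages of the generating function over roots of unity
-/

namespace Pool.MP_6f8877_nt.H8

open Complex Finset

lemma sum_antiperiodic {g : ℕ → ℝ} {n : ℕ} (hg : ∀ b, g (b + n) = - g b) (m : ℕ) :
    ∑ b ∈ range (2 * n * m), g b = 0 := by
  induction m with
  | zero => simp
  | succ m ih =>
    rw [mul_add, mul_one, sum_range_add, ih, zero_add, two_mul, sum_range_add, ← sum_add_distrib]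
    apply sum_eq_zero
    intro b _
    have := hg ((n + n) * m + b)
    rw [show (n + n) * m + (n + b) = (n + n) * m + b + n by ring, this]
    ring

lemma exp_neg_lt_one {s : ℝ} (hs : 0 < s) : Real.exp (-s) < 1 := by
  rw [Real.exp_lt_one_iff]; linarith

lemma lam_pow_real {s : ℝ} (hs : 0 < s) {n : ℕ} (hn : 0 < n) :
    lam (((Real.exp (-s) : ℝ) : ℂ) ^ n) = ell (n * s) := by
  rw [← lam_real (by positivity : (0 : ℝ) < n * s), ← Complex.ofReal_pow, ← Real.exp_nat_mul]
  congr 3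
  ring

/-- The terms of the dyadic average. -/
noncomputable def dyt (M : ℕ → ℕ → Bool) (t : ℕ) (s : ℝ) (τ : ℕ) : ℝ :=
  if τ < t then 0 else if τ = t then gam M t * ell (2 ^ t * s) else - (gam M τ * ell (2 ^ τ * s))

/-- The average over the odd multiples of `2^(-t-1)`. -/
theorem dyadic (M : ℕ → ℕ → Bool) (t : ℕ) {s : ℝ} (hs : 0 < s) {A : ℝ}
    (hA : ∀ N : ℕ, ∑ n ∈ range N, |(as (cls M) n : ℝ)| * Real.exp (-s) ^ n ≤ A) :
    Summable (dyt M t s) ∧ ∑' τ, dyt M t s τ ≤ Real.log A := by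
  set r := Real.exp (-s) with hr
  have hr0 : 0 < r := Real.exp_pos _
  have hr1 : r < 1 := exp_neg_lt_one hs
  set ζ : ℂ := Complex.exp (Real.pi * I / (2 ^ t : ℕ)) with hζ
  have hζt : ζ ^ (2 ^ t) = -1 := by
    rw [hζ, ← Complex.exp_nat_mul, mul_div_cancel₀]
    · exact Complex.exp_pi_mul_I
    · exact_mod_cast (by positivity : (2 ^ t : ℕ) ≠ 0)
  have hζn : ‖ζ‖ = 1 := by
    have h1 : ‖ζ‖ ^ (2 ^ t) = 1 := by rw [← norm_pow, hζt]; simp
    exact (pow_eq_one_iff_of_nonneg (norm_nonneg _) (by positivity)).mp h1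
  set x : ℕ → ℂ := fun b => (r : ℂ) * ζ ^ (2 * b + 1) with hx
  have hxn : ∀ b, ‖x b‖ = r := by
    intro b
    simp only [hx]
    rw [norm_mul, norm_pow, hζn, one_pow, mul_one, Complex.norm_real, Real.norm_eq_abs,
      abs_of_pos hr0]
  have hx1 : ∀ b, ‖x b‖ < 1 := fun b => by rw [hxn]; exact hr1
  have hs1 : HasSum (fun τ : ℕ => ∑ b ∈ range (2 ^ t), gam M τ * (- lam (x b ^ (2 ^ τ))))
      (∑ b ∈ range (2 ^ t), WW M (x b)) := hasSum_sum (fun b _ => hasSum_WW M (hx1 b))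
  have hterm : ∀ τ : ℕ, ∑ b ∈ range (2 ^ t), gam M τ * (- lam (x b ^ (2 ^ τ)))
      = (2 : ℝ) ^ t * dyt M t s τ := by
    intro τ
    rw [← mul_sum, sum_neg_distrib]
    unfold dyt
    rcases lt_trichotomy τ t with h | h | h
    · rw [if_pos h]
      obtain ⟨d, hd⟩ := Nat.exists_eq_add_of_lt h
      have hz : ∑ b ∈ range (2 ^ t), lam (x b ^ (2 ^ τ)) = 0 := by
        have h2 := sum_antiperiodic (g := fun b => lam (x b ^ (2 ^ τ))) (n := 2 ^ d) ?_ (2 ^ τ)
        · rw [show 2 * 2 ^ d * 2 ^ τ = 2 ^ t by rw [hd]; ring] at h2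
          exact h2
        · intro b
          rw [← lam_neg]
          congr 1
          simp only [hx]
          rw [show 2 * (b + 2 ^ d) + 1 = (2 * b + 1) + 2 ^ (d + 1) by ring, pow_add ζ, ← mul_assoc,
            mul_pow _ (ζ ^ (2 ^ (d + 1))), ← pow_mul ζ (2 ^ (d + 1)), ← pow_add,
            show d + 1 + τ = t by omega, hζt]
          ring
      rw [hz]
      simp
    · subst h
      rw [if_neg (lt_irrefl _), if_pos rfl]
      have h2 : ∀ b ∈ range (2 ^ τ), lam (x b ^ (2 ^ τ)) = - ell (2 ^ τ * s) := by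
        intro b _
        have e : x b ^ (2 ^ τ) = - ((r : ℂ) ^ (2 ^ τ)) := by
          simp only [hx]
          rw [mul_pow, ← pow_mul, mul_comm (2 * b + 1), pow_mul, hζt, Odd.neg_one_pow ⟨b, rfl⟩]
          ring
        rw [e, lam_neg, lam_pow_real hs (by positivity)]
        push_cast
        rfl
      rw [sum_congr rfl h2, sum_const, card_range, nsmul_eq_mul]
      push_cast
      ring
    · rw [if_neg (by omega), if_neg (by omega)]
      obtain ⟨d, hd⟩ := Nat.exists_eq_add_of_lt h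
      have h2 : ∀ b ∈ range (2 ^ t), lam (x b ^ (2 ^ τ)) = ell (2 ^ τ * s) := by
        intro b _
        have e : x b ^ (2 ^ τ) = (r : ℂ) ^ (2 ^ τ) := by
          simp only [hx]
          rw [mul_pow, ← pow_mul, mul_comm (2 * b + 1), hd,
            show 2 ^ (t + d + 1) * (2 * b + 1) = 2 ^ t * (2 * (2 ^ d * (2 * b + 1))) by ring,
            pow_mul ζ, hζt, pow_mul (-1 : ℂ)]
          simp
        rw [e, lam_pow_real hs (by positivity)]
        push_cast
        rfl
      rw [sum_congr rfl h2, sum_const, card_range, nsmul_eq_mul]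
      push_cast
      ring
  simp only [hterm] at hs1
  have h2t : (0 : ℝ) < 2 ^ t := by positivity
  have hs2 := hs1.mul_left ((2 : ℝ) ^ t)⁻¹
  have e2 : (fun τ : ℕ => ((2 : ℝ) ^ t)⁻¹ * ((2 : ℝ) ^ t * dyt M t s τ)) = dyt M t s := by
    funext τ
    rw [inv_mul_cancel_left₀ h2t.ne']
  rw [e2] at hs2
  refine ⟨hs2.summable, ?_⟩
  rw [hs2.tsum_eq, inv_mul_le_iff₀ h2t]
  have h3 : ∀ b ∈ range (2 ^ t), WW M (x b) ≤ Real.log A := by
    intro b _
    apply WW_le M (hx1 b)
    rw [hxn]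
    exact hA
  refine (sum_le_sum h3).trans ?_
  rw [sum_const, card_range, nsmul_eq_mul]
  push_cast
  rfl

/-- Averages of `Psi`. -/
lemma Psi_avg {q : ℕ} (hq : Odd q) {η : ℂ} (hη : IsPrimitiveRoot η q) {z : ℂ} (hz : ‖z‖ < 1) :
    ∑ a ∈ range q, Psi (η ^ a * z) = Psi (z ^ q) := by
  have hq0 : 0 < q := hq.pos
  have hηn : ‖η‖ = 1 := hη.norm'_eq_one hq0.ne'
  have hprod : ∀ w : ℂ, 1 - w ^ q = ∏ a ∈ range q, (1 - η ^ a * w) := by
    intro w
    have h := X_pow_sub_C_eq_prod hη (α := w) hq0 rfl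
    have h2 := congrArg (Polynomial.eval 1) h
    simpa [Polynomial.eval_prod] using h2
  have hn : ∀ a : ℕ, ‖η ^ a * z‖ < 1 := by
    intro a
    rw [norm_mul, norm_pow, hηn, one_pow, one_mul]
    exact hz
  have hne1 : ∀ a ∈ range q, ‖1 - η ^ a * z‖ ≠ 0 :=
    fun a _ => norm_ne_zero_iff.mpr (one_sub_ne_zero' (hn a))
  have hne2 : ∀ a ∈ range q, ‖1 + η ^ a * z‖ ≠ 0 := by
    intro a _
    have := one_sub_ne_zero' (z := -(η ^ a * z)) (by simpa using hn a)
    rw [sub_neg_eq_add] at this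
    exact norm_ne_zero_iff.mpr this
  unfold Psi
  rw [sum_sub_distrib, ← Real.log_prod hne1, ← Real.log_prod hne2, ← norm_prod, ← norm_prod,
    ← hprod]
  have h3 := hprod (-z)
  rw [hq.neg_pow] at h3
  simp only [mul_neg, sub_neg_eq_add] at h3
  rw [← h3]

/-- Averages of `λ` over the `q`-th roots of unity. -/
lemma lam_avg {q : ℕ} (hq : q.Prime) (hodd : Odd q) {η : ℂ} (hη : IsPrimitiveRoot η q) {y : ℂ}
    (hy : ‖y‖ < 1) :
    ∑ a ∈ range q, lam (η ^ a * y) = (q + 1) * lam (y ^ q) - lam (y ^ (q ^ 2)) := by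
  have hq0 : 0 < q := hq.pos
  have hηn : ‖η‖ = 1 := hη.norm'_eq_one hq0.ne'
  have hn : ∀ a : ℕ, ‖η ^ a * y‖ < 1 := by
    intro a
    rw [norm_mul, norm_pow, hηn, one_pow, one_mul]
    exact hy
  have hyq : ‖y ^ q‖ < 1 := by
    rw [norm_pow]; exact pow_lt_one₀ (norm_nonneg _) hy hq0.ne'
  have hyq2 : ‖y ^ (q ^ 2)‖ < 1 := by
    rw [norm_pow]; exact pow_lt_one₀ (norm_nonneg _) hy (by positivity)
  have h1 : HasSum (fun j : ℕ => ∑ a ∈ range q, Psi ((η ^ a * y) ^ (2 * j + 1)))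
      (∑ a ∈ range q, - lam (η ^ a * y)) := hasSum_sum (fun a _ => hasSum_lam (hn a))
  -- the correction
  set g : ℕ → ℝ := fun j => if q ∣ 2 * j + 1 then
    (q : ℝ) * Psi (y ^ (2 * j + 1)) - Psi ((y ^ q) ^ (2 * j + 1)) else 0 with hg
  have hterm : ∀ j : ℕ, ∑ a ∈ range q, Psi ((η ^ a * y) ^ (2 * j + 1))
      = Psi ((y ^ q) ^ (2 * j + 1)) + g j := by
    intro j
    simp only [hg]
    split_ifs with hd
    · have h2 : ∀ a ∈ range q, Psi ((η ^ a * y) ^ (2 * j + 1)) = Psi (y ^ (2 * j + 1)) := by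
        intro a _
        congr 1
        obtain ⟨c, hc⟩ := hd
        rw [mul_pow, hc, ← pow_mul, mul_comm a, mul_assoc, pow_mul η, hη.pow_eq_one, one_pow, one_mul]
      rw [sum_congr rfl h2, sum_const, card_range, nsmul_eq_mul]
      ring
    · have hcop : (2 * j + 1).Coprime q := ((Nat.Prime.coprime_iff_not_dvd hq).mpr hd).symm
      have hη' := hη.pow_of_coprime (2 * j + 1) hcop
      have h2 := Psi_avg hodd hη' (z := y ^ (2 * j + 1)) (pow_norm_lt_one hy (2 * j))
      rw [add_zero, ← pow_mul, mul_comm q, pow_mul, ← h2]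
      apply sum_congr rfl
      intro a _
      congr 1
      rw [mul_pow, ← pow_mul, ← pow_mul, mul_comm a]
  simp only [hterm] at h1
  have h2 := hasSum_lam hyq
  have h3 : HasSum g (∑ a ∈ range q, - lam (η ^ a * y) - (- lam (y ^ q))) := by
    have := h1.sub h2
    simpa using this
  obtain ⟨e, he⟩ := hodd
  have hinj : Function.Injective (fun i : ℕ => q * i + e) := by
    intro a b h
    simp only [add_left_inj] at h
    exact Nat.eq_of_mul_eq_mul_left hq0 h
  have h4 : HasSum (g ∘ (fun i : ℕ => q * i + e))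
      (∑ a ∈ range q, - lam (η ^ a * y) - (- lam (y ^ q))) := by
    rw [hinj.hasSum_iff]
    · exact h3
    · intro j hj
      simp only [hg]
      rw [if_neg]
      rintro ⟨c, hc⟩
      apply hj
      have hcodd : Odd c := by
        rw [← Nat.not_even_iff_odd]
        intro hce
        have : Even (2 * j + 1) := by rw [hc]; exact hce.mul_left q
        exact (Nat.not_even_iff_odd.mpr ⟨j, rfl⟩) this
      obtain ⟨i, hi⟩ := hcodd
      refine ⟨i, ?_⟩
      simp only
      have h5 : 2 * j + 1 = 2 * (q * i) + q := by rw [hc, hi]; ring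
      omega
  have h5 : HasSum (g ∘ (fun i : ℕ => q * i + e))
      ((q : ℝ) * (- lam (y ^ q)) - (- lam (y ^ (q ^ 2)))) := by
    have h6 := ((hasSum_lam hyq).mul_left (q : ℝ)).sub (hasSum_lam hyq2)
    have e6 : (g ∘ (fun i : ℕ => q * i + e)) = fun j : ℕ =>
        (q : ℝ) * Psi ((y ^ q) ^ (2 * j + 1)) - Psi ((y ^ (q ^ 2)) ^ (2 * j + 1)) := by
      funext i
      have e7 : 2 * (q * i + e) + 1 = q * (2 * i + 1) := by
        have : q * (2 * i + 1) = 2 * (q * i) + q := by ring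
        omega
      simp only [hg, Function.comp]
      rw [e7, if_pos (dvd_mul_right _ _), ← pow_mul, ← pow_mul, ← pow_mul]
      congr 3
      ring
    rw [e6]
    exact h6
  have h7 := h4.unique h5
  rw [sum_neg_distrib] at h7
  linarith

/-- The average over the nontrivial `q`-th roots of unity. -/
theorem primeAvg (M : ℕ → ℕ → Bool) {q : ℕ} (hq : q.Prime) (hodd : Odd q) {s : ℝ} (hs : 0 < s) {A : ℝ}
    (hA : ∀ N : ℕ, ∑ n ∈ range N, |(as (cls M) n : ℝ)| * Real.exp (-s) ^ n ≤ A) :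
    HasSum (fun τ : ℕ => gam M τ * (ell (2 ^ τ * s) + ell (q ^ 2 * (2 ^ τ * s))
      - (q + 1) * ell (q * (2 ^ τ * s))))
      (∑ a ∈ range (q - 1), WW M ((Real.exp (-s) : ℝ) *
        (Complex.exp (2 * Real.pi * I / q)) ^ (a + 1))) ∧
    ∑ a ∈ range (q - 1), WW M ((Real.exp (-s) : ℝ) *
        (Complex.exp (2 * Real.pi * I / q)) ^ (a + 1)) ≤ (q - 1 : ℝ) * Real.log A := by
  set r := Real.exp (-s) with hr
  have hr0 : 0 < r := Real.exp_pos _
  have hr1 : r < 1 := exp_neg_lt_one hs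
  have hq0 : 0 < q := hq.pos
  set ω : ℂ := Complex.exp (2 * Real.pi * I / q) with hω
  have hωp : IsPrimitiveRoot ω q := Complex.isPrimitiveRoot_exp q hq0.ne'
  have hωn : ‖ω‖ = 1 := hωp.norm'_eq_one hq0.ne'
  have hxn : ∀ a : ℕ, ‖(r : ℂ) * ω ^ a‖ = r := by
    intro a
    rw [norm_mul, norm_pow, hωn, one_pow, mul_one, Complex.norm_real, Real.norm_eq_abs,
      abs_of_pos hr0]
  have hx1 : ∀ a : ℕ, ‖(r : ℂ) * ω ^ a‖ < 1 := fun a => by rw [hxn]; exact hr1
  constructor
  · have h1 : HasSum (fun τ : ℕ => ∑ a ∈ range (q - 1), gam M τ * (- lam (((r : ℂ) * ω ^ (a + 1)) ^ (2 ^ τ))))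
        (∑ a ∈ range (q - 1), WW M ((r : ℂ) * ω ^ (a + 1))) :=
      hasSum_sum (fun a _ => hasSum_WW M (hx1 (a + 1)))
    have hterm : ∀ τ : ℕ, ∑ a ∈ range (q - 1), gam M τ * (- lam (((r : ℂ) * ω ^ (a + 1)) ^ (2 ^ τ)))
        = gam M τ * (ell (2 ^ τ * s) + ell (q ^ 2 * (2 ^ τ * s)) - (q + 1) * ell (q * (2 ^ τ * s))) := by
      intro τ
      rw [← mul_sum, sum_neg_distrib]
      congr 1
      have hcop : (2 ^ τ).Coprime q := by
        apply Nat.Coprime.pow_left
        exact (Nat.coprime_two_left (n := q)).mpr hodd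
      have hη := hωp.pow_of_coprime (2 ^ τ) hcop
      have hrn : ‖(r : ℂ)‖ < 1 := by
        rw [Complex.norm_real, Real.norm_eq_abs, abs_of_pos hr0]; exact hr1
      have h2 := lam_avg hq hodd hη (norm_two_pow_lt hrn τ)
      have h3 : ∑ a ∈ range q, lam ((ω ^ (2 ^ τ)) ^ a * (r : ℂ) ^ (2 ^ τ))
          = ∑ a ∈ range (q - 1), lam (((r : ℂ) * ω ^ (a + 1)) ^ (2 ^ τ)) + lam ((r : ℂ) ^ (2 ^ τ)) := by
        conv_lhs => rw [show q = (q - 1) + 1 by omega]
        rw [sum_range_succ', pow_zero, one_mul]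
        congr 1
        apply sum_congr rfl
        intro a _
        congr 1
        rw [mul_pow, ← pow_mul, ← pow_mul, mul_comm (2 ^ τ) (a + 1)]
        ring
      rw [h3, ← pow_mul, ← pow_mul, lam_pow_real hs (by positivity), lam_pow_real hs (by positivity),
        lam_pow_real hs (by positivity)] at h2
      push_cast at h2
      rw [show (2 : ℝ) ^ τ * (q : ℝ) * s = q * (2 ^ τ * s) by ring,
        show (2 : ℝ) ^ τ * (q : ℝ) ^ 2 * s = q ^ 2 * (2 ^ τ * s) by ring] at h2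
      linarith
    simp only [hterm] at h1
    exact h1
  · have h3 : ∀ a ∈ range (q - 1), WW M ((r : ℂ) * ω ^ (a + 1)) ≤ Real.log A := by
      intro a _
      apply WW_le M (hx1 (a + 1))
      rw [hxn]
      exact hA
    refine (sum_le_sum h3).trans ?_
    rw [sum_const, card_range, nsmul_eq_mul, Nat.cast_sub hq0]
    push_cast
    rfl

end Pool.MP_6f8877_nt.H8
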