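import Mathlib
import Pool.Agent.Work.MP_6f8877_nt.H8.Avg

set_option autoImplicit false

/-!
# Consequences of slow growth: inequalities between the `α_t`
-/

namespace Pool.MP_6f8877_nt.H8

open Complex Finset

/-- The growth hypothesis. -/
def Slow (M : ℕ → ℕ → Bool) (n₀ : ℕ) : Prop :=
  ∀ n : ℕ, n₀ ≤ n → |(as (cls M) n : ℝ)| ≤ Real.exp (1 / 50 * Real.log n * Real.log (Real.log n))

lemma log_le_sqrt' {x : ℝ} (hx : 0 < x) : Real.log x ≤ 2 * Real.sqrt x := by
  have h1 : Real.log x = 2 * Real.log (Real.sqrt x) := by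
    rw [Real.log_sqrt hx.le]; ring
  have h2 := Real.log_le_self (Real.sqrt_nonneg x)
  linarith

/-- Bound of the series at `s = q⁻²`. -/
lemma slow_bound {M : ℕ → ℕ → Bool} {n₀ : ℕ} (h₀ : 3 ≤ n₀) (hM : Slow M n₀) :
    ∃ C : ℝ, 0 ≤ C ∧ ∀ q : ℕ, 2 ≤ q → ∃ A : ℝ,
      (∀ N : ℕ, ∑ n ∈ range N, |(as (cls M) n : ℝ)| * Real.exp (-(1 / (q : ℝ) ^ 2)) ^ n ≤ A) ∧
      Real.log A ≤ C + 4 / 50 * Real.log q * Real.log (4 * Real.log q) + 2 * Real.log q ∧
      Real.log A ≤ C * q := by
  set C₀ : ℝ := ∑ n ∈ range n₀, |(as (cls M) n : ℝ)| with hC₀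
  have hC₀0 : 0 ≤ C₀ := sum_nonneg (fun _ _ => abs_nonneg _)
  refine ⟨Real.log (C₀ + 4) + 10, ?_, ?_⟩
  · have : 0 ≤ Real.log (C₀ + 4) := Real.log_nonneg (by linarith)
    linarith
  intro q hq
  have hq' : (2 : ℝ) ≤ q := by exact_mod_cast hq
  have hq0 : (0 : ℝ) < q := by linarith
  set lam0 := Real.log (q : ℝ) with hlam
  have hlam1 : 1 / 2 ≤ lam0 := by
    have h1 : Real.log 2 ≤ lam0 := Real.log_le_log (by norm_num) hq'
    have h2 := Real.log_two_gt_d9
    linarith
  set L := Real.log (4 * lam0) with hL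
  have hL0 : 0 ≤ L := Real.log_nonneg (by linarith)
  set E := Real.exp (4 / 50 * lam0 * L) with hE
  have hE1 : 1 ≤ E := Real.one_le_exp (by positivity)
  set s : ℝ := 1 / (q : ℝ) ^ 2 with hs
  have hs0 : 0 < s := by positivity
  have hs1 : s ≤ 1 := by
    rw [hs, div_le_one (by positivity)]
    nlinarith
  -- the terms
  have hterm : ∀ n : ℕ, n₀ ≤ n → |(as (cls M) n : ℝ)| * Real.exp (-s) ^ n
      ≤ E * Real.exp (-(s / 2)) ^ n := by
    intro n hn
    have hn3 : (3 : ℝ) ≤ n := by exact_mod_cast h₀.trans hn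
    have hn0 : (0 : ℝ) < n := by linarith
    have hlog1 : 1 ≤ Real.log n := by
      have h1 : Real.log (Real.exp 1) ≤ Real.log n := by
        apply Real.log_le_log (Real.exp_pos _)
        have := Real.exp_one_lt_d9
        linarith
      rwa [Real.log_exp] at h1
    have hll : 0 ≤ Real.log (Real.log n) := Real.log_nonneg hlog1
    have h1 := hM n hn
    rw [← Real.exp_nat_mul, ← Real.exp_nat_mul]
    have hgoal : 1 / 50 * Real.log n * Real.log (Real.log n) + n * (-s)
        ≤ 4 / 50 * lam0 * L + n * (-(s / 2)) := by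
      rcases le_total (n : ℝ) ((q : ℝ) ^ 4) with h2 | h2
      · have h3 : Real.log n ≤ 4 * lam0 := by
          have := Real.log_le_log hn0 h2
          rw [Real.log_pow] at this
          exact_mod_cast this
        have h4 : Real.log (Real.log n) ≤ L := Real.log_le_log (by linarith) h3
        have h5 : Real.log n * Real.log (Real.log n) ≤ (4 * lam0) * L :=
          mul_le_mul h3 h4 hll (by linarith)
        have h6 : 0 ≤ (n : ℝ) * (s / 2) := by positivity
        linarith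
      · have h3 : Real.sqrt n * s ≤ n * s * s * Real.sqrt n := by
          have h4 : (q : ℝ) ^ 2 ≤ Real.sqrt n := by
            apply Real.le_sqrt_of_sq_le
            nlinarith
          have h5 : 1 ≤ n * s := by
            rw [hs, mul_one_div, le_div_iff₀ (by positivity)]
            nlinarith [sq_nonneg ((q : ℝ) ^ 2), pow_pos hq0 2, pow_le_pow_left₀ (by norm_num) hq' 2]
          have h6 : 0 ≤ Real.sqrt n * s := by positivity
          nlinarith
        have h4 : Real.sqrt n ≤ n * s := by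
          have h5 : (q : ℝ) ^ 2 ≤ Real.sqrt n := by
            apply Real.le_sqrt_of_sq_le
            nlinarith
          rw [hs, mul_one_div, le_div_iff₀ (by positivity)]
          calc Real.sqrt n * (q : ℝ) ^ 2 ≤ Real.sqrt n * Real.sqrt n :=
                mul_le_mul_of_nonneg_left h5 (Real.sqrt_nonneg _)
            _ = n := Real.mul_self_sqrt hn0.le
        -- log n ≤ 4 n^(1/4)
        set u := Real.sqrt (Real.sqrt n) with hu
        have hu2 : u * u = Real.sqrt n := Real.mul_self_sqrt (Real.sqrt_nonneg _)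
        have hu0 : 0 ≤ u := Real.sqrt_nonneg _
        have h5 : Real.log n ≤ 4 * u := by
          have h6 : Real.log n = 2 * Real.log (Real.sqrt n) := by
            rw [Real.log_sqrt hn0.le]; ring
          have h7 := log_le_sqrt' (x := Real.sqrt n) (Real.sqrt_pos.mpr hn0)
          linarith
        have h6 : Real.log (Real.log n) ≤ Real.log n := Real.log_le_self (by linarith)
        have h7 : Real.log n * Real.log (Real.log n) ≤ (4 * u) * (4 * u) :=
          mul_le_mul h5 (h6.trans h5) hll (by positivity)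
        have h8 : 0 ≤ lam0 * L := by positivity
        nlinarith
    calc |(as (cls M) n : ℝ)| * Real.exp ((n : ℝ) * -s)
        ≤ Real.exp (1 / 50 * Real.log n * Real.log (Real.log n)) * Real.exp ((n : ℝ) * -s) :=
          mul_le_mul_of_nonneg_right h1 (Real.exp_pos _).le
      _ = Real.exp (1 / 50 * Real.log n * Real.log (Real.log n) + n * (-s)) := by rw [Real.exp_add]
      _ ≤ Real.exp (4 / 50 * lam0 * L + n * (-(s / 2))) := Real.exp_le_exp.mpr hgoal
      _ = E * Real.exp ((n : ℝ) * -(s / 2)) := by rw [Real.exp_add]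
  have hgeo0 : 0 ≤ Real.exp (-(s / 2)) := (Real.exp_pos _).le
  have hgeo1 : Real.exp (-(s / 2)) < 1 := exp_neg_lt_one (by positivity)
  have hgeo : (1 - Real.exp (-(s / 2)))⁻¹ ≤ 4 * (q : ℝ) ^ 2 := by
    have h1 : s / 4 ≤ 1 - Real.exp (-(s / 2)) := by
      have h2 : Real.exp (-(s / 2)) ≤ 1 - s / 4 := by
        have h3 : Real.exp (-(s / 2)) ≤ 1 / (1 + s / 2) := by
          rw [Real.exp_neg, inv_eq_one_div]
          apply one_div_le_one_div_of_le (by positivity)
          have := Real.add_one_le_exp (s / 2)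
          linarith
        refine h3.trans ?_
        rw [div_le_iff₀ (by positivity)]
        nlinarith
      linarith
    have h3 : (1 - Real.exp (-(s / 2)))⁻¹ ≤ (s / 4)⁻¹ := inv_anti₀ (by positivity) h1
    refine h3.trans (le_of_eq ?_)
    rw [hs]
    field_simp
  set A := C₀ + E * (4 * (q : ℝ) ^ 2) with hA
  have hlogA : Real.log A ≤ Real.log (C₀ + 4) + 4 / 50 * lam0 * L + 2 * lam0 := by
    have h1 : A ≤ (C₀ + 4) * E * (q : ℝ) ^ 2 := by
      rw [hA]
      have h2 : 1 ≤ E * (q : ℝ) ^ 2 := by nlinarith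
      nlinarith
    have hApos : 0 < A := by
      rw [hA]; positivity
    refine (Real.log_le_log hApos h1).trans (le_of_eq ?_)
    rw [Real.log_mul (by positivity) (by positivity), Real.log_mul (by positivity) (by positivity),
      hE, Real.log_exp, Real.log_pow]
    push_cast
    ring
  refine ⟨A, ?_, ?_, ?_⟩
  · intro N
    have h1 : ∑ n ∈ range N, |(as (cls M) n : ℝ)| * Real.exp (-s) ^ n
        ≤ ∑ n ∈ range N, ((if n < n₀ then |(as (cls M) n : ℝ)| else 0)
          + E * Real.exp (-(s / 2)) ^ n) := by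
      apply sum_le_sum
      intro n _
      split_ifs with h2
      · have h3 : Real.exp (-s) ^ n ≤ 1 := pow_le_one₀ (Real.exp_pos _).le (exp_neg_lt_one hs0).le
        have h4 : |(as (cls M) n : ℝ)| * Real.exp (-s) ^ n ≤ |(as (cls M) n : ℝ)| :=
          mul_le_of_le_one_right (abs_nonneg _) h3
        have h5 : 0 ≤ E * Real.exp (-(s / 2)) ^ n := by positivity
        linarith
      · rw [zero_add]
        exact hterm n (by omega)
    refine h1.trans ?_
    rw [sum_add_distrib, hA]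
    apply add_le_add
    · rw [← sum_filter, hC₀]
      apply sum_le_sum_of_subset_of_nonneg
      · intro n hn
        rw [mem_filter] at hn
        exact mem_range.mpr hn.2
      · intro n _ _
        exact abs_nonneg _
    · rw [← mul_sum]
      apply mul_le_mul_of_nonneg_left _ (by linarith)
      refine ((summable_geometric_of_lt_one hgeo0 hgeo1).sum_le_tsum _
        (fun _ _ => by positivity)).trans ?_
      rw [tsum_geometric_of_lt_one hgeo0 hgeo1]
      exact hgeo
  · linarith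
  · have h1 : lam0 ≤ 2 * Real.sqrt q := log_le_sqrt' hq0
    have h2 : Real.sqrt q * Real.sqrt q = q := Real.mul_self_sqrt hq0.le
    have h3 : L ≤ 4 * lam0 := Real.log_le_self (by linarith)
    have h4 : lam0 * L ≤ 16 * q := by
      have h5 : lam0 * L ≤ lam0 * (4 * lam0) := mul_le_mul_of_nonneg_left h3 (by linarith)
      have h6 : lam0 * lam0 ≤ (2 * Real.sqrt q) * (2 * Real.sqrt q) :=
        mul_le_mul h1 h1 (by linarith) (by positivity)
      nlinarith
    have h5 : lam0 ≤ q := Real.log_le_self hq0.le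
    have h6 : 0 ≤ Real.log (C₀ + 4) := Real.log_nonneg (by linarith)
    have h7 : Real.log (C₀ + 4) ≤ Real.log (C₀ + 4) * q := le_mul_of_one_le_right h6 (by linarith)
    nlinarith

lemma abs_gam_le (M : ℕ → ℕ → Bool) (t : ℕ) : |gam M t| ≤ t + 2 := by
  have h1 := alp_le M t
  have h2 : (alp M t : ℝ) ≤ t + 1 := by exact_mod_cast h1
  have h3 : (0 : ℝ) ≤ alp M t := Nat.cast_nonneg _
  have h4 : (0 : ℝ) ≤ (1 / 2 : ℝ) ^ (t + 1) := by positivity
  have h5 : (1 / 2 : ℝ) ^ (t + 1) ≤ 1 := pow_le_one₀ (by norm_num) (by norm_num)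
  rw [gam_eq, abs_le]
  have h6 : (0 : ℝ) ≤ t := Nat.cast_nonneg _
  constructor <;> linarith

lemma neg_one_le_gam (M : ℕ → ℕ → Bool) (t : ℕ) : -1 ≤ gam M t := by
  have h3 : (0 : ℝ) ≤ alp M t := Nat.cast_nonneg _
  have h4 : (0 : ℝ) ≤ (1 / 2 : ℝ) ^ (t + 1) := by positivity
  rw [gam_eq]
  linarith

/-- The limit terms of the dyadic average. -/
noncomputable def dlim (M : ℕ → ℕ → Bool) (t τ : ℕ) : ℝ :=
  if τ < t then 0 else if τ = t then gam M t * (kap * (1 / 2) ^ t) else - (gam M τ * (kap * (1 / 2) ^ τ))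

lemma summable_bound : Summable (fun τ : ℕ => ((τ : ℝ) + 2) * (kap * (1 / 2) ^ τ)) := by
  have h1 : Summable (fun τ : ℕ => (τ : ℝ) ^ 1 * (1 / 2 : ℝ) ^ τ) :=
    summable_pow_mul_geometric_of_norm_lt_one 1 (by rw [Real.norm_eq_abs, abs_of_nonneg] <;> norm_num)
  have h2 : Summable (fun τ : ℕ => (1 / 2 : ℝ) ^ τ) :=
    summable_geometric_of_lt_one (by norm_num) (by norm_num)
  have h3 := (h1.add (h2.mul_left 2)).mul_left kap
  refine h3.congr (fun τ => ?_)
  rw [pow_one]
  ring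

/-- The dyadic inequality in the limit. -/
theorem dlim_le {M : ℕ → ℕ → Bool} {n₀ : ℕ} (h₀ : 3 ≤ n₀) (hM : Slow M n₀) (t : ℕ) :
    ∑' τ, dlim M t τ ≤ 0 := by
  obtain ⟨C, hC, hb⟩ := slow_bound h₀ hM
  set f : ℕ → ℕ → ℝ := fun q τ => (1 / ((q : ℝ) + 2) ^ 2) * dyt M t (1 / ((q : ℝ) + 2) ^ 2) τ with hf
  have hlims : Filter.Tendsto (fun q : ℕ => 1 / ((q : ℝ) + 2) ^ 2) Filter.atTop (nhds 0) := by
    have h1 : Filter.Tendsto (fun q : ℕ => (q : ℝ) + 2) Filter.atTop Filter.atTop :=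
      Filter.tendsto_atTop_add_const_right _ _ tendsto_natCast_atTop_atTop
    have h2 := (Filter.tendsto_pow_atTop (α := ℝ) (n := 2) (by norm_num)).comp h1
    have h3 := Filter.Tendsto.const_div_atTop h2 1
    exact h3
  have hsl : ∀ τ : ℕ, ∀ q : ℕ, |(1 / ((q : ℝ) + 2) ^ 2) * ell (2 ^ τ * (1 / ((q : ℝ) + 2) ^ 2))
      - kap * (1 / 2) ^ τ| ≤ 5 * (1 / ((q : ℝ) + 2) ^ 2) := by
    intro τ q
    set s : ℝ := 1 / ((q : ℝ) + 2) ^ 2 with hs
    have hs0 : 0 < s := by positivity
    have h1 := ell_le (σ := 2 ^ τ * s) (by positivity)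
    have h2 := le_ell (x := 2 ^ τ * s) (by positivity)
    have h3 : s * (kap / (2 ^ τ * s)) = kap * (1 / 2) ^ τ := by
      rw [one_div, inv_pow]
      field_simp
    have h4 := mul_le_mul_of_nonneg_left h1 hs0.le
    have h5 := mul_le_mul_of_nonneg_left h2 hs0.le
    rw [mul_sub] at h5
    rw [h3] at h4 h5
    rw [abs_le]
    constructor <;> linarith
  have hkap : 0 ≤ kap := by linarith [one_le_kap]
  have hle : ∀ τ : ℕ, ∀ q : ℕ, |(1 / ((q : ℝ) + 2) ^ 2) * ell (2 ^ τ * (1 / ((q : ℝ) + 2) ^ 2))|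
      ≤ kap * (1 / 2) ^ τ := by
    intro τ q
    set s : ℝ := 1 / ((q : ℝ) + 2) ^ 2 with hs
    have hs0 : 0 < s := by positivity
    have h1 := ell_le (σ := 2 ^ τ * s) (by positivity)
    have h2 := ell_nonneg (σ := 2 ^ τ * s) (by positivity)
    have h3 : s * (kap / (2 ^ τ * s)) = kap * (1 / 2) ^ τ := by
      rw [one_div, inv_pow]
      field_simp
    have h4 := mul_le_mul_of_nonneg_left h1 hs0.le
    rw [h3] at h4
    rw [abs_of_nonneg (by positivity)]
    exact h4
  have hterm : ∀ τ : ℕ, Filter.Tendsto (fun q : ℕ => (1 / ((q : ℝ) + 2) ^ 2) *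
      ell (2 ^ τ * (1 / ((q : ℝ) + 2) ^ 2))) Filter.atTop (nhds (kap * (1 / 2) ^ τ)) := by
    intro τ
    rw [tendsto_iff_norm_sub_tendsto_zero]
    refine squeeze_zero (g := fun q : ℕ => 5 * (1 / ((q : ℝ) + 2) ^ 2)) (fun q => norm_nonneg _)
      (fun q => hsl τ q) ?_
    have := hlims.const_mul 5
    rwa [mul_zero] at this
  have hT : Filter.Tendsto (fun q : ℕ => ∑' τ, f q τ) Filter.atTop (nhds (∑' τ, dlim M t τ)) := by
    apply tendsto_tsum_of_dominated_convergence summable_bound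
    · intro τ
      simp only [hf]
      unfold dyt dlim
      split_ifs with h1 h2
      · simp
      · have := (hterm t).const_mul (gam M t)
        refine this.congr (fun q => ?_)
        ring
      · have := ((hterm τ).const_mul (gam M τ)).neg
        refine this.congr (fun q => ?_)
        ring
    · filter_upwards with q τ
      simp only [hf]
      unfold dyt
      have hg := abs_gam_le M τ
      have hb2 := hle τ q
      split_ifs with h1 h2
      · simp only [mul_zero, norm_zero]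
        positivity
      · subst h2
        rw [Real.norm_eq_abs]
        calc |1 / ((q : ℝ) + 2) ^ 2 * (gam M τ * ell (2 ^ τ * (1 / ((q : ℝ) + 2) ^ 2)))|
            = |gam M τ| * |1 / ((q : ℝ) + 2) ^ 2 * ell (2 ^ τ * (1 / ((q : ℝ) + 2) ^ 2))| := by
              rw [← abs_mul]; congr 1; ring
          _ ≤ _ := mul_le_mul hg hb2 (abs_nonneg _) (by positivity)
      · rw [Real.norm_eq_abs]
        calc |1 / ((q : ℝ) + 2) ^ 2 * -(gam M τ * ell (2 ^ τ * (1 / ((q : ℝ) + 2) ^ 2)))|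
            = |gam M τ| * |1 / ((q : ℝ) + 2) ^ 2 * ell (2 ^ τ * (1 / ((q : ℝ) + 2) ^ 2))| := by
              rw [← abs_mul, ← abs_neg]; congr 1; ring
          _ ≤ _ := mul_le_mul hg hb2 (abs_nonneg _) (by positivity)
  have hup : ∀ q : ℕ, ∑' τ, f q τ ≤ C * (1 / ((q : ℝ) + 2)) := by
    intro q
    obtain ⟨A, hA, -, hA2⟩ := hb (q + 2) (by omega)
    push_cast at hA hA2
    have hd := dyadic M t (s := 1 / ((q : ℝ) + 2) ^ 2) (by positivity) hA
    simp only [hf]
    rw [tsum_mul_left]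
    have h3 : (0 : ℝ) < (q : ℝ) + 2 := by positivity
    calc (1 / ((q : ℝ) + 2) ^ 2) * ∑' τ, dyt M t (1 / ((q : ℝ) + 2) ^ 2) τ
        ≤ (1 / ((q : ℝ) + 2) ^ 2) * (C * ((q : ℝ) + 2)) :=
          mul_le_mul_of_nonneg_left (hd.2.trans hA2) (by positivity)
      _ = _ := by field_simp
  have hlim0 : Filter.Tendsto (fun q : ℕ => C * (1 / ((q : ℝ) + 2))) Filter.atTop (nhds 0) := by
    have h1 : Filter.Tendsto (fun q : ℕ => (q : ℝ) + 2) Filter.atTop Filter.atTop :=
      Filter.tendsto_atTop_add_const_right _ _ tendsto_natCast_atTop_atTop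
    have h3 := (Filter.Tendsto.const_div_atTop h1 1).const_mul C
    rwa [mul_zero] at h3
  exact le_of_tendsto_of_tendsto' hT hlim0 hup

/-- `V_t`. -/
noncomputable def VV (M : ℕ → ℕ → Bool) (t : ℕ) : ℝ := ∑' i : ℕ, (1 / 2 : ℝ) ^ (i + 1) * alp M (t + 1 + i)

lemma summable_lin (t : ℝ) : Summable (fun i : ℕ => (1 / 2 : ℝ) ^ (i + 1) * (t + i)) := by
  have h1 : Summable (fun τ : ℕ => (τ : ℝ) ^ 1 * (1 / 2 : ℝ) ^ τ) :=
    summable_pow_mul_geometric_of_norm_lt_one 1 (by rw [Real.norm_eq_abs, abs_of_nonneg] <;> norm_num)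
  have h2 : Summable (fun τ : ℕ => (1 / 2 : ℝ) ^ τ) :=
    summable_geometric_of_lt_one (by norm_num) (by norm_num)
  have h3 := (h1.mul_left (1 / 2)).add (h2.mul_left (t / 2))
  refine h3.congr (fun τ => ?_)
  rw [pow_one]
  ring

lemma alp_le' (M : ℕ → ℕ → Bool) (t i : ℕ) : (alp M (t + 1 + i) : ℝ) ≤ ((t : ℝ) + 2) + i := by
  have := alp_le M (t + 1 + i)
  have h : (alp M (t + 1 + i) : ℝ) ≤ ((t + 1 + i : ℕ) : ℝ) + 1 := by exact_mod_cast this
  push_cast at h
  linarith

lemma summable_VV (M : ℕ → ℕ → Bool) (t : ℕ) :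
    Summable (fun i : ℕ => (1 / 2 : ℝ) ^ (i + 1) * alp M (t + 1 + i)) := by
  apply Summable.of_nonneg_of_le (fun i => by positivity) _ (summable_lin ((t : ℝ) + 2))
  intro i
  exact mul_le_mul_of_nonneg_left (alp_le' M t i) (by positivity)

lemma VV_nonneg (M : ℕ → ℕ → Bool) (t : ℕ) : 0 ≤ VV M t := tsum_nonneg (fun i => by positivity)

lemma VV_le (M : ℕ → ℕ → Bool) (t : ℕ) : VV M t ≤ t + 3 := by
  have h1 : HasSum (fun τ : ℕ => (τ : ℝ) * (1 / 2 : ℝ) ^ τ) ((1 / 2) / (1 - 1 / 2) ^ 2) :=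
    hasSum_coe_mul_geometric_of_norm_lt_one (by rw [Real.norm_eq_abs, abs_of_nonneg] <;> norm_num)
  have h2 : HasSum (fun τ : ℕ => (1 / 2 : ℝ) ^ τ) (1 - 1 / 2)⁻¹ :=
    hasSum_geometric_of_lt_one (by norm_num) (by norm_num)
  have h3 := (h1.mul_left (1 / 2)).add (h2.mul_left (((t : ℝ) + 2) / 2))
  have h4 : (1 / 2 : ℝ) * (1 / 2 / (1 - 1 / 2) ^ 2) + ((t : ℝ) + 2) / 2 * (1 - 1 / 2)⁻¹ = t + 3 := by
    norm_num
    ring
  rw [h4] at h3
  refine hasSum_le ?_ (summable_VV M t).hasSum h3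
  intro i
  have := mul_le_mul_of_nonneg_left (alp_le' M t i) (by positivity : (0 : ℝ) ≤ (1 / 2) ^ (i + 1))
  refine this.trans (le_of_eq ?_)
  rw [pow_succ]
  ring

lemma VV_succ (M : ℕ → ℕ → Bool) (t : ℕ) : VV M (t + 1) = 2 * VV M t - alp M (t + 1) := by
  have h1 := (summable_VV M t).sum_add_tsum_nat_add 1
  simp only [sum_range_one, zero_add, pow_one, add_zero] at h1
  have h2 : ∑' i : ℕ, (1 / 2 : ℝ) ^ (i + 1 + 1) * (alp M (t + 1 + (i + 1)) : ℝ) = 1 / 2 * VV M (t + 1) := by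
    unfold VV
    rw [← tsum_mul_left]
    apply tsum_congr
    intro i
    rw [show t + 1 + (i + 1) = t + 1 + 1 + i by ring]
    ring
  rw [h2] at h1
  unfold VV at h1 ⊢
  linarith

/-- Step A. -/
theorem stepA {M : ℕ → ℕ → Bool} {n₀ : ℕ} (h₀ : 3 ≤ n₀) (hM : Slow M n₀) (t : ℕ) :
    (alp M t : ℝ) + (1 / 3) * (1 / 2) ^ t ≤ VV M t := by
  have h := dlim_le h₀ hM t
  have hs : Summable (dlim M t) := by
    apply Summable.of_norm_bounded summable_bound
    intro τ
    have hg := abs_gam_le M τ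
    have hkap : 0 ≤ kap := by linarith [one_le_kap]
    rw [Real.norm_eq_abs]
    unfold dlim
    split_ifs with h1 h2
    · simp only [abs_zero]
      positivity
    · subst h2
      rw [abs_mul, abs_of_nonneg (by positivity : 0 ≤ kap * (1 / 2) ^ τ)]
      exact mul_le_mul_of_nonneg_right hg (by positivity)
    · rw [abs_neg, abs_mul, abs_of_nonneg (by positivity : 0 ≤ kap * (1 / 2) ^ τ)]
      exact mul_le_mul_of_nonneg_right hg (by positivity)
  have h1 := hs.sum_add_tsum_nat_add (t + 1)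
  rw [← h1, sum_range_succ] at h
  have h2 : ∑ τ ∈ range t, dlim M t τ = 0 := by
    apply sum_eq_zero
    intro τ hτ
    rw [mem_range] at hτ
    unfold dlim
    rw [if_pos hτ]
  have h3 : dlim M t t = gam M t * (kap * (1 / 2) ^ t) := by
    unfold dlim
    rw [if_neg (lt_irrefl _), if_pos rfl]
  have h4 : HasSum (fun i : ℕ => dlim M t (i + (t + 1)))
      (-(kap * (1 / 2) ^ t) * (VV M t - 1 + (1 / 2) ^ t / 6)) := by
    have h5 : HasSum (fun i : ℕ => (1 / 2 : ℝ) ^ (i + 1)) 1 := by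
      have := (hasSum_geometric_of_lt_one (show (0 : ℝ) ≤ 1 / 2 by norm_num) (by norm_num)).mul_left (1 / 2)
      rw [show (1 / 2 : ℝ) * (1 - 1 / 2)⁻¹ = 1 by norm_num] at this
      refine this.congr_fun (fun i => ?_)
      rw [pow_succ]; ring
    have h6 : HasSum (fun i : ℕ => (1 / 2 : ℝ) ^ (i + 1) * (1 / 2) ^ (t + 1 + i + 1)) ((1 / 2) ^ t / 6) := by
      have := (hasSum_geometric_of_lt_one (show (0 : ℝ) ≤ 1 / 4 by norm_num) (by norm_num)).mul_left ((1 / 2) ^ t / 8)
      rw [show (1 / 2 : ℝ) ^ t / 8 * (1 - 1 / 4)⁻¹ = (1 / 2) ^ t / 6 by norm_num; ring] at this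
      refine this.congr_fun (fun i => ?_)
      rw [show (1 / 4 : ℝ) = (1 / 2) ^ 2 by norm_num, ← pow_mul]
      rw [show t + 1 + i + 1 = t + (i + 2) by ring, pow_add, pow_add, pow_succ, pow_mul' ]
      ring
    have h7 := ((summable_VV M t).hasSum.sub h5).add h6
    have h8 := h7.mul_left (-(kap * (1 / 2) ^ t))
    unfold VV
    refine h8.congr_fun (fun i => ?_)
    unfold dlim
    rw [if_neg (by omega), if_neg (by omega), gam_eq, show i + (t + 1) = t + 1 + i by ring]
    rw [show t + 1 + i = t + (i + 1) by ring]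
    rw [pow_add (1 / 2 : ℝ) t (i + 1)]
    ring
  rw [h2, h3, zero_add, h4.tsum_eq, gam_eq] at h
  have hk : 0 < kap * (1 / 2) ^ t := by
    have := one_le_kap
    positivity
  have h9 : (alp M t : ℝ) - 1 + (1 / 2) ^ (t + 1) ≤ VV M t - 1 + (1 / 2) ^ t / 6 := by
    by_contra hc
    push Not at hc
    have := mul_lt_mul_of_pos_left hc hk
    linarith
  rw [pow_succ] at h9
  linarith

end Pool.MP_6f8877_nt.H8
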