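import Mathlib
import Pool.Agent.Work.MP_6f8877_nt.H8.StepA

set_option autoImplicit false

/-!
# The sums of the `α_t` and the final contradiction
-/

namespace Pool.MP_6f8877_nt.H8

open Complex Finset

section StepB

variable {M : ℕ → ℕ → Bool} {n₀ : ℕ}

lemma VV_gap (h₀ : 3 ≤ n₀) (hM : Slow M n₀) (t : ℕ) :
    (alp M (t + 1) : ℝ) + (1 / 6) * (1 / 2) ^ (t + 1) ≤ VV M t := by
  have h1 := stepA h₀ hM (t + 1)
  rw [VV_succ] at h1
  linarith

lemma VV_le_succ (h₀ : 3 ≤ n₀) (hM : Slow M n₀) (t : ℕ) : VV M t ≤ VV M (t + 1) := by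
  have h1 := VV_gap h₀ hM t
  have h2 := VV_succ M t
  have h3 : (0 : ℝ) ≤ (1 / 6) * (1 / 2) ^ (t + 1) := by positivity
  linarith

lemma VV_mono (h₀ : 3 ≤ n₀) (hM : Slow M n₀) : Monotone (VV M) :=
  monotone_nat_of_le_succ (VV_le_succ h₀ hM)

lemma VV_growth (h₀ : 3 ≤ n₀) (hM : Slow M n₀) (j : ℕ) :
    ∀ t : ℕ, 5 * 2 ^ j ≤ t + 5 → (j : ℝ) ≤ VV M t := by
  induction j with
  | zero => intro t _; simpa using VV_nonneg M t
  | succ j ih =>
    intro t ht
    obtain ⟨a, ha⟩ : ∃ a : ℕ, 5 * 2 ^ j = a + 5 := by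
      have : 1 ≤ 2 ^ j := Nat.one_le_two_pow
      exact ⟨5 * 2 ^ j - 5, by omega⟩
    have ht2 : 2 * a + 5 ≤ t := by rw [pow_succ] at ht; omega
    by_contra hc
    push Not at hc
    push_cast at hc
    have hmono := VV_mono h₀ hM
    have hm : ∀ m : ℕ, a + 1 + m ≤ t →
        (j : ℝ) + 2 ^ m * ((1 / 6) * (1 / 2) ^ (a + 1)) ≤ VV M (a + 1 + m) := by
      intro m
      induction m with
      | zero =>
        intro _
        have h1 := VV_gap h₀ hM a
        have h2 := VV_succ M a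
        have h3 := ih a (by omega)
        simp only [add_zero, pow_zero, one_mul]
        linarith
      | succ m ihm =>
        intro hle
        have h1 := ihm (by omega)
        have h2 := VV_succ M (a + 1 + m)
        have h3 := VV_gap h₀ hM (a + 1 + m)
        have h4 : VV M (a + 1 + m) ≤ VV M t := hmono (by omega)
        have h5 : (0 : ℝ) < (1 / 6) * (1 / 2) ^ (a + 1 + m + 1) := by positivity
        have h6 : (alp M (a + 1 + m + 1) : ℝ) < (j : ℝ) + 1 := by linarith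
        have h7 : alp M (a + 1 + m + 1) ≤ j := by
          have : alp M (a + 1 + m + 1) < j + 1 := by exact_mod_cast h6
          omega
        have h8 : (alp M (a + 1 + m + 1) : ℝ) ≤ j := by exact_mod_cast h7
        rw [show a + 1 + (m + 1) = a + 1 + m + 1 by ring, h2, pow_succ (2 : ℝ) m]
        linarith
    have h1 := hm (a + 4) (by omega)
    have h2 : VV M (a + 1 + (a + 4)) ≤ VV M t := hmono (by omega)
    have h3 : (2 : ℝ) ^ (a + 4) * ((1 / 6) * (1 / 2) ^ (a + 1)) = 4 / 3 := by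
      have h4 : (2 : ℝ) ^ (a + 4) * (1 / 2) ^ (a + 1) = 8 := by
        rw [show a + 4 = (a + 1) + 3 by ring, pow_add, mul_right_comm, ← mul_pow]
        norm_num
      linarith
    rw [h3] at h1
    linarith

/-- The sum of the `α_t`. -/
lemma sum_alp (h₀ : 3 ≤ n₀) (hM : Slow M n₀) (j : ℕ) :
    59 * 2 ^ j * (j : ℝ) - 64 * 2 ^ j - 3 ≤ ∑ t ∈ range (64 * 2 ^ j + 1), (alp M t : ℝ) := by
  set T := 64 * 2 ^ j with hT
  have h1 : ∑ t ∈ range T, VV M t + VV M 0 - VV M T ≤ ∑ t ∈ range (T + 1), (alp M t : ℝ) := by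
    rw [sum_range_succ']
    have h2 : ∀ n : ℕ, ∑ t ∈ range n, (alp M (t + 1) : ℝ) = ∑ t ∈ range n, VV M t + VV M 0 - VV M n := by
      intro n
      induction n with
      | zero => simp
      | succ n ih =>
        rw [sum_range_succ, sum_range_succ, ih, VV_succ]
        ring
    rw [h2 T]
    have : (0 : ℝ) ≤ alp M 0 := Nat.cast_nonneg _
    linarith
  have h2 := VV_nonneg M 0
  have h3 := VV_le M T
  have h4 : 59 * 2 ^ j * (j : ℝ) ≤ ∑ t ∈ range T, VV M t := by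
    have h5 : T = 5 * 2 ^ j + 59 * 2 ^ j := by rw [hT]; ring
    rw [h5, sum_range_add]
    have h6 : 0 ≤ ∑ t ∈ range (5 * 2 ^ j), VV M t := sum_nonneg (fun t _ => VV_nonneg M t)
    have h7 : ∑ t ∈ range (59 * 2 ^ j), (j : ℝ) ≤ ∑ t ∈ range (59 * 2 ^ j), VV M (5 * 2 ^ j + t) := by
      apply sum_le_sum
      intro t _
      exact VV_growth h₀ hM j _ (by omega)
    rw [sum_const, card_range, nsmul_eq_mul] at h7
    push_cast at h7
    linarith
  have h5 : (T : ℝ) = 64 * 2 ^ j := by rw [hT]; push_cast; ring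
  linarith

lemma sum_gam (h₀ : 3 ≤ n₀) (hM : Slow M n₀) (j : ℕ) :
    59 * 2 ^ j * (j : ℝ) - 128 * 2 ^ j - 4 ≤ ∑ t ∈ range (64 * 2 ^ j + 1), gam M t := by
  have h1 := sum_alp h₀ hM j
  have h2 : ∑ t ∈ range (64 * 2 ^ j + 1), ((alp M t : ℝ) - 1) ≤ ∑ t ∈ range (64 * 2 ^ j + 1), gam M t := by
    apply sum_le_sum
    intro t _
    rw [gam_eq]
    have : (0 : ℝ) ≤ (1 / 2 : ℝ) ^ (t + 1) := by positivity
    linarith
  rw [sum_sub_distrib, sum_const, card_range, nsmul_eq_mul, mul_one] at h2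
  push_cast at h2
  linarith

end StepB

section StepC

/-- The coefficient of `γ`. -/
noncomputable def Del (q σ : ℝ) : ℝ := ell σ + ell (q ^ 2 * σ) - (q + 1) * ell (q * σ)

lemma Del_ge {q σ : ℝ} (hq : 1 ≤ q) (hσ : 0 < σ) (h : q * σ ≤ 1) :
    (q + 1) / 20 - 5 - kap / (q * σ) ≤ Del q σ := by
  have hq0 : 0 < q := by linarith
  have h1 := le_ell hσ
  have h2 := ell_nonneg (σ := q ^ 2 * σ) (by positivity)
  have h3 := ell_le_sub (x := q * σ) (by positivity) h
  have h4 : (q + 1) * ell (q * σ) ≤ (q + 1) * (kap / (q * σ) - 1 / 20) :=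
    mul_le_mul_of_nonneg_left h3 (by linarith)
  have h5 : kap / σ - (q + 1) * (kap / (q * σ)) = - (kap / (q * σ)) := by
    field_simp
    ring
  unfold Del
  linarith

lemma Del_le {q σ : ℝ} (hq : 1 ≤ q) (hσ : 0 < σ) : Del q σ ≤ 5 * (q + 1) := by
  have hq0 : 0 < q := by linarith
  have h1 := ell_le hσ
  have h2 := ell_le (σ := q ^ 2 * σ) (by positivity)
  have h3 := le_ell (x := q * σ) (by positivity)
  have h4 : (q + 1) * (kap / (q * σ) - 5) ≤ (q + 1) * ell (q * σ) :=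
    mul_le_mul_of_nonneg_left h3 (by linarith)
  have h5 : kap / σ + kap / (q ^ 2 * σ) - (q + 1) * (kap / (q * σ))
      = - (kap / (q ^ 2 * σ) * (q - 1)) := by
    field_simp
    ring
  have hk := one_le_kap
  have h6 : 0 ≤ kap / (q ^ 2 * σ) * (q - 1) := mul_nonneg (by positivity) (by linarith)
  unfold Del
  linarith

lemma abs_Del_le {q σ : ℝ} (hq : 1 ≤ q) (hσ : 0 < σ) : |Del q σ| ≤ (q + 1) * (kap / (q * σ)) := by
  have hq0 : 0 < q := by linarith
  have h1 := ell_le hσ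
  have h2 := ell_le (σ := q ^ 2 * σ) (by positivity)
  have h3 := ell_le (σ := q * σ) (by positivity)
  have h1' := ell_nonneg hσ
  have h2' := ell_nonneg (σ := q ^ 2 * σ) (by positivity)
  have h3' := ell_nonneg (σ := q * σ) (by positivity)
  have h4 : (q + 1) * ell (q * σ) ≤ (q + 1) * (kap / (q * σ)) :=
    mul_le_mul_of_nonneg_left h3 (by linarith)
  have h4' : 0 ≤ (q + 1) * ell (q * σ) := mul_nonneg (by linarith) h3'
  have h5 : kap / σ + kap / (q ^ 2 * σ) - (q + 1) * (kap / (q * σ))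
      = - (kap / (q ^ 2 * σ) * (q - 1)) := by
    field_simp
    ring
  have hk := one_le_kap
  have h6 : 0 ≤ kap / (q ^ 2 * σ) * (q - 1) := mul_nonneg (by positivity) (by linarith)
  unfold Del
  rw [abs_le]
  constructor <;> linarith

lemma sum_t2 (n : ℕ) : ∑ t ∈ range n, ((t : ℝ) + 2) * (1 / 2) ^ t ≤ 6 - (2 * (n : ℝ) + 6) * (1 / 2) ^ n := by
  induction n with
  | zero => norm_num
  | succ n ih =>
    rw [sum_range_succ, pow_succ]
    push_cast
    have : (0 : ℝ) ≤ (1 / 2 : ℝ) ^ n := by positivity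
    nlinarith

/-- Step C. -/
theorem stepC (M : ℕ → ℕ → Bool) {q T : ℕ} (hq : q.Prime) (hT1 : 1 ≤ T) (h1 : 2 ^ T < q)
    (h2 : q ≤ 2 * 2 ^ T) {A : ℝ} (hG : 0 ≤ ∑ t ∈ range (T + 1), gam M t)
    (hA : ∀ N : ℕ, ∑ n ∈ range N, |(as (cls M) n : ℝ)| * Real.exp (-(1 / (q : ℝ) ^ 2)) ^ n ≤ A) :
    (∑ t ∈ range (T + 1), gam M t) / 20 - 40 * T - 100 ≤ Real.log A := by
  have hq3 : 3 ≤ q := by
    have : 2 ^ 1 ≤ 2 ^ T := Nat.pow_le_pow_right (by norm_num) hT1
    omega
  have hodd : Odd q := hq.odd_of_ne_two (by omega)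
  have hqR : (3 : ℝ) ≤ q := by exact_mod_cast hq3
  have hq0 : (0 : ℝ) < q := by linarith
  set s : ℝ := 1 / (q : ℝ) ^ 2 with hs
  have hs0 : 0 < s := by positivity
  obtain ⟨hsum, hle⟩ := primeAvg M hq hodd hs0 hA
  set S := ∑ a ∈ range (q - 1), WW M ((Real.exp (-s) : ℝ) *
        (Complex.exp (2 * Real.pi * I / q)) ^ (a + 1)) with hS
  set f : ℕ → ℝ := fun τ => gam M τ * Del q (2 ^ τ * s) with hf
  have hsum' : HasSum f S := hsum
  -- qσ_t
  have hqs : ∀ t : ℕ, (q : ℝ) * (2 ^ t * s) = 2 ^ t / q := by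
    intro t
    rw [hs]
    field_simp
  have hkq : ∀ t : ℕ, kap / ((q : ℝ) * (2 ^ t * s)) = kap * q * (1 / 2) ^ t := by
    intro t
    rw [hqs, one_div, inv_pow]
    field_simp
  have hk1 := one_le_kap
  have hk2 := kap_le_two
  -- the small t
  have hsmall : ∀ t ∈ range (T + 1), (q + 1 : ℝ) / 20 * gam M t - 5 * (T + 2)
      - 2 * q * (((t : ℝ) + 2) * (1 / 2) ^ t) - 6 * (q + 1) ≤ f t := by
    intro t ht
    rw [mem_range] at ht
    have hσ : 0 < 2 ^ t * s := by positivity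
    have hqσ : (q : ℝ) * (2 ^ t * s) ≤ 1 := by
      rw [hqs, div_le_one hq0]
      have : 2 ^ t ≤ 2 ^ T := Nat.pow_le_pow_right (by norm_num) (by omega)
      have : 2 ^ t ≤ q := by omega
      exact_mod_cast this
    have h3 := Del_ge (q := q) (by linarith) hσ hqσ
    have h4 := Del_le (q := q) (by linarith) hσ
    rw [hkq] at h3
    have h5 := abs_gam_le M t
    rw [abs_le] at h5
    have h6 := neg_one_le_gam M t
    have htT : (t : ℝ) ≤ T := by
      have : t ≤ T := by omega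
      exact_mod_cast this
    have hp : (0 : ℝ) < (1 / 2 : ℝ) ^ t := by positivity
    have ht0 : (0 : ℝ) ≤ t := Nat.cast_nonneg _
    simp only [hf]
    rcases le_total 0 (gam M t) with h7 | h7
    · have h8 : gam M t * ((q + 1 : ℝ) / 20 - 5 - kap * q * (1 / 2) ^ t) ≤ gam M t * Del q (2 ^ t * s) :=
        mul_le_mul_of_nonneg_left h3 h7
      have h9 : gam M t * 5 ≤ 5 * (T + 2) := by linarith
      have h10 : gam M t * (kap * q * (1 / 2) ^ t) ≤ 2 * q * (((t : ℝ) + 2) * (1 / 2) ^ t) := by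
        calc gam M t * (kap * q * (1 / 2) ^ t) ≤ (t + 2) * (2 * q * (1 / 2) ^ t) := by
              apply mul_le_mul h5.2 _ (by positivity) (by positivity)
              apply mul_le_mul_of_nonneg_right _ hp.le
              exact mul_le_mul_of_nonneg_right hk2 hq0.le
          _ = _ := by ring
      have h11 : (0 : ℝ) ≤ 6 * (q + 1) := by positivity
      nlinarith
    · have h8 : gam M t * (5 * (q + 1)) ≤ gam M t * Del q (2 ^ t * s) :=
        mul_le_mul_of_nonpos_left h4 h7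
      have h9 : -(5 * (q + 1 : ℝ)) ≤ gam M t * (5 * (q + 1)) := by
        have : (0 : ℝ) ≤ 5 * (q + 1) := by positivity
        nlinarith
      have h10 : (q + 1 : ℝ) / 20 * gam M t ≤ 0 := mul_nonpos_of_nonneg_of_nonpos (by positivity) h7
      have h11 : 0 ≤ 2 * (q : ℝ) * (((t : ℝ) + 2) * (1 / 2) ^ t) := by positivity
      have hT0 : (0 : ℝ) ≤ T := Nat.cast_nonneg _
      linarith
  -- the large t
  have hlarge : ∀ i : ℕ, ‖f (i + (T + 1))‖ ≤ (2 * (q : ℝ) * (q + 1) * (1 / 2) ^ T) *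
      ((1 / 2 : ℝ) ^ (i + 1) * (((T : ℝ) + 3) + i)) := by
    intro i
    have hσ : 0 < 2 ^ (i + (T + 1)) * s := by positivity
    have h3 := abs_Del_le (q := q) (by linarith) hσ
    rw [hkq] at h3
    have h5 := abs_gam_le M (i + (T + 1))
    push_cast at h5
    simp only [hf]
    rw [norm_mul, Real.norm_eq_abs, Real.norm_eq_abs]
    calc |gam M (i + (T + 1))| * |Del q (2 ^ (i + (T + 1)) * s)|
        ≤ ((i : ℝ) + (T + 1) + 2) * ((q + 1) * (2 * q * (1 / 2) ^ (i + (T + 1)))) := by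
          apply mul_le_mul h5 _ (abs_nonneg _) (by positivity)
          refine h3.trans ?_
          apply mul_le_mul_of_nonneg_left _ (by positivity)
          apply mul_le_mul_of_nonneg_right _ (by positivity)
          exact mul_le_mul_of_nonneg_right hk2 hq0.le
      _ = _ := by
          rw [show i + (T + 1) = T + (i + 1) by ring, pow_add (1 / 2 : ℝ) T (i + 1)]
          ring
  have hgeo : HasSum (fun i : ℕ => (1 / 2 : ℝ) ^ (i + 1) * (((T : ℝ) + 3) + i)) (T + 4) := by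
    have g1 : HasSum (fun τ : ℕ => (τ : ℝ) * (1 / 2 : ℝ) ^ τ) ((1 / 2) / (1 - 1 / 2) ^ 2) :=
      hasSum_coe_mul_geometric_of_norm_lt_one (by rw [Real.norm_eq_abs, abs_of_nonneg] <;> norm_num)
    have g2 : HasSum (fun τ : ℕ => (1 / 2 : ℝ) ^ τ) (1 - 1 / 2)⁻¹ :=
      hasSum_geometric_of_lt_one (by norm_num) (by norm_num)
    have g3 := (g1.mul_left (1 / 2)).add (g2.mul_left (((T : ℝ) + 3) / 2))
    have g4 : (1 / 2 : ℝ) * (1 / 2 / (1 - 1 / 2) ^ 2) + ((T : ℝ) + 3) / 2 * (1 - 1 / 2)⁻¹ = T + 4 := by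
      norm_num
      ring
    rw [g4] at g3
    refine g3.congr_fun (fun i => ?_)
    rw [pow_succ]
    ring
  have hT0 : (0 : ℝ) ≤ T := Nat.cast_nonneg _
  have hlarge2 : -(4 * (q + 1) * (T + 4) : ℝ) ≤ ∑' i : ℕ, f (i + (T + 1)) := by
    have h3 := tsum_of_norm_bounded (hgeo.mul_left (2 * (q : ℝ) * (q + 1) * (1 / 2) ^ T)) hlarge
    rw [Real.norm_eq_abs, abs_le] at h3
    have h4 : 2 * (q : ℝ) * (q + 1) * (1 / 2) ^ T * (T + 4) ≤ 4 * (q + 1) * (T + 4) := by
      apply mul_le_mul_of_nonneg_right _ (by positivity)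
      have h5 : (q : ℝ) * (1 / 2) ^ T ≤ 2 := by
        have h6 : (q : ℝ) ≤ 2 * 2 ^ T := by exact_mod_cast h2
        have h7 : (2 * 2 ^ T : ℝ) * (1 / 2) ^ T = 2 := by
          rw [mul_assoc, ← mul_pow]; norm_num
        have h8 := mul_le_mul_of_nonneg_right h6 (by positivity : (0 : ℝ) ≤ (1 / 2) ^ T)
        linarith
      nlinarith
    linarith [h3.1]
  have hsplit := hsum'.summable.sum_add_tsum_nat_add (T + 1)
  rw [hsum'.tsum_eq] at hsplit
  have hsm := sum_le_sum hsmall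
  have hsme : ∑ t ∈ range (T + 1), ((q + 1 : ℝ) / 20 * gam M t - 5 * (T + 2)
      - 2 * q * (((t : ℝ) + 2) * (1 / 2) ^ t) - 6 * (q + 1))
      = (q + 1 : ℝ) / 20 * (∑ t ∈ range (T + 1), gam M t) - (T + 1) * (5 * (T + 2))
        - 2 * q * (∑ t ∈ range (T + 1), ((t : ℝ) + 2) * (1 / 2) ^ t) - (T + 1) * (6 * (q + 1)) := by
    rw [sum_sub_distrib, sum_sub_distrib, sum_sub_distrib, mul_sum, mul_sum, sum_const, sum_const,
      card_range, nsmul_eq_mul, nsmul_eq_mul]
    push_cast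
    ring
  rw [hsme] at hsm
  have hst := sum_t2 (T + 1)
  have hst2 : (0 : ℝ) ≤ (2 * ((T + 1 : ℕ) : ℝ) + 6) * (1 / 2) ^ (T + 1) := by positivity
  have hst3 : ∑ t ∈ range (T + 1), ((t : ℝ) + 2) * (1 / 2) ^ t ≤ 6 := by linarith
  set G := ∑ t ∈ range (T + 1), gam M t with hGdef
  have hqT : (T : ℝ) + 1 ≤ q := by
    have : T < 2 ^ T := Nat.lt_two_pow_self
    have : T + 1 ≤ q := by omega
    exact_mod_cast this
  -- combine
  have hfin : (q + 1 : ℝ) / 20 * G - (T + 1) * (5 * (T + 2)) - 12 * q - (T + 1) * (6 * (q + 1))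
      - 4 * (q + 1) * (T + 4) ≤ (q - 1 : ℝ) * Real.log A := by
    have h3 : 2 * (q : ℝ) * ∑ t ∈ range (T + 1), ((t : ℝ) + 2) * (1 / 2) ^ t ≤ 12 * q := by
      have := mul_le_mul_of_nonneg_left hst3 (by positivity : (0 : ℝ) ≤ 2 * q)
      linarith
    linarith
  by_contra hc
  push Not at hc
  have hc2 : (q - 1 : ℝ) * Real.log A < (q - 1) * (G / 20 - 40 * T - 100) :=
    mul_lt_mul_of_pos_left hc (by linarith)
  have e1 : (q - 1 : ℝ) * (G / 20) ≤ (q + 1 : ℝ) / 20 * G := by nlinarith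
  have e2 : (T + 1 : ℝ) * (5 * (T + 2)) ≤ q * (5 * (T + 2)) :=
    mul_le_mul_of_nonneg_right hqT (by positivity)
  nlinarith

/-- No choice in the class has slow growth. -/
theorem not_slow (M : ℕ → ℕ → Bool) {n₀ : ℕ} (h₀ : 3 ≤ n₀) : ¬ Slow M n₀ := by
  intro hM
  obtain ⟨C, hC, hb⟩ := slow_bound h₀ hM
  obtain ⟨j, hj⟩ := exists_nat_gt (3 * C + 10000)
  set T := 64 * 2 ^ j with hT
  have hTpos : 64 ≤ T := by
    have : 1 ≤ 2 ^ j := Nat.one_le_two_pow
    omega
  obtain ⟨q, hq, hq1, hq2⟩ := Nat.exists_prime_lt_and_le_two_mul (2 ^ T) (by positivity)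
  obtain ⟨A, hA1, hA2, -⟩ := hb q hq.two_le
  have hG := sum_gam h₀ hM j
  rw [← hT] at hG
  have hp : (1 : ℝ) ≤ 2 ^ j := one_le_pow₀ (by norm_num)
  have hj0 : (10000 : ℝ) < j := by linarith
  have hTR : (T : ℝ) = 64 * 2 ^ j := by rw [hT]; push_cast; ring
  have hG0 : 0 ≤ ∑ t ∈ range (T + 1), gam M t := by
    refine le_trans ?_ hG
    nlinarith
  have hC1 := stepC M hq (by omega) hq1 hq2 hG0 hA1
  -- upper bound
  have hq0 : (0 : ℝ) < q := by exact_mod_cast hq.pos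
  have hl2 := Real.log_two_lt_d9
  have hl2' := Real.log_two_gt_d9
  have hlq : Real.log q ≤ (T + 1) * Real.log 2 := by
    have h3 : (q : ℝ) ≤ 2 ^ (T + 1) := by
      rw [pow_succ, mul_comm]; exact_mod_cast hq2
    have h4 := Real.log_le_log hq0 h3
    rw [Real.log_pow] at h4
    push_cast at h4
    exact h4
  have hlq0 : 0 < Real.log q := by
    apply Real.log_pos
    exact_mod_cast hq.one_lt
  have hTR0 : (64 : ℝ) ≤ T := by exact_mod_cast hTpos
  have hlq1 : 4 * Real.log q ≤ 2 ^ (j + 8) := by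
    have h3 : 4 * Real.log q ≤ 4 * T := by nlinarith
    refine h3.trans (le_of_eq ?_)
    rw [hTR, pow_add]
    ring
  have hll : Real.log (4 * Real.log q) ≤ (j + 8) * Real.log 2 := by
    have h4 := Real.log_le_log (by positivity) hlq1
    rw [Real.log_pow] at h4
    push_cast at h4
    exact h4
  have hprod : Real.log q * Real.log (4 * Real.log q) ≤ ((T + 1) * Real.log 2) * ((j + 8) * Real.log 2) := by
    have h5 : 0 ≤ (j + 8 : ℝ) * Real.log 2 := by positivity
    calc Real.log q * Real.log (4 * Real.log q) ≤ Real.log q * ((j + 8) * Real.log 2) :=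
          mul_le_mul_of_nonneg_left hll hlq0.le
      _ ≤ _ := mul_le_mul_of_nonneg_right hlq h5
  have hsq : Real.log 2 * Real.log 2 ≤ 0.481 := by nlinarith
  have hprod2 : ((T + 1) * Real.log 2) * ((j + 8) * Real.log 2) ≤ ((T + 1) * (j + 8)) * 0.481 := by
    have h5 : (0 : ℝ) ≤ (T + 1) * (j + 8) := by positivity
    calc ((T + 1) * Real.log 2) * ((j + 8) * Real.log 2)
        = ((T + 1) * (j + 8)) * (Real.log 2 * Real.log 2) := by ring
      _ ≤ _ := mul_le_mul_of_nonneg_left hsq h5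
  have hup : Real.log A ≤ C + 4 / 50 * (((T + 1) * (j + 8)) * 0.481) + 2 * (T + 1) := by
    have h6 : Real.log q ≤ T + 1 := by
      refine hlq.trans ?_
      nlinarith
    have h7 : 4 / 50 * Real.log q * Real.log (4 * Real.log q)
        = 4 / 50 * (Real.log q * Real.log (4 * Real.log q)) := by ring
    rw [h7] at hA2
    linarith
  have hlow : (59 * 2 ^ j * (j : ℝ) - 128 * 2 ^ j - 4) / 20 - 40 * T - 100 ≤ Real.log A := by
    linarith
  rw [hTR] at hup hlow
  set P : ℝ := 2 ^ j with hP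
  -- 2.95 P j - 6.4 P - .2 - 2560 P - 100 ≤ C + 0.03848 (64 P + 1)(j + 8) + 2 (64 P + 1)
  have hPj : 10000 * P + 3 * (C * P) ≤ P * j := by nlinarith
  have hCP : C ≤ C * P := le_mul_of_one_le_right hC hp
  have hjP : (j : ℝ) ≤ P * j := le_mul_of_one_le_left (by linarith) hp
  nlinarith

end StepC

end Pool.MP_6f8877_nt.H8
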