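import Mathlib
import Pool.Agent.Work.MP_6f8877_nt.H8.JRows

set_option autoImplicit false

namespace Pool.MP_6f8877_nt.H8

open Finset

lemma pow_le_choose (n B : ℕ) : (n + 1) ^ B ≤ B.factorial * (n + B).choose B := by
  have h := Nat.ascFactorial_eq_factorial_mul_choose n B
  have h2 : (n + 1) ^ B ≤ (n + 1).ascFactorial B := Nat.pow_succ_le_ascFactorial (n + 1) B
  rw [h] at h2
  exact h2

lemma sum_poly_le {r : ℝ} (h0 : 0 ≤ r) (h1 : r < 1) (B N : ℕ) :
    ∑ n ∈ range N, ((n : ℝ) + 1) ^ B * r ^ n ≤ B.factorial / (1 - r) ^ (B + 1) := by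
  have hr : ‖r‖ < 1 := by rw [Real.norm_eq_abs, abs_of_nonneg h0]; exact h1
  have h2 := hasSum_choose_mul_geometric_of_norm_lt_one B hr
  calc ∑ n ∈ range N, ((n : ℝ) + 1) ^ B * r ^ n
      ≤ ∑ n ∈ range N, (B.factorial : ℝ) * (((n + B).choose B : ℝ) * r ^ n) := by
        apply sum_le_sum
        intro n _
        rw [← mul_assoc]
        apply mul_le_mul_of_nonneg_right _ (by positivity)
        exact_mod_cast pow_le_choose n B
    _ ≤ B.factorial * (1 / (1 - r) ^ (B + 1)) := by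
        rw [← mul_sum]
        apply mul_le_mul_of_nonneg_left _ (by positivity)
        apply sum_le_hasSum _ _ h2
        intro i _
        positivity
    _ = _ := by ring

theorem card_bad_poly {ε : ℕ → ℕ → ℤ} (hε : ∀ k j, |ε k j| ≤ 1) (A B : ℕ) (hA : 1 ≤ A)
    (ha : ∀ n, |as ε n| ≤ A * (n + 1) ^ B) {ρ : ℝ} (hρ0 : 0 < ρ) (hρ1 : ρ < 1) (K : ℕ) (hK : 1 ≤ K)
    (s : Finset ℕ) (hs : ∀ i ∈ s, i < K ∧ ∃ z : ℂ, ‖z‖ ≤ ρ ∧ rowFun ε (i + 1) z = 0) :
    (s.card : ℝ) * Real.log (1 / ρ)
      ≤ 2 * (Real.log (A * B.factorial) + (B + 1) * Real.log (2 * K / (1 - ρ))) := by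
  have hK0 : (0 : ℝ) < K := by exact_mod_cast hK
  set r : ℝ := ρ ^ (1 / (2 * K : ℝ)) with hr
  have hr0 : 0 < r := Real.rpow_pos_of_pos hρ0 _
  have hr1 : r < 1 := Real.rpow_lt_one hρ0.le hρ1 (by positivity)
  have hrK : r ^ (2 * K) = ρ := by
    rw [hr, ← Real.rpow_natCast, ← Real.rpow_mul hρ0.le]
    push_cast
    rw [one_div_mul_cancel (by positivity), Real.rpow_one]
  have hrK2 : r ^ K * r ^ K = ρ := by rw [← pow_add, ← two_mul, hrK]
  have hrK0 : 0 < r ^ K := by positivity
  have hrKle : r ^ K ≤ 1 := pow_le_one₀ hr0.le hr1.le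
  have hρle : ρ ≤ r ^ K := by nlinarith
  have hM : ∀ N : ℕ, ∑ n ∈ range N, |(as ε n : ℝ)| * r ^ n ≤ A * B.factorial / (1 - r) ^ (B + 1) := by
    intro N
    calc ∑ n ∈ range N, |(as ε n : ℝ)| * r ^ n ≤ ∑ n ∈ range N, (A : ℝ) * (((n : ℝ) + 1) ^ B * r ^ n) := by
          apply sum_le_sum
          intro n _
          rw [← mul_assoc]
          apply mul_le_mul_of_nonneg_right _ (by positivity)
          exact_mod_cast ha n
      _ ≤ A * (B.factorial / (1 - r) ^ (B + 1)) := by
          rw [← mul_sum]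
          exact mul_le_mul_of_nonneg_left (sum_poly_le hr0.le hr1 B N) (by positivity)
      _ = _ := by ring
  have h1 := card_bad_le hε hr0 hr1 hρ0 K hρle hM s hs
  have h2 : Real.log (r ^ K / ρ) = Real.log (1 / ρ) / 2 := by
    have e1 : r ^ K / ρ = 1 / r ^ K := by
      rw [div_eq_div_iff hρ0.ne' hrK0.ne']
      linarith
    have e2 : Real.log (1 / ρ) = 2 * Real.log (1 / r ^ K) := by
      rw [← hrK2, one_div, one_div, Real.log_inv, Real.log_inv, Real.log_mul hrK0.ne' hrK0.ne']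
      ring
    rw [e1, e2]; ring
  -- lower bound of 1 - r
  have h3 : (1 - ρ) / (2 * K) ≤ 1 - r := by
    have h4 : 1 + (2 * K : ℕ) * (r - 1) ≤ (1 + (r - 1)) ^ (2 * K) :=
      one_add_mul_le_pow (by linarith) _
    rw [show 1 + (r - 1) = r by ring, hrK] at h4
    push_cast at h4
    rw [div_le_iff₀ (by positivity)]
    linarith
  have h5 : 0 < (1 - ρ) / (2 * K) := by
    apply div_pos (by linarith) (by positivity)
  have h6 : Real.log (A * B.factorial / (1 - r) ^ (B + 1))
      ≤ Real.log (A * B.factorial) + (B + 1) * Real.log (2 * K / (1 - ρ)) := by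
    have hA' : (0 : ℝ) < A := by exact_mod_cast hA
    have hB' : (0 : ℝ) < B.factorial := by exact_mod_cast Nat.factorial_pos B
    rw [Real.log_div (by positivity) (by
      have : 0 < 1 - r := by linarith
      positivity), Real.log_pow]
    have h7 : -Real.log (1 - r) ≤ Real.log (2 * K / (1 - ρ)) := by
      rw [← Real.log_inv]
      apply Real.log_le_log (by
        have : 0 < 1 - r := by linarith
        positivity)
      rw [← one_div, one_div_le (by linarith) (by
        have : 0 < 1 - ρ := by linarith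
        positivity), one_div_div]
      exact h3
    push_cast
    have h8 : (0 : ℝ) ≤ (B : ℝ) + 1 := by positivity
    nlinarith [mul_le_mul_of_nonneg_left h7 h8]
  rw [h2] at h1
  linarith

end Pool.MP_6f8877_nt.H8
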